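import Pool.Agent.E8helper32.SQ.Stm

/-!
# Statements of the pieces: `ψ ∘ φ = χ`, `ψ` with countably many singular values
-/

set_option autoImplicit false

open Complex MeasureTheory Metric Set Filter Topology

namespace Pool.Agent.E8helper32.SQ

/-- slow growth of injective functions in a half-plane -/
def S_GROW : Prop := ∀ (L B : ℝ) (H : ℂ → ℂ), DifferentiableOn ℂ H (HP L) → InjOn H (HP L) →
  ∀ η : ℝ, 0 < η → ∃ x0 : ℝ, x0 ≤ L ∧ ∀ s : ℂ, s.re < x0 → |s.im| ≤ B →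
    Real.exp s.re * ‖H s‖ ≤ η

/-- injective functions in a punctured disc -/
def S_PUNC : Prop := ∀ (R : ℝ) (v : ℂ → ℂ), 0 < R → DifferentiableOn ℂ v (ball 0 R \ {0}) →
  InjOn v (ball 0 R \ {0}) → ∃ E : ℂ → ℂ, DifferentiableOn ℂ E (ball 0 R) ∧
    ((∀ x ∈ ball (0 : ℂ) R, x ≠ 0 → v x = E x) ∨
      (E 0 ≠ 0 ∧ ∀ x ∈ ball (0 : ℂ) R, x ≠ 0 → v x = E x / x))

/-- the coordinate in which a meromorphic function is a power -/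
def S_COORD : Prop := ∀ (χ : ℂ → ℂ) (x : ℂ) (L : ℝ), MeromorphicAt χ x →
  (¬ ∃ c, ∀ᶠ w in 𝓝[≠] x, χ w = c) →
  ∃ (m : ℕ) (L2 L3 : ℝ) (β b : ℂ → ℂ), 0 < m ∧
    DifferentiableOn ℂ β (ball 0 (Real.exp L2)) ∧ DifferentiableOn ℂ b (ball 0 (Real.exp L3)) ∧
    (∀ s ∈ HP L2, s + β (exp s) ∈ HP L) ∧
    (∀ τ ∈ HP L3, τ ∈ HP L ∧ τ + b (exp τ) ∈ HP L2 ∧
      τ + b (exp τ) + β (exp (τ + b (exp τ))) = τ) ∧
    ((∃ s1 : ℂ, ∀ s ∈ HP L2, χ (x + exp (s + β (exp s))) = s1 + exp (m * s)) ∨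
      ∀ s ∈ HP L2, χ (x + exp (s + β (exp s))) = exp (-(m * s)))

/-- local inverses of `ψ` in a half-plane -/
def S_DICH : Prop := ∀ (V : Set ℂ) (ψ H : ℂ → ℂ) (L : ℝ) (m : ℕ), IsOpen V →
  DifferentiableOn ℂ ψ V → 0 < m → DifferentiableOn ℂ H (HP L) → (∀ s ∈ HP L, H s ∈ V) →
  ((∃ s1 : ℂ, ∀ s ∈ HP L, ψ (H s) = s1 + exp (m * s)) ∨ ∀ s ∈ HP L, ψ (H s) = exp (-(m * s))) →
  InjOn H (HP L) ∨ ∃ (j : ℕ) (v : ℂ → ℂ), 0 < j ∧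
    DifferentiableOn ℂ v (ball 0 (Real.exp (m * L / j)) \ {0}) ∧
    InjOn v (ball 0 (Real.exp (m * L / j)) \ {0}) ∧ ∀ s ∈ HP L, H s = v (exp (m * s / j))

end Pool.Agent.E8helper32.SQ
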