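import Pool.Agent.E8helper32.SQ.Loc
import Pool.Agent.E8helper32.SQ.Stm2

/-!
# The local theorem for `ψ ∘ φ = χ`
-/

set_option autoImplicit false

open Complex MeasureTheory Metric Set Filter Topology ComplexConjugate

namespace Pool.Agent.E8helper32.SQ

open Pool.Agent.Results.MP_83fd13_an.BranchSingularities
open Pool.Agent.Y245.SC (seg t_SEG Ess)
open Pool.Agent.Y245.UC (Rf VG)
open Pool.Agent.E8helper32.SA (per per_re exp_add_per log_lift log_eq eqOn_convex branch_norm
  branch_diff branch_congr branch_ball ext_of_slow convex_cont exp_sub_lt Fz_mem Ji JB)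
open Pool.Agent.E8helper32.SL
open Pool.Agent.E8helper32.SP

variable {φ : ℂ → ℂ} {r : ℝ} {w1 : ℂ} {L : ℝ} {G : ℂ → ℂ} {Λ : ℝ} {ℓ : ℂ → ℂ}

/-- slow growth gives the extension -/
theorem loc_slow (hG : P0 φ r w1 L G) {lam : ℝ} (hlam : 0 < lam)
    (hBU : BranchesBlowUp φ r lam) (hNF : NoFiniteIsolatedSingularity φ r)
    (hVG : ∀ (z : ℂ) (f : ℂ → ℂ), Branch φ r z f → ∀ b,
      VG (lam / 4) φ b (1 / conj z) (Rf f))
    (hB : ∀ w ∈ ball w1 (Real.exp L), 1 < ‖w‖)
    (hslow : ∀ η : ℝ, 0 < η → ∃ δ : ℝ, 0 < δ ∧ ∀ τ : ℂ, ‖exp τ‖ < δ → |τ.im| ≤ Real.pi →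
      τ.re < L → ‖exp τ‖ * ‖G τ‖ ≤ η) :
    ∃ E : ℂ → ℂ, DifferentiableOn ℂ E (ball w1 (Real.exp L)) ∧
      ∀ τ : ℂ, τ.re < L → G τ = E (w1 + exp τ) := by
  obtain ⟨ε, E', hε, -, hGE⟩ := slow_ext hG hlam hBU hslow
  refine loc_of_per hG hlam hBU hNF hVG hB (x0 := Real.log ε) fun τ hτ hτ2 => ?_
  rw [hGE τ hτ hτ2, hGE (τ + per 1) (by rw [add_re, per_re, add_zero]; exact hτ)
    (by rw [add_re, per_re, add_zero]; exact hτ2), exp_add_per]

/-- a bound for a holomorphic function in a smaller disc -/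
theorem bd_of_diff {b : ℂ → ℂ} {x : ℝ} (hb : DifferentiableOn ℂ b (ball 0 (Real.exp x))) :
    ∃ M : ℝ, 0 ≤ M ∧ ∀ τ : ℂ, τ.re ≤ x - 1 → ‖b (exp τ)‖ ≤ M := by
  have h1 : Real.exp (x - 1) < Real.exp x := Real.exp_lt_exp.2 (by linarith)
  obtain ⟨M, hM⟩ := (isCompact_closedBall (0 : ℂ) (Real.exp (x - 1))).exists_bound_of_continuousOn
    (hb.continuousOn.mono (closedBall_subset_ball h1))
  refine ⟨M, (norm_nonneg _).trans (hM 0 (mem_closedBall_self (Real.exp_pos _).le)),
    fun τ hτ => hM _ ?_⟩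
  rw [mem_closedBall_zero_iff, norm_exp]
  exact Real.exp_le_exp.2 hτ

/-- **The local theorem.** -/
theorem loc_comm (hGROW : S_GROW) (hPUNC : S_PUNC) (hCOORD : S_COORD) (hDICH : S_DICH)
    (hG : P0 φ r w1 L G) {lam : ℝ} (hlam : 0 < lam)
    (hBU : BranchesBlowUp φ r lam) (hNF : NoFiniteIsolatedSingularity φ r)
    (hVG : ∀ (z : ℂ) (f : ℂ → ℂ), Branch φ r z f → ∀ b,
      VG (lam / 4) φ b (1 / conj z) (Rf f))
    (hB : ∀ w ∈ ball w1 (Real.exp L), 1 < ‖w‖) {V : Set ℂ} {ψ χ : ℂ → ℂ} (hV : IsOpen V)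
    (hψ : DifferentiableOn ℂ ψ V) (hχ : MeromorphicAt χ w1)
    (hχn : ¬ ∃ c, ∀ᶠ w in 𝓝[≠] w1, χ w = c)
    (hGV : ∀ τ ∈ HP L, G τ ∈ V ∧ ψ (G τ) = χ (w1 + exp τ)) :
    ∃ E : ℂ → ℂ, DifferentiableOn ℂ E (ball w1 (Real.exp L)) ∧
      ∀ τ : ℂ, τ.re < L → G τ = E (w1 + exp τ) := by
  obtain ⟨m, L2, L3, β, b, hm, hβ, hb, hs1, hs2, hs3⟩ := hCOORD χ w1 L hχ hχn
  have hmr : (0 : ℝ) < m := by exact_mod_cast hm
  set H : ℂ → ℂ := fun s => G (s + β (exp s)) with hH
  have hexpm : ∀ s ∈ HP L2, exp s ∈ ball (0 : ℂ) (Real.exp L2) := fun s hs => exp_mem hs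
  have hθd : DifferentiableOn ℂ (fun s => s + β (exp s)) (HP L2) :=
    differentiableOn_id.add (hβ.comp differentiable_exp.differentiableOn fun s hs => hexpm s hs)
  have hHd : DifferentiableOn ℂ H (HP L2) :=
    DifferentiableOn.comp (g := G) (f := fun s => s + β (exp s)) hG.hG hθd fun s hs => hs1 s hs
  have hGH : ∀ τ ∈ HP L3, G τ = H (τ + b (exp τ)) := by
    intro τ hτ
    rw [hH]
    simp only
    rw [(hs2 τ hτ).2.2]
  obtain ⟨Mb, hMb0, hMb⟩ := bd_of_diff hb
  have hd := hDICH V ψ H L2 m hV hψ hm hHd (fun s hs => (hGV _ (hs1 s hs)).1) (by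
    rcases hs3 with ⟨s1, h1⟩ | h1
    · left
      refine ⟨s1, fun s hs => ?_⟩
      rw [hH]
      simp only
      rw [(hGV _ (hs1 s hs)).2, h1 s hs]
    · right
      intro s hs
      rw [hH]
      simp only
      rw [(hGV _ (hs1 s hs)).2, h1 s hs])
  -- slow growth of `H` is enough
  have hslowH : (∀ η : ℝ, 0 < η → ∃ x0 : ℝ, x0 ≤ L2 ∧ ∀ s : ℂ, s.re < x0 →
      |s.im| ≤ Real.pi + Mb → Real.exp s.re * ‖H s‖ ≤ η) →
      ∃ E : ℂ → ℂ, DifferentiableOn ℂ E (ball w1 (Real.exp L)) ∧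
      ∀ τ : ℂ, τ.re < L → G τ = E (w1 + exp τ) := by
    intro hsl
    refine loc_slow hG hlam hBU hNF hVG hB fun η hη => ?_
    obtain ⟨x0, hx0, h1⟩ := hsl (η * Real.exp (-Mb)) (by positivity)
    refine ⟨Real.exp (min (L3 - 1) (x0 - Mb)), Real.exp_pos _, fun τ hτ him _ => ?_⟩
    rw [norm_exp, Real.exp_lt_exp] at hτ
    have h2 : τ.re < L3 - 1 := hτ.trans_le (min_le_left _ _)
    have h3 : τ.re < x0 - Mb := hτ.trans_le (min_le_right _ _)
    have h4 : ‖b (exp τ)‖ ≤ Mb := hMb τ h2.le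
    have h5 := (abs_re_le_norm (b (exp τ))).trans h4
    have h6 := (abs_im_le_norm (b (exp τ))).trans h4
    have h7 : τ ∈ HP L3 := by
      show τ.re < L3
      linarith
    have h8 := h1 (τ + b (exp τ)) (by
      rw [add_re]
      linarith [(abs_le.1 h5).2]) (by
      rw [add_im]
      exact (abs_add_le _ _).trans (add_le_add him h6))
    rw [hGH τ h7, norm_exp]
    have h9 : Real.exp τ.re ≤ Real.exp Mb * Real.exp (τ + b (exp τ)).re := by
      rw [← Real.exp_add, Real.exp_le_exp, add_re]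
      linarith [(abs_le.1 h5).1]
    calc Real.exp τ.re * ‖H (τ + b (exp τ))‖
        ≤ Real.exp Mb * Real.exp (τ + b (exp τ)).re * ‖H (τ + b (exp τ))‖ := by gcongr
      _ = Real.exp Mb * (Real.exp (τ + b (exp τ)).re * ‖H (τ + b (exp τ))‖) := by ring
      _ ≤ Real.exp Mb * (η * Real.exp (-Mb)) := by gcongr
      _ = η := by rw [Real.exp_neg]; field_simp
  rcases hd with hinj | ⟨j, v, hj, hvd, hvi, hHv⟩
  · exact hslowH (hGROW L2 _ H hHd hinj)
  have hjr : (0 : ℝ) < j := by exact_mod_cast hj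
  have hjc : (j : ℂ) ≠ 0 := by exact_mod_cast hj.ne'
  obtain ⟨E, hE, hvE⟩ := hPUNC _ v (Real.exp_pos _) hvd hvi
  have hre : ∀ s : ℂ, (m * s / j : ℂ).re = m * s.re / j := by
    intro s
    rw [← ofReal_natCast, ← ofReal_natCast, div_ofReal_re, re_ofReal_mul]
  have hmem : ∀ s ∈ HP L2, exp (m * s / j) ∈ ball (0 : ℂ) (Real.exp (m * L2 / j)) := by
    intro s hs
    have hs' : s.re < L2 := hs
    rw [mem_ball_zero_iff, norm_exp, hre]
    refine Real.exp_lt_exp.2 ?_
    gcongr
  have hR2 : Real.exp (m * (L2 - 1) / j) < Real.exp (m * L2 / j) := by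
    refine Real.exp_lt_exp.2 ?_
    gcongr
    linarith
  obtain ⟨Mx, hMx⟩ := (isCompact_closedBall (0 : ℂ)
    (Real.exp (m * (L2 - 1) / j))).exists_bound_of_continuousOn
    (hE.continuousOn.mono (closedBall_subset_ball hR2))
  have hMx0 : 0 ≤ Mx := (norm_nonneg _).trans (hMx 0 (mem_closedBall_self (Real.exp_pos _).le))
  have hEb : ∀ s : ℂ, s.re < L2 - 1 → ‖E (exp (m * s / j))‖ ≤ Mx := by
    intro s hs
    refine hMx _ ?_
    rw [mem_closedBall_zero_iff, norm_exp, hre]
    refine Real.exp_le_exp.2 ?_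
    gcongr
  rcases hvE with hvE | ⟨hE0, hvE⟩
  · -- bounded
    refine hslowH fun η hη => ?_
    refine ⟨min (L2 - 1) (Real.log (η / (Mx + 1))), (min_le_left _ _).trans (by linarith),
      fun s hs _ => ?_⟩
    have h1 : s.re < L2 - 1 := hs.trans_le (min_le_left _ _)
    have h2 : s.re < Real.log (η / (Mx + 1)) := hs.trans_le (min_le_right _ _)
    have h3 : s ∈ HP L2 := by
      show s.re < L2
      linarith
    have h4 : Real.exp s.re ≤ η / (Mx + 1) := by
      rw [← Real.exp_log (show (0 : ℝ) < η / (Mx + 1) by positivity)]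
      exact Real.exp_le_exp.2 h2.le
    rw [hHv s h3, hvE _ (hmem s h3) (exp_ne_zero _)]
    calc Real.exp s.re * ‖E (exp (m * s / j))‖ ≤ (η / (Mx + 1)) * (Mx + 1) := by
          have := hEb s h1
          have : ‖E (exp (m * s / j))‖ ≤ Mx + 1 := by linarith
          gcongr
      _ = η := by
          have : Mx + 1 ≠ 0 := by positivity
          field_simp
  have hHE : ∀ s ∈ HP L2, H s = E (exp (m * s / j)) / exp (m * s / j) := fun s hs => by
    rw [hHv s hs, hvE _ (hmem s hs) (exp_ne_zero _)]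
  have hHn : ∀ s ∈ HP L2, ‖H s‖ = ‖E (exp (m * s / j))‖ * Real.exp (-(m / j * s.re)) := by
    intro s hs
    rw [hHE s hs, norm_div, norm_exp, hre, div_eq_mul_inv, ← Real.exp_neg]
    congr 3
    ring
  by_cases hdvd : j ∣ m
  · -- periodic
    refine loc_of_per hG hlam hBU hNF hVG hB (x0 := L3) fun τ _ hτ => ?_
    obtain ⟨c, hc⟩ := hdvd
    have hτ' : τ ∈ HP L3 := hτ
    have hτ'' : τ + per 1 ∈ HP L3 := by
      show (τ + per 1).re < L3
      rw [add_re, per_re, add_zero]
      exact hτ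
    have h1 := (hs2 τ hτ').2.1
    have h2 := (hs2 _ hτ'').2.1
    rw [exp_add_per] at h2
    rw [hGH _ hτ'', hGH τ hτ', exp_add_per, hHv _ h2, hHv _ h1]
    congr 1
    have e : (m : ℂ) * (τ + per 1 + b (exp τ)) / j = m * (τ + b (exp τ)) / j +
        c * (2 * Real.pi * I) := by
      rw [per_one, hc]
      push_cast
      field_simp
      ring
    rw [e]
    have := exp_int_mul_two_pi_mul_I (c : ℤ)
    rw [exp_add]
    push_cast at this
    rw [this, mul_one]
  by_cases hmj : m < j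
  · -- slow growth
    refine hslowH fun η hη => ?_
    have hmj' : (m : ℝ) / j < 1 := by
      rw [div_lt_one hjr]
      exact_mod_cast hmj
    have hlim : Tendsto (fun x : ℝ => Mx * Real.exp ((1 - m / j) * x)) atBot (𝓝 0) := by
      have h2 : Tendsto (fun x : ℝ => Real.exp ((1 - m / j) * x)) atBot (𝓝 0) :=
        Real.tendsto_exp_atBot.comp (tendsto_id.const_mul_atBot (by linarith))
      have := h2.const_mul Mx
      rwa [mul_zero] at this
    obtain ⟨x0, hx0⟩ := Filter.eventually_atBot.1 (hlim.eventually (ge_mem_nhds hη))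
    refine ⟨min (L2 - 1) x0, (min_le_left _ _).trans (by linarith), fun s hs _ => ?_⟩
    have h1 : s.re < L2 - 1 := hs.trans_le (min_le_left _ _)
    have h2 : s.re < x0 := hs.trans_le (min_le_right _ _)
    have h3 : s ∈ HP L2 := by
      show s.re < L2
      linarith
    rw [hHn s h3]
    calc Real.exp s.re * (‖E (exp (m * s / j))‖ * Real.exp (-(m / j * s.re)))
        = ‖E (exp (m * s / j))‖ * (Real.exp s.re * Real.exp (-(m / j * s.re))) := by ring
      _ = ‖E (exp (m * s / j))‖ * Real.exp ((1 - m / j) * s.re) := by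
          rw [← Real.exp_add]
          congr 2
          ring
      _ ≤ Mx * Real.exp ((1 - m / j) * s.re) := by
          have := hEb s h1
          gcongr
      _ ≤ η := hx0 _ h2.le
  -- large exponents are impossible
  exfalso
  have hne : m ≠ j := by
    rintro rfl
    exact hdvd dvd_rfl
  have hgt : j < m := by omega
  have hj2 : 2 ≤ j := by
    by_contra hcon
    have : j = 1 := by omega
    exact hdvd (this ▸ one_dvd m)
  have hmj1 : 1 < (m : ℝ) / j := (one_lt_div hjr).2 (by exact_mod_cast hgt)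
  obtain ⟨Λ, ℓ, hC⟩ := exists_co hG.hD hG.hw1 L
  have ha : 0 < lam / 4 := by positivity
  have hJU := jboundU hG hC ha hVG
  have hTd := Ts_diff hC hG.hG
  obtain ⟨δ, B, hδ, hinv⟩ := inv_co' (G := G) hG.hD hG.hw1 hC
  -- periodicity of `G`
  have hperj : per j = (j : ℂ) * (2 * Real.pi * I) := rfl
  have hexpj : ∀ τ : ℂ, exp (τ + per j) = exp τ := by
    intro τ
    rw [hperj, exp_add]
    have := exp_int_mul_two_pi_mul_I (j : ℤ)
    push_cast at this
    rw [this, mul_one]
  have hGj0 : ∀ τ ∈ HP L3, G (τ + per j) = G τ := by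
    intro τ hτ
    have hτ'' : τ + per j ∈ HP L3 := by
      show (τ + per j).re < L3
      rw [add_re, per_re, add_zero]
      exact hτ
    have h1 := (hs2 τ hτ).2.1
    have h2 := (hs2 _ hτ'').2.1
    rw [hexpj] at h2
    rw [hGH _ hτ'', hGH τ hτ, hexpj, hHv _ h2, hHv _ h1]
    congr 1
    have e : (m : ℂ) * (τ + per j + b (exp τ)) / j = m * (τ + b (exp τ)) / j +
        m * (2 * Real.pi * I) := by
      rw [hperj]
      field_simp
      ring
    rw [e]
    have := exp_int_mul_two_pi_mul_I (m : ℤ)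
    rw [exp_add]
    push_cast at this
    rw [this, mul_one]
  have hper : ∀ τ ∈ HP L, τ + per j ∈ HP L := by
    intro τ hτ
    show (τ + per j).re < L
    rw [add_re, per_re, add_zero]
    exact hτ
  have hGj : ∀ τ ∈ HP L, G (τ + per j) = G τ := by
    have hGs : DifferentiableOn ℂ (fun τ => G (τ + per j)) (HP L) :=
      hG.hG.comp (differentiableOn_id.add_const _) fun τ hτ => hper τ hτ
    have hL3 : ((L3 - 1 : ℝ) : ℂ) ∈ HP L3 := by
      show ((L3 - 1 : ℝ) : ℂ).re < L3
      rw [ofReal_re]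
      linarith
    have h1 := eqOn_convex (HP_conv L) (HP_open L) hGs hG.hG (hs2 _ hL3).1 (by
      filter_upwards [(HP_open L3).mem_nhds hL3] with τ hτ
      exact hGj0 τ hτ)
    exact fun τ hτ => h1 hτ
  have hturn : ∀ σ : ℂ, σ.re < Λ → Ts G ℓ (σ + per j) = Ts G ℓ σ := by
    intro σ hσ
    unfold Ts
    rw [hexpj]
    have hcp : conj (per j) = -per j := by
      rw [hperj]
      simp only [map_mul, conj_natCast, map_ofNat, conj_ofReal, conj_I]
      ring
    have h1 : conj (σ + per j + ℓ (exp σ)) = conj (σ + ℓ (exp σ)) - per j := by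
      rw [map_add, map_add, hcp, map_add]
      ring
    rw [h1]
    have h2 : conj (σ + ℓ (exp σ)) - per j ∈ HP L := by
      show (conj (σ + ℓ (exp σ)) - per j).re < L
      rw [sub_re, per_re, sub_zero, conj_re]
      exact hC.re_lt hσ
    have h3 := hGj _ h2
    rw [sub_add_cancel] at h3
    rw [h3]
  obtain ⟨V1, hV1d, hTV⟩ := repq hj hTd hturn
  have hmem1 : ∀ σ : ℂ, σ.re < Λ → exp (σ / j) ∈ ball (0 : ℂ) (Real.exp (Λ / j)) := by
    intro σ hσ
    rw [mem_ball_zero_iff, norm_exp]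
    refine Real.exp_lt_exp.2 ?_
    rw [← ofReal_natCast, div_ofReal_re, div_lt_div_iff_of_pos_right hjr]
    exact hσ
  rcases Pool.Agent.Y953.ES.tri 0 (Real.exp (Λ / j)) V1 (Real.exp_pos _) hV1d with
    hess | ⟨M, E1, hE1, hM, hVE⟩
  · exact partEq (cc := 0) hj2 ha hJU hTd hess fun σ hσ => by
      rw [zero_mul, add_zero]; exact hTV σ hσ
  have hTE : ∀ σ : ℂ, σ.re < Λ → Ts G ℓ σ = E1 (exp (σ / j)) / exp (σ / j) ^ M := by
    intro σ hσ
    rw [hTV σ hσ, hVE _ (hmem1 σ hσ) (exp_ne_zero _), sub_zero]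
  rcases lt_or_ge j M with hgtM | hleM
  · refine partCL (q := j) (μ := (M : ℝ) / j) (E := E1) (cc := 0) ha hj
      ((one_lt_div hjr).2 (by exact_mod_cast hgtM)) hJU.jb hTd hE1 (hM.resolve_left (by omega))
      fun σ hσ => ?_
    rw [hTE σ hσ, zero_mul, add_zero, div_eq_mul_inv, exp_neg, ← exp_nat_mul]
    congr 3
    push_cast
    field_simp
  · -- the growth of `G` contradicts `M ≤ j`
    have hl2 : 0 < Real.log 2 := Real.log_pos (by norm_num)
    have hR3 : Real.exp ((Λ - Real.log 2) / j) < Real.exp (Λ / j) := by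
      refine Real.exp_lt_exp.2 ?_
      rw [div_lt_div_iff_of_pos_right hjr]
      linarith
    obtain ⟨My, hMy⟩ := (isCompact_closedBall (0 : ℂ)
      (Real.exp ((Λ - Real.log 2) / j))).exists_bound_of_continuousOn
      (hE1.continuousOn.mono (closedBall_subset_ball hR3))
    have hMy0 : 0 ≤ My := (norm_nonneg _).trans (hMy 0 (mem_closedBall_self (Real.exp_pos _).le))
    have hup : ∀ τ : ℂ, ‖exp τ‖ < δ → τ.re < B → ‖G τ‖ ≤ My * Real.exp (B - τ.re) := by
      intro τ hτ hτB
      obtain ⟨σ, h1, h2, h3, h4⟩ := hinv τ hτ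
      have h5 : σ.re ≤ Λ - Real.log 2 := by
        rw [norm_exp] at h3
        have h6 := Real.log_le_log (Real.exp_pos _) h3
        rwa [Real.log_exp, Real.log_div (Real.exp_pos _).ne' (by norm_num), Real.log_exp] at h6
      have h6 : ‖G τ‖ = ‖Ts G ℓ σ‖ := by rw [h2, norm_conj]
      have h8 : (σ / j : ℂ).re = σ.re / j := by rw [← ofReal_natCast, div_ofReal_re]
      rw [h6, hTE σ h1, norm_div, norm_pow, norm_exp, ← Real.exp_nat_mul, h8, div_eq_mul_inv,
        ← Real.exp_neg]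
      have h9 : ‖E1 (exp (σ / j))‖ ≤ My := by
        refine hMy _ ?_
        rw [mem_closedBall_zero_iff, norm_exp, h8]
        exact Real.exp_le_exp.2 (by gcongr)
      have h10 : Real.exp (-(M * (σ.re / j))) ≤ Real.exp (B - τ.re) := by
        refine Real.exp_le_exp.2 ?_
        have hMj : (M : ℝ) / j ≤ 1 := by
          rw [div_le_one hjr]
          exact_mod_cast hleM
        have hMj0 : 0 ≤ (M : ℝ) / j := by positivity
        have e : (M : ℝ) * (σ.re / j) = M / j * σ.re := by ring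
        rw [e]
        rcases le_or_gt 0 σ.re with h0 | h0
        · have : 0 ≤ (M : ℝ) / j * σ.re := by positivity
          linarith
        · have : σ.re ≤ M / j * σ.re := by nlinarith
          linarith
      gcongr
    -- the lower bound
    have hcont : ContinuousAt E 0 := (hE.differentiableAt (isOpen_ball.mem_nhds
      (mem_ball_self (Real.exp_pos _)))).continuousAt
    have ht : Tendsto (fun x : ℝ => ‖E (exp (m * ((x : ℂ) + b (exp x)) / j))‖) atBot
        (𝓝 ‖E 0‖) := by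
      have h1 : Tendsto (fun x : ℝ => exp (m * ((x : ℂ) + b (exp x)) / j)) atBot (𝓝 0) := by
        rw [tendsto_zero_iff_norm_tendsto_zero]
        have h2 : Tendsto (fun x : ℝ => Real.exp (m / j * (x + Mb))) atBot (𝓝 0) :=
          Real.tendsto_exp_atBot.comp ((tendsto_atBot_add_const_right _ _ tendsto_id).const_mul_atBot
            (by positivity))
        refine squeeze_zero' (Eventually.of_forall fun x => norm_nonneg _) ?_ h2
        filter_upwards [eventually_lt_atBot (L3 - 1)] with x hx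
        rw [norm_exp, hre]
        refine Real.exp_le_exp.2 ?_
        have h4 : ‖b (exp x)‖ ≤ Mb := hMb x (by rw [ofReal_re]; exact hx.le)
        have h5 := (abs_re_le_norm (b (exp x))).trans h4
        rw [add_re, ofReal_re]
        have h6 : x + (b (exp x)).re ≤ x + Mb := by linarith [(abs_le.1 h5).2]
        calc (m : ℝ) * (x + (b (exp x)).re) / j = m / j * (x + (b (exp x)).re) := by ring
          _ ≤ m / j * (x + Mb) := by gcongr
      exact (hcont.tendsto.comp h1).norm
    have hE0n : 0 < ‖E 0‖ := norm_pos_iff.2 hE0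
    have hlim : Tendsto (fun x : ℝ => My * Real.exp (B + m / j * Mb) *
        Real.exp ((m / j - 1) * x)) atBot (𝓝 0) := by
      have h2 : Tendsto (fun x : ℝ => Real.exp ((m / j - 1) * x)) atBot (𝓝 0) :=
        Real.tendsto_exp_atBot.comp (tendsto_id.const_mul_atBot (by linarith))
      have := h2.const_mul (My * Real.exp (B + m / j * Mb))
      rwa [mul_zero] at this
    have hev1 := ht.eventually (lt_mem_nhds (show ‖E 0‖ / 2 < ‖E 0‖ by linarith))
    have hev2 := hlim.eventually (gt_mem_nhds (show (0 : ℝ) < ‖E 0‖ / 2 by positivity))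
    obtain ⟨x, hx1, hx2, hx3, hx4, hx5⟩ := (hev1.and (hev2.and ((eventually_lt_atBot (L3 - 1)).and
      ((eventually_lt_atBot B).and (eventually_lt_atBot (Real.log δ)))))).exists
    have h7 : (x : ℂ) ∈ HP L3 := by
      show (x : ℂ).re < L3
      rw [ofReal_re]
      linarith
    have h4 : ‖b (exp x)‖ ≤ Mb := hMb x (by rw [ofReal_re]; exact hx3.le)
    have h5 := (abs_re_le_norm (b (exp x))).trans h4
    have h8 := hup x (by
      rw [norm_exp, ofReal_re, ← Real.lt_log_iff_exp_lt hδ]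
      exact hx5) (by rw [ofReal_re]; exact hx4)
    rw [hGH _ h7, hHn _ (hs2 _ h7).2.1, ofReal_re, add_re, ofReal_re] at h8
    have h9 : Real.exp (-(m / j * (x + Mb))) ≤ Real.exp (-(m / j * (x + (b (exp x)).re))) := by
      refine Real.exp_le_exp.2 ?_
      have h10 : x + (b (exp x)).re ≤ x + Mb := by linarith [(abs_le.1 h5).2]
      have : (m : ℝ) / j * (x + (b (exp x)).re) ≤ m / j * (x + Mb) := by gcongr
      linarith
    have h10 : ‖E 0‖ / 2 * Real.exp (-(m / j * (x + Mb))) ≤ My * Real.exp (B - x) := by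
      refine le_trans ?_ h8
      gcongr
    have h11 : ‖E 0‖ / 2 ≤ My * Real.exp (B - x) * Real.exp (m / j * (x + Mb)) := by
      calc ‖E 0‖ / 2 = ‖E 0‖ / 2 * Real.exp (-(m / j * (x + Mb))) *
            Real.exp (m / j * (x + Mb)) := by
            rw [mul_assoc, ← Real.exp_add, neg_add_cancel, Real.exp_zero, mul_one]
        _ ≤ _ := by gcongr
    have h12 : My * Real.exp (B - x) * Real.exp (m / j * (x + Mb)) =
        My * Real.exp (B + m / j * Mb) * Real.exp ((m / j - 1) * x) := by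
      rw [mul_assoc, mul_assoc, ← Real.exp_add, ← Real.exp_add]
      congr 2
      ring
    rw [h12] at h11
    linarith

end Pool.Agent.E8helper32.SQ
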