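import Pool.Agent.E8helper32.SA.Convex

/-!
# Continuation in convex sets, with radii depending on the point
-/

set_option autoImplicit false

open Complex Metric Set Filter Topology

namespace Pool.Agent.E8helper32.SQ

open Pool.Agent.E8helper32.SA (eqOn_convex convex_cont)

theorem cont {U : Set ℂ} (hU : Convex ℝ U) (hUo : IsOpen U) {x0 : ℂ} (hx0 : x0 ∈ U)
    (P : ℂ → (ℂ → ℂ) → Prop) (hP : ∀ x f g, P x f → f =ᶠ[𝓝 x] g → P x g)
    (hE : ∀ y ∈ U, ∃ s : ℝ, 0 < s ∧ ∀ x ∈ ball y s, x ∈ U → ∀ f, P x f →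
      ∃ E : ℂ → ℂ, DifferentiableOn ℂ E (ball y s) ∧ E =ᶠ[𝓝 x] f ∧ ∀ t ∈ ball y s, t ∈ U → P t E)
    {f : ℂ → ℂ} (hf : P x0 f) :
    ∃ G : ℂ → ℂ, DifferentiableOn ℂ G U ∧ G =ᶠ[𝓝 x0] f ∧ ∀ y ∈ U, P y G := by
  classical
  choose! s hs0 hs using hE
  have key : ∀ x1 ∈ U, ∃ (W : Set ℂ) (G : ℂ → ℂ), Convex ℝ W ∧ IsOpen W ∧ x0 ∈ W ∧ x1 ∈ W ∧
      W ⊆ U ∧ DifferentiableOn ℂ G W ∧ G =ᶠ[𝓝 x0] f ∧ ∀ y ∈ W, P y G := by
    intro x1 hx1
    have hKU : segment ℝ x0 x1 ⊆ U := hU.segment_subset hx0 hx1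
    have hKc : IsCompact (segment ℝ x0 x1) := by
      rw [← Path.range_segment]
      exact isCompact_range (Path.continuous _)
    obtain ⟨δ, hδ, hleb⟩ := lebesgue_number_lemma_of_metric (c := fun y : U => ball (y : ℂ) (s y) ∩ U)
      hKc (fun y => isOpen_ball.inter hUo) (fun p hp => mem_iUnion.2
        ⟨⟨p, hKU hp⟩, mem_ball_self (hs0 p (hKU hp)), hKU hp⟩)
    have hball : ∀ q ∈ thickening (δ / 2) (segment ℝ x0 x1), ∃ y ∈ U,
        ball q (δ / 2) ⊆ ball y (s y) ∩ U := by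
      intro q hq
      obtain ⟨p, hp, hqp⟩ := mem_thickening_iff.1 hq
      obtain ⟨⟨y, hy⟩, h1⟩ := hleb p hp
      refine ⟨y, hy, fun t ht => h1 ?_⟩
      rw [mem_ball] at ht ⊢
      calc dist t p ≤ dist t q + dist q p := dist_triangle _ _ _
        _ < δ := by linarith
    have hWU : thickening (δ / 2) (segment ℝ x0 x1) ⊆ U := by
      intro q hq
      obtain ⟨y, -, h1⟩ := hball q hq
      exact (h1 (mem_ball_self (by positivity))).2
    have h0W : x0 ∈ thickening (δ / 2) (segment ℝ x0 x1) :=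
      self_subset_thickening (by positivity) _ (left_mem_segment _ _ _)
    have h1W : x1 ∈ thickening (δ / 2) (segment ℝ x0 x1) :=
      self_subset_thickening (by positivity) _ (right_mem_segment _ _ _)
    obtain ⟨G, hG1, hG2, hG3⟩ := convex_cont ((convex_segment x0 x1).thickening (δ / 2))
      isOpen_thickening h0W (s := δ / 2) (by positivity) P hP (by
        intro x hx F hF
        obtain ⟨y, hy, h1⟩ := hball x hx
        obtain ⟨E, hE1, hE2, hE3⟩ := hs y hy x (h1 (mem_ball_self (by positivity))).1 (hWU hx) F hF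
        exact ⟨E, hE1.mono fun t ht => (h1 ht).1, hE2, fun t ht ht2 => hE3 t (h1 ht).1 (hWU ht2)⟩) hf
    exact ⟨_, G, (convex_segment x0 x1).thickening (δ / 2), isOpen_thickening, h0W, h1W, hWU,
      hG1, hG2, hG3⟩
  choose! W G hWc hWo hW0 hW1 hWU hG1 hG2 hG3 using key
  have hgl : ∀ x1 ∈ U, ∀ x ∈ W x1, G x x = G x1 x := by
    intro x1 hx1 x hx
    have hxU := hWU x1 hx1 hx
    exact eqOn_convex ((hWc x hxU).inter (hWc x1 hx1)) ((hWo x hxU).inter (hWo x1 hx1))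
      ((hG1 x hxU).mono inter_subset_left) ((hG1 x1 hx1).mono inter_subset_right)
      ⟨hW0 x hxU, hW0 x1 hx1⟩ ((hG2 x hxU).trans (hG2 x1 hx1).symm) ⟨hW1 x hxU, hx⟩
  have hev : ∀ x1 ∈ U, ∀ x2 ∈ W x1, (fun x => G x x) =ᶠ[𝓝 x2] G x1 := by
    intro x1 hx1 x2 hx2
    filter_upwards [(hWo x1 hx1).mem_nhds hx2] with x hx
    exact hgl x1 hx1 x hx
  refine ⟨fun x => G x x, fun x1 hx1 => ?_, ?_, fun y hy => ?_⟩
  · have h1 : DifferentiableAt ℂ (G x1) x1 :=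
      (hG1 x1 hx1).differentiableAt ((hWo x1 hx1).mem_nhds (hW1 x1 hx1))
    exact (h1.congr_of_eventuallyEq (hev x1 hx1 x1 (hW1 x1 hx1))).differentiableWithinAt
  · exact (hev x0 hx0 x0 (hW1 x0 hx0)).trans (hG2 x0 hx0)
  · exact hP y _ _ (hG3 y hy y (hW1 y hy)) (hev y hy y (hW1 y hy)).symm

end Pool.Agent.E8helper32.SQ
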