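import Pool.Agent.E8helper32.SQ.Gen
import Pool.Agent.E8helper32.SQ.Cm

/-!
# Branches `g` with `ψ ∘ g = χ`
-/

set_option autoImplicit false

open Complex MeasureTheory Metric Set Filter Topology ComplexConjugate

namespace Pool.Agent.E8helper32.SQ

open Pool.Agent.Results.MP_83fd13_an.BranchSingularities
open Pool.Agent.E8helper32.SA (eqOn_convex)
open Pool.Agent.Y245.UC (Rf VG)

/-- `g` satisfies `ψ ∘ g = χ` near `z`, off the complement of `U` and where `g` lies in `V` -/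
structure Cr (V : Set ℂ) (ψ χ : ℂ → ℂ) (U : Set ℂ) (z : ℂ) (g : ℂ → ℂ) : Prop where
  hd : ∀ᶠ w in 𝓝 z, DifferentiableAt ℂ g w
  hn : ∃ᶠ w in 𝓝 z, deriv g w ≠ 0
  hs : ∀ᶠ w in 𝓝 z, w ∈ U → g w ∈ V → ψ (g w) = χ w

variable {V U : Set ℂ} {ψ χ : ℂ → ℂ}

theorem Cr.congr {z : ℂ} {f g : ℂ → ℂ} (h : Cr V ψ χ U z f) (hfg : f =ᶠ[𝓝 z] g) :
    Cr V ψ χ U z g := by
  have h1 : ∀ᶠ y in 𝓝 z, f =ᶠ[𝓝 y] g := eventually_eventually_nhds.2 hfg
  refine ⟨?_, ?_, ?_⟩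
  · filter_upwards [h.hd, h1] with w h2 h3
    exact h2.congr_of_eventuallyEq h3.symm
  · exact (h.hn.and_eventually h1).mono fun w hw => by rw [← hw.2.deriv_eq]; exact hw.1
  · filter_upwards [h.hs, hfg] with w h2 h3 h4 h5
    rw [← h3] at h5 ⊢
    exact h2 h4 h5

/-- analyticity from differentiability nearby -/
theorem Cr.an {z : ℂ} {g : ℂ → ℂ} (h : Cr V ψ χ U z g) : AnalyticAt ℂ g z := by
  rw [analyticAt_iff_eventually_differentiableAt]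
  exact h.hd

/-- propagation in discs -/
theorem Cr.prop (hCONN : S_CONN) (hCNT : S_CNT) (hV : IsOpen V) (hVc : Vᶜ.Countable)
    (hψ : DifferentiableOn ℂ ψ V) {c : ℂ} {ρ : ℝ}
    (hA : (ball c ρ \ U).Countable) (hχ : ∀ w ∈ U, AnalyticAt ℂ χ w) {E g : ℂ → ℂ}
    (hE : DifferentiableOn ℂ E (ball c ρ)) {z : ℂ} (hz : z ∈ ball c ρ) (hEg : E =ᶠ[𝓝 z] g)
    (h : Cr V ψ χ U z g) {z' : ℂ} (hz' : z' ∈ ball c ρ) : Cr V ψ χ U z' E := by
  have h' := h.congr hEg.symm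
  have hEa : AnalyticOnNhd ℂ E (ball c ρ) := hE.analyticOnNhd isOpen_ball
  have hdE : DifferentiableOn ℂ (deriv E) (ball c ρ) := hE.deriv isOpen_ball
  obtain ⟨w0, hw0, hw0b⟩ := (h'.hn.and_eventually (isOpen_ball.mem_nhds hz)).exists
  have hZ : {w | w ∈ ball c ρ ∧ E w ∉ V}.Countable := by
    have h1 : {w | w ∈ ball c ρ ∧ E w ∉ V} ⊆ ⋃ p ∈ Vᶜ, {w | w ∈ ball c ρ ∧ E w - p = 0} := by
      rintro w ⟨h2, h3⟩
      rw [mem_iUnion₂]
      exact ⟨E w, h3, h2, sub_self _⟩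
    refine (hVc.biUnion fun p _ => hCNT c ρ (fun w => E w - p) (hE.sub_const _) ?_).mono h1
    by_contra hcon
    push Not at hcon
    apply hw0
    have h2 : E =ᶠ[𝓝 w0] fun _ => p := by
      filter_upwards [isOpen_ball.mem_nhds hw0b] with w hw
      exact sub_eq_zero.1 (hcon w hw)
    rw [h2.deriv_eq, deriv_const]
  -- the good set
  set D : Set ℂ := ball c ρ \ ((ball c ρ \ U) ∪ {w | w ∈ ball c ρ ∧ E w ∉ V}) with hD
  have hDc : IsPreconnected D := hCONN c ρ _ (hA.union hZ)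
  have hDm : ∀ w, w ∈ D ↔ w ∈ ball c ρ ∧ w ∈ U ∧ E w ∈ V := by
    intro w
    rw [hD]
    constructor
    · rintro ⟨h1, h2⟩
      rw [mem_union, not_or] at h2
      refine ⟨h1, ?_, ?_⟩
      · by_contra h3
        exact h2.1 ⟨h1, h3⟩
      · by_contra h3
        exact h2.2 ⟨h1, h3⟩
    · rintro ⟨h1, h2, h3⟩
      refine ⟨h1, ?_⟩
      rintro (h4 | h4)
      · exact h4.2 h2
      · exact h4.2 h3
  have hSa : AnalyticOnNhd ℂ (fun w => ψ (E w)) D := fun w hw =>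
    AnalyticAt.comp (g := ψ) (f := E) (hψ.analyticAt (hV.mem_nhds ((hDm w).1 hw).2.2))
      (hEa w ((hDm w).1 hw).1)
  have hQa : AnalyticOnNhd ℂ χ D := fun w hw => hχ w ((hDm w).1 hw).2.1
  -- a point of agreement
  obtain ⟨ε, hε, h1⟩ := Metric.eventually_nhds_iff_ball.1 (h'.hs.and (isOpen_ball.mem_nhds hz))
  obtain ⟨z1, hz1, hz1D⟩ : ∃ z1 ∈ ball z ε, z1 ∈ D := by
    obtain ⟨z1, h2, h3⟩ := ((hA.union hZ).dense_compl ℝ).inter_open_nonempty (ball z ε)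
      isOpen_ball ⟨z, mem_ball_self hε⟩
    exact ⟨z1, h2, (h1 z1 h2).2, h3⟩
  have hfr : ∃ᶠ v in 𝓝[≠] z1, ψ (E v) = χ v := by
    obtain ⟨-, h3, h4⟩ := (hDm z1).1 hz1D
    have h5 : ∀ᶠ v in 𝓝 z1, E v ∈ V :=
      (hEa z1 ((hDm z1).1 hz1D).1).continuousAt.eventually (hV.mem_nhds h4)
    have h8 : ∀ᶠ v in 𝓝 z1, v ∈ U → ψ (E v) = χ v := by
      filter_upwards [isOpen_ball.mem_nhds hz1, h5] with v h6 h7 h8
      exact (h1 v h6).1 h8 h7
    obtain ⟨ε', hε', h9⟩ := Metric.eventually_nhds_iff_ball.1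
      (h8.and (isOpen_ball.mem_nhds ((hDm z1).1 hz1D).1))
    rw [Filter.frequently_iff]
    intro W hW
    obtain ⟨O, hO, hzO, hOW⟩ := mem_nhdsWithin.1 hW
    obtain ⟨v, hv1, hv2⟩ := ((hA.union (countable_singleton z1)).dense_compl
      ℝ).inter_open_nonempty (O ∩ ball z1 ε') (hO.inter isOpen_ball)
      ⟨z1, hzO, mem_ball_self hε'⟩
    rw [mem_compl_iff, mem_union, not_or] at hv2
    refine ⟨v, hOW ⟨hv1.1, fun h => hv2.2 h⟩, (h9 v hv1.2).1 ?_⟩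
    by_contra h10
    exact hv2.1 ⟨(h9 v hv1.2).2, h10⟩
  have heq := hSa.eqOn_of_preconnected_of_frequently_eq hQa hDc hz1D hfr
  refine ⟨?_, ?_, ?_⟩
  · filter_upwards [isOpen_ball.mem_nhds hz'] with w hw
    exact hE.differentiableAt (isOpen_ball.mem_nhds hw)
  · by_contra hcon
    rw [not_frequently] at hcon
    have h2 : deriv E =ᶠ[𝓝 z'] fun _ => (0 : ℂ) := hcon.mono fun w hw => not_not.1 hw
    have h3 := eqOn_convex (convex_ball c ρ) isOpen_ball hdE (differentiableOn_const (0 : ℂ)) hz' h2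
    exact hw0 (h3 hw0b)
  · filter_upwards [isOpen_ball.mem_nhds hz'] with w hw h2 h3
    exact heq ((hDm w).2 ⟨hw, h2, h3⟩)

/-- the class -/
theorem cls_cr (hCONN : S_CONN) (hCNT : S_CNT) (hV : IsOpen V) (hVc : Vᶜ.Countable)
    (hψ : DifferentiableOn ℂ ψ V) {B : Set ℂ} (hA : (B \ U).Countable)
    (hχ : ∀ w ∈ U, AnalyticAt ℂ χ w) : Cls B (Cr V ψ χ U) where
  cg := fun _ _ _ h hfg => h.congr hfg
  hd := fun _ _ h => h.hd
  pr := fun _ _ hs _ _ hE _ hz hEg h _ hz' =>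
    h.prop hCONN hCNT hV hVc hψ (hA.mono (sdiff_subset_sdiff_left hs)) hχ hE hz hEg hz'

/-- values -/
theorem Cr.mem (hunb : ∀ p, p ∉ V → ∀ ε : ℝ, 0 < ε → ∀ C : ℝ, ∃ z ∈ ball p ε, z ∈ V ∧ C < ‖ψ z‖)
    (hUo : IsOpen U) (hχ : ∀ w ∈ U, AnalyticAt ℂ χ w) {z : ℂ} {g : ℂ → ℂ}
    (h : Cr V ψ χ U z g) (hz : z ∈ U) : g z ∈ V ∧ ψ (g z) = χ z := by
  have hgV : g z ∈ V := by
    by_contra hp
    have hb : ∀ᶠ w in 𝓝 z, ‖χ w‖ < ‖χ z‖ + 1 :=
      (hχ z hz).continuousAt.norm.eventually (gt_mem_nhds (by linarith))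
    rcases h.an.eventually_constant_or_nhds_le_map_nhds with h1 | h1
    · refine h.hn ?_
      filter_upwards [eventually_eventually_nhds.2 h1] with w hw
      have h2 : g =ᶠ[𝓝 w] fun _ => g z := hw
      rw [not_not, h2.deriv_eq, deriv_const]
    · have h2 : g '' {w | (w ∈ U → g w ∈ V → ψ (g w) = χ w) ∧ ‖χ w‖ < ‖χ z‖ + 1 ∧ w ∈ U} ∈
          𝓝 (g z) := h1 (image_mem_map (by
        filter_upwards [h.hs, hb, hUo.mem_nhds hz] with w h3 h4 h5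
        exact ⟨h3, h4, h5⟩))
      obtain ⟨ε, hε, hs⟩ := Metric.mem_nhds_iff.1 h2
      obtain ⟨y, hy, hyV, hC⟩ := hunb (g z) hp ε hε (‖χ z‖ + 1)
      obtain ⟨w, ⟨h3, h4, h5⟩, hwy⟩ := hs hy
      rw [← hwy] at hyV hC
      rw [h3 h5 hyV] at hC
      linarith
  refine ⟨hgV, ?_⟩
  exact h.hs.self_of_nhds hz hgV

/-- a regular value -/
def RegV (V : Set ℂ) (ψ : ℂ → ℂ) (s : ℂ) : Prop :=
  ∃ δ : ℝ, 0 < δ ∧ ∀ z ∈ ball s δ, ∀ g : ℂ → ℂ,
    (∀ᶠ w in 𝓝 z, DifferentiableAt ℂ g w ∧ g w ∈ V ∧ ψ (g w) = w) →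
    ∃ E : ℂ → ℂ, DifferentiableOn ℂ E (ball s δ) ∧ E =ᶠ[𝓝 z] g

variable {φ : ℂ → ℂ} {r : ℝ}

/-- regular points -/
theorem good_cr {B : Set ℂ} (hC : Cls B (Cr V ψ χ U))
    (hunb : ∀ p, p ∉ V → ∀ ε : ℝ, 0 < ε → ∀ C : ℝ, ∃ z ∈ ball p ε, z ∈ V ∧ C < ‖ψ z‖)
    (hUo : IsOpen U) (hBo : IsOpen B) (hχ : ∀ w ∈ U, AnalyticAt ℂ χ w)
    {y : ℂ} (hyB : y ∈ B) (hyU : y ∈ U) (hχn : ∀ x ∈ B, ¬ ∃ c, ∀ᶠ w in 𝓝[≠] x, χ w = c)
    (hreg : RegV V ψ (χ y)) : GoodP φ r B (Cr V ψ χ U) y := by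
  obtain ⟨δ1, hδ1, hreg⟩ := hreg
  have hUe : ∀ᶠ w in 𝓝 y, w ∈ U := hUo.mem_nhds hyU
  have hBe : ∀ᶠ w in 𝓝 y, w ∈ B := hBo.mem_nhds hyB
  have hχe : ∀ᶠ w in 𝓝 y, χ w ∈ ball (χ y) δ1 :=
    (hχ y hyU).continuousAt.eventually (isOpen_ball.mem_nhds (mem_ball_self hδ1))
  obtain ⟨δ, hδ, hs⟩ := Metric.eventually_nhds_iff_ball.1 (hχe.and (hUe.and hBe))
  refine ⟨δ, hδ, fun w hw => (hs w hw).2.2, fun z hz g hg hS => ?_⟩
  obtain ⟨ε, hε, hεs⟩ := Metric.eventually_nhds_iff_ball.1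
    (hS.hd.and (isOpen_ball.mem_nhds hz))
  have hgd : DifferentiableOn ℂ g (ball z ε) := fun w hw =>
    (hεs w hw).1.differentiableWithinAt
  have hεδ : ball z ε ⊆ ball y δ := fun w hw => (hεs w hw).2
  have hSa : ∀ z' ∈ ball z ε, Cr V ψ χ U z' g := fun z' hz' =>
    hC.pr z ε (fun w hw => (hs w (hεδ hw)).2.2) g g hgd z (mem_ball_self hε)
      (EventuallyEq.refl _ _) hS z' hz'
  -- a point with non-zero derivative
  obtain ⟨z1, hz1, hz1n⟩ : ∃ z1 ∈ ball z ε, deriv χ z1 ≠ 0 := by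
    by_contra hcon
    push Not at hcon
    apply hχn z (hs z hz).2.2
    refine ⟨χ z, ?_⟩
    have h1 : ∀ w ∈ ball z ε, χ w = χ z := fun w hw =>
      (convex_ball z ε).is_const_of_fderivWithin_eq_zero (𝕜 := ℂ)
        (fun v hv => ((hχ v (hs v (hεδ hv)).2.1).differentiableAt).differentiableWithinAt)
        (fun v hv => by
          rw [fderivWithin_of_isOpen isOpen_ball hv]
          ext
          simp [hcon v hv]) hw (mem_ball_self hε)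
    filter_upwards [mem_nhdsWithin_of_mem_nhds (isOpen_ball.mem_nhds (mem_ball_self hε))]
      with w hw
    exact h1 w hw
  have hz1δ := hεδ hz1
  have hz1U := (hs z1 hz1δ).2.1
  have hχa := hχ z1 hz1U
  set ι : ℂ → ℂ := hχa.hasStrictDerivAt.localInverse _ _ _ hz1n with hι
  have hιa : AnalyticAt ℂ ι (χ z1) := hχa.analyticAt_localInverse hz1n
  have hι1 : ι (χ z1) = z1 := HasStrictFDerivAt.localInverse_apply_image ..
  have hιr : ∀ᶠ w in 𝓝 (χ z1), χ (ι w) = w :=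
    HasStrictDerivAt.eventually_right_inverse hχa.hasStrictDerivAt hz1n
  have hιl : ∀ᶠ w in 𝓝 z1, ι (χ w) = w :=
    HasStrictDerivAt.eventually_left_inverse hχa.hasStrictDerivAt hz1n
  have hιm : ∀ᶠ w in 𝓝 (χ z1), ι w ∈ ball z ε :=
    hιa.continuousAt.eventually (by rw [hι1]; exact isOpen_ball.mem_nhds hz1)
  obtain ⟨E0, hE0, hE0g⟩ := hreg (χ z1) (hs z1 hz1δ).1 (fun w => g (ι w)) (by
    filter_upwards [hιr, hιm, hιa.eventually_analyticAt] with w h1 h2 h3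
    have h4 := (hSa _ h2).mem hunb hUo hχ (hs _ (hεδ h2)).2.1
    refine ⟨?_, h4.1, h4.2.trans h1⟩
    exact DifferentiableAt.comp (g := g) (f := ι) w
      (hgd.differentiableAt (isOpen_ball.mem_nhds h2)) h3.differentiableAt)
  have hE : DifferentiableOn ℂ (fun w => E0 (χ w)) (ball y δ) := fun w hw =>
    (DifferentiableAt.comp (g := E0) (f := χ) w
      (hE0.differentiableAt (isOpen_ball.mem_nhds (hs w hw).1))
      (hχ w (hs w hw).2.1).differentiableAt).differentiableWithinAt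
  have hEg : (fun w => E0 (χ w)) =ᶠ[𝓝 z1] g := by
    filter_upwards [hχa.continuousAt.eventually hE0g, hιl] with w h1 h2
    rw [h1, h2]
  refine ⟨_, hE, ?_⟩
  have h4 := eqOn_convex (convex_ball z ε) isOpen_ball (hE.mono hεδ) hgd hz1 hEg
  filter_upwards [isOpen_ball.mem_nhds (mem_ball_self (x := z) hε)] with w hw
  exact h4 hw

/-- the local theorem at a point -/
theorem locp_cr (hGROW : S_GROW) (hPUNC : S_PUNC) (hCOORD : S_COORD) (hDICH : S_DICH)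
    {lam : ℝ} (hlam : 0 < lam)
    (hBU : BranchesBlowUp φ r lam) (hNF : NoFiniteIsolatedSingularity φ r)
    (hVG : ∀ (z : ℂ) (f : ℂ → ℂ), Branch φ r z f → ∀ b,
      VG (lam / 4) φ b (1 / conj z) (Rf f))
    (hunb : ∀ p, p ∉ V → ∀ ε : ℝ, 0 < ε → ∀ C : ℝ, ∃ z ∈ ball p ε, z ∈ V ∧ C < ‖ψ z‖)
    (hV : IsOpen V) (hψ : DifferentiableOn ℂ ψ V) (hUo : IsOpen U)
    (hχ : ∀ w ∈ U, AnalyticAt ℂ χ w) {x : ℂ} (hx : MeromorphicAt χ x)
    (hxU : ∀ᶠ w in 𝓝[≠] x, w ∈ U)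
    (hχn : ¬ ∃ c, ∀ᶠ w in 𝓝[≠] x, χ w = c) : LocP φ r (Cr V ψ χ U) x := by
  rw [eventually_nhdsWithin_iff] at hxU
  obtain ⟨ε, hε, hs⟩ := Metric.eventually_nhds_iff_ball.1 hxU
  refine ⟨Real.log ε, fun L G hL hG hB hP => ?_⟩
  refine loc_comm hGROW hPUNC hCOORD hDICH hG hlam hBU hNF hVG hB hV hψ hx hχn fun τ hτ => ?_
  obtain ⟨g, hg, hGg⟩ := hP τ hτ
  have h1 : x + exp τ ∈ U := by
    refine hs _ ?_ ?_
    · rw [mem_ball, dist_eq_norm, add_sub_cancel_left, norm_exp]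
      calc Real.exp τ.re < Real.exp L := Real.exp_lt_exp.2 hτ
        _ ≤ Real.exp (Real.log ε) := Real.exp_le_exp.2 hL
        _ = ε := Real.exp_log hε
    · intro h
      exact exp_ne_zero τ (by simp at h)
  have h2 := hg.mem hunb hUo hχ h1
  have h3 : G τ = g (x + exp τ) := hGg.self_of_nhds
  rw [h3]
  exact h2

/-- a set without accumulation points is countable -/
theorem countable_of_iso {B S : Set ℂ} (h : ∀ x ∈ B, ∀ᶠ w in 𝓝[≠] x, w ∉ S) :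
    (S ∩ B).Countable := by
  apply (HereditarilyLindelofSpace.isLindelof _).countable_of_isDiscrete
    (isDiscrete_of_codiscreteWithin _)
  rw [mem_codiscreteWithin]
  intro x hx
  rw [disjoint_principal_right]
  filter_upwards [h x hx] with w hw
  simp [hw]

/-- non-constancy spreads -/
theorem nonconst_mero {B : Set ℂ} (hB : IsPreconnected B) (hχ : MeromorphicOn χ B)
    {z0 : ℂ} (hz0 : z0 ∈ B) (hn : ¬ ∃ c, ∀ᶠ w in 𝓝[≠] z0, χ w = c) :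
    ∀ x ∈ B, ¬ ∃ c, ∀ᶠ w in 𝓝[≠] x, χ w = c := by
  rintro x hx ⟨c, hc⟩
  apply hn
  refine ⟨c, ?_⟩
  have h1 : MeromorphicOn (fun w => χ w - c) B := hχ.sub (MeromorphicOn.const c)
  have h2 : meromorphicOrderAt (fun w => χ w - c) x = ⊤ := by
    rw [meromorphicOrderAt_eq_top_iff]
    filter_upwards [hc] with w hw
    rw [hw, sub_self]
  have h3 : meromorphicOrderAt (fun w => χ w - c) z0 = ⊤ := by
    by_contra h4
    exact h1.meromorphicOrderAt_ne_top_of_isPreconnected hB hz0 hx h4 h2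
  rw [meromorphicOrderAt_eq_top_iff] at h3
  filter_upwards [h3] with w hw
  exact sub_eq_zero.1 hw

/-- the bad points are countable -/
theorem bad_countable {B : Set ℂ} (hχ : MeromorphicOn χ B)
    (hn : ∀ x ∈ B, ¬ ∃ c, ∀ᶠ w in 𝓝[≠] x, χ w = c) {S : Set ℂ} (hS : S.Countable) :
    {y | y ∈ B ∧ (¬ AnalyticAt ℂ χ y ∨ χ y ∈ S)}.Countable := by
  have h1 : {y | y ∈ B ∧ (¬ AnalyticAt ℂ χ y ∨ χ y ∈ S)} ⊆
      ({z | AnalyticAt ℂ χ z}ᶜ ∩ B) ∪ ⋃ s ∈ S, ({y | χ y = s} ∩ B) := by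
    rintro y ⟨h1, h2 | h2⟩
    · exact Or.inl ⟨h2, h1⟩
    · right
      rw [mem_iUnion₂]
      exact ⟨χ y, h2, rfl, h1⟩
  refine (hχ.countable_compl_analyticAt_inter.union (hS.biUnion fun s _ =>
    countable_of_iso fun x hx => ?_)).mono h1
  have h2 : MeromorphicAt (fun w => χ w - s) x := (hχ x hx).sub (MeromorphicAt.const s x)
  rcases h2.eventually_eq_zero_or_eventually_ne_zero with h3 | h3
  · exfalso
    apply hn x hx
    refine ⟨s, ?_⟩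
    filter_upwards [h3] with w hw
    exact sub_eq_zero.1 hw
  · filter_upwards [h3] with w hw h4
    exact hw (sub_eq_zero.2 h4)

end Pool.Agent.E8helper32.SQ
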