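import Pool.Agent.E8helper32.SQ.Sc

/-!
# Isolated points; the local and the global theorem
-/

set_option autoImplicit false

open Complex MeasureTheory Metric Set Filter Topology ComplexConjugate

namespace Pool.Agent.E8helper32.SQ

open Pool.Agent.Results.MP_83fd13_an.BranchSingularities
open Pool.Agent.Y245.UC (Rf VG)
open Pool.Agent.E8helper32.SA (per per_re exp_add_per eqOn_convex branch_ball branch_congr)
open Pool.Agent.E8helper32.SL
open Pool.Agent.E8helper32.SP (entire_of_ext)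

variable {φ : ℂ → ℂ} {r : ℝ} {U : Set ℂ} {Q : ℂ → ℂ}

/-- isolated points -/
theorem iso_pt (hCONN : S_CONN) (hCNT : S_CNT) (hMOB : S_MOB) (hLIM : S_LIM) (hFAN : S_FAN)
    (hSTR : S_STRIP) (hELL : S_ELL) (hD : D0 φ r) {lam : ℝ} (hlam : 0 < lam)
    (hBU : BranchesBlowUp φ r lam) (hNF : NoFiniteIsolatedSingularity φ r)
    (hVG : ∀ (z : ℂ) (f : ℂ → ℂ), Branch φ r z f → ∀ b,
      VG (lam / 4) φ b (1 / conj z) (Rf f)) {B : Set ℂ} (hBo : IsOpen B)
    (hB : ∀ w ∈ B, 1 < ‖w‖) (hU : IsOpen U) (hA : (B \ U).Countable)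
    (hQ : DifferentiableOn ℂ Q (B ∩ U)) {x : ℂ} (hx : x ∈ B) {ε0 : ℝ} (hε0 : 0 < ε0)
    (hgood : ∀ w ∈ ball x ε0, w ≠ x → w ∈ B → Good φ r B U Q w) : Good φ r B U Q x := by
  have hprop : ∀ (c : ℂ) (ρ : ℝ), ball c ρ ⊆ B → ∀ E g : ℂ → ℂ, DifferentiableOn ℂ E (ball c ρ) →
      ∀ z ∈ ball c ρ, E =ᶠ[𝓝 z] g → Sc U Q z g → ∀ z' ∈ ball c ρ, Sc U Q z' E := by
    intro c ρ hs E g hE z hz hEg hS z' hz'
    exact hS.prop hCONN hCNT hU (hA.mono (sdiff_subset_sdiff_left hs))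
      (hQ.mono (inter_subset_inter_left _ hs)) hE hz hEg hz'
  obtain ⟨δ2, hδ2, hs2⟩ := Metric.isOpen_iff.1 hBo x hx
  set δ : ℝ := min ε0 δ2 with hδdef
  have hδ : 0 < δ := lt_min hε0 hδ2
  have hδB : ball x δ ⊆ B := (ball_subset_ball (min_le_right _ _)).trans hs2
  have hx1 : 1 < ‖x‖ := hB x hx
  refine ⟨δ, hδ, hδB, fun z hz g hg hS => ?_⟩
  obtain ⟨ε, hε, hεs⟩ := Metric.eventually_nhds_iff_ball.1
    (hS.hd.and (isOpen_ball.mem_nhds hz))
  have hgd : DifferentiableOn ℂ g (ball z ε) := fun w hw => (hεs w hw).1.differentiableWithinAt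
  have hεδ : ball z ε ⊆ ball x δ := fun w hw => (hεs w hw).2
  -- the point `z1`
  obtain ⟨z1, hz1, hz1x⟩ : ∃ z1 ∈ ball z ε, z1 ≠ x := by
    by_cases hzx : z = x
    · refine ⟨z + ((ε / 2 : ℝ) : ℂ), ?_, ?_⟩
      · rw [mem_ball, dist_eq_norm, add_sub_cancel_left, norm_real,
          Real.norm_of_nonneg (by positivity)]
        linarith
      · rw [hzx, ne_eq, add_eq_left, ofReal_eq_zero]
        positivity
    · exact ⟨z, mem_ball_self hε, hzx⟩
  have hz1δ := hεδ hz1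
  have hbr1 : Branch φ r z1 g := branch_ball hg (fun w hw => hB w (hδB (hεδ hw))) hgd
    (mem_ball_self hε) hz1
  have hS1 : Sc U Q z1 g := hprop z ε (hεδ.trans hδB) g g hgd z (mem_ball_self hε)
    (EventuallyEq.refl _ _) hS z1 hz1
  have hfin : ∀ E : ℂ → ℂ, DifferentiableOn ℂ E (ball x δ) → E =ᶠ[𝓝 z1] g → E =ᶠ[𝓝 z] g := by
    intro E hE hEg
    have h4 := eqOn_convex (convex_ball z ε) isOpen_ball (hE.mono hεδ) hgd hz1 hEg
    filter_upwards [isOpen_ball.mem_nhds (mem_ball_self (x := z) hε)] with w hw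
    exact h4 hw
  -- the coordinate
  set L : ℝ := Real.log δ with hLdef
  have hexpL : Real.exp L = δ := Real.exp_log hδ
  have hzw : z1 - x ≠ 0 := sub_ne_zero.2 hz1x
  set τ0 : ℂ := log (z1 - x) with hτ0def
  have hexp0 : exp τ0 = z1 - x := exp_log hzw
  have hz0 : x + exp τ0 = z1 := by rw [hexp0, add_sub_cancel]
  have hτ0 : τ0 ∈ HP L := by
    show τ0.re < L
    rw [hτ0def, log_re, hLdef]
    refine Real.log_lt_log (norm_pos_iff.2 hzw) ?_
    rwa [mem_ball, dist_eq_norm] at hz1δ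
  have hmem : ∀ τ ∈ HP L, x + exp τ ∈ ball x δ ∧ x + exp τ ≠ x := by
    intro τ hτ
    constructor
    · rw [mem_ball, dist_eq_norm, add_sub_cancel_left, norm_exp, ← hexpL]
      exact Real.exp_lt_exp.2 hτ
    · intro h
      exact exp_ne_zero τ (by simp at h)
  have hexpd : ∀ t : ℂ, DifferentiableAt ℂ (fun t => x + exp t) t := fun t =>
    (differentiableAt_const _).add differentiableAt_exp
  set P : ℂ → (ℂ → ℂ) → Prop := fun τ F => ∃ g' : ℂ → ℂ, Branch φ r (x + exp τ) g' ∧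
    Sc U Q (x + exp τ) g' ∧ F =ᶠ[𝓝 τ] fun t => g' (x + exp t) with hP
  obtain ⟨G, hGd, hGg, hGP⟩ := cont (HP_conv L) (HP_open L) hτ0 P (by
    rintro τ F F' ⟨g', h1, h2, h3⟩ hFF'
    exact ⟨g', h1, h2, hFF'.symm.trans h3⟩) (by
    intro y hy
    obtain ⟨hy1, hy2⟩ := hmem y hy
    obtain ⟨δ', hδ', hsub, hext⟩ := hgood (x + exp y) (ball_subset_ball (min_le_left _ _) hy1)
      hy2 (hδB hy1)
    obtain ⟨s, hs, hss⟩ := Metric.eventually_nhds_iff_ball.1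
      ((hexpd y).continuousAt.eventually (isOpen_ball.mem_nhds (mem_ball_self hδ')))
    refine ⟨s, hs, ?_⟩
    rintro t ht - F ⟨g', h1, h2, h3⟩
    obtain ⟨E0, hE0, hE0g⟩ := hext _ (hss t ht) g' h1 h2
    refine ⟨fun u => E0 (x + exp u), fun u hu => ?_, ?_, fun u hu _ => ?_⟩
    · have h4 : DifferentiableAt ℂ E0 (x + exp u) :=
        hE0.differentiableAt (isOpen_ball.mem_nhds (hss u hu))
      exact (DifferentiableAt.comp (g := E0) (f := fun t => x + exp t) u h4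
        (hexpd u)).differentiableWithinAt
    · have h4 : (fun u => E0 (x + exp u)) =ᶠ[𝓝 t] fun u => g' (x + exp u) :=
        (hexpd t).continuousAt.tendsto.eventually hE0g
      exact h4.trans h3.symm
    · refine ⟨E0, ?_, ?_, EventuallyEq.refl _ _⟩
      · exact branch_ball (branch_congr hD.hφ h1 hE0g.symm) (fun w hw => hB w (hsub hw)) hE0
          (hss t ht) (hss u hu)
      · exact hprop _ _ hsub E0 g' hE0 _ (hss t ht) hE0g h2 _ (hss u hu))
    (f := fun t => g (x + exp t)) ⟨g, by rw [hz0]; exact hbr1, by rw [hz0]; exact hS1,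
      EventuallyEq.refl _ _⟩
  have hP0 : P0 φ r x L G := by
    refine ⟨hD, hx1, hGd, fun τ hτ => ?_⟩
    obtain ⟨g', h1, -, h3⟩ := hGP τ hτ
    exact ⟨g', h1, h3⟩
  -- the monodromy
  have hper : ∀ τ ∈ HP L, τ + per 1 ∈ HP L := by
    intro τ hτ
    show (τ + per 1).re < L
    rw [add_re, per_re, add_zero]
    exact hτ
  obtain ⟨g2, -, hS2, hGg2⟩ := hGP (τ0 + per 1) (hper τ0 hτ0)
  rw [exp_add_per, hz0] at hS2
  have hGg2' : ∀ᶠ t in 𝓝 τ0, G (t + per 1) = g2 (x + exp t) := by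
    have h1 : Tendsto (fun t : ℂ => t + per 1) (𝓝 τ0) (𝓝 (τ0 + per 1)) :=
      (continuous_id.add continuous_const).tendsto τ0
    filter_upwards [h1.eventually hGg2] with t ht
    rw [ht, exp_add_per]
  have hlm : Tendsto (lm x τ0) (𝓝 z1) (𝓝 τ0) := by
    have h1 : DifferentiableAt ℂ (lm x τ0) (x + exp τ0) := lm_diff (κ := 1) le_rfl
      (mem_ball_self (by rw [one_mul]; exact norm_pos_iff.2 (exp_ne_zero _)))
    have h2 := h1.continuousAt.tendsto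
    rwa [lm_self, hz0] at h2
  have hlme : ∀ᶠ w in 𝓝 z1, x + exp (lm x τ0 w) = w := by
    have h1 : ball (x + exp τ0) (1 * ‖exp τ0‖) ∈ 𝓝 z1 := by
      rw [hz0, one_mul]
      exact isOpen_ball.mem_nhds (mem_ball_self (norm_pos_iff.2 (exp_ne_zero _)))
    filter_upwards [h1] with w hw
    rw [lm_exp le_rfl hw, add_sub_cancel]
  have hGe := eventually_eventually_nhds.2 (hGg.and hGg2')
  have hd1 : ∀ᶠ w in 𝓝[≠] z1, deriv g w ≠ 0 := by
    rcases hS1.an.deriv.eventually_eq_zero_or_eventually_ne_zero with h1 | h1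
    · exact absurd h1 (fun h2 => hS1.hn (h2.mono fun w hw => not_not.2 hw))
    · exact h1
  have hd2 : ∀ᶠ w in 𝓝[≠] z1, deriv g2 w ≠ 0 := by
    rcases hS2.an.deriv.eventually_eq_zero_or_eventually_ne_zero with h1 | h1
    · exact absurd h1 (fun h2 => hS2.hn (h2.mono fun w hw => not_not.2 hw))
    · exact h1
  have hall : ∀ᶠ w in 𝓝 z1, ((w ≠ z1 → deriv g w ≠ 0) ∧ (w ≠ z1 → deriv g2 w ≠ 0) ∧
      DifferentiableAt ℂ g w ∧ DifferentiableAt ℂ g2 w ∧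
      (w ∈ U → deriv g w ≠ 0 → Sw g w = Q w) ∧ (w ∈ U → deriv g2 w ≠ 0 → Sw g2 w = Q w)) ∧
      w ∈ B ∧ x + exp (lm x τ0 w) = w ∧ lm x τ0 w ∈ HP L ∧
      ∀ᶠ t in 𝓝 (lm x τ0 w), G t = g (x + exp t) ∧ G (t + per 1) = g2 (x + exp t) := by
    rw [eventually_nhdsWithin_iff] at hd1 hd2
    filter_upwards [hd1, hd2, hS1.hd, hS2.hd, hS1.hs, hS2.hs, hBo.mem_nhds (hδB hz1δ), hlme,
      hlm.eventually hGe, hlm.eventually ((HP_open L).mem_nhds hτ0)]
      with w h1 h2 h3 h4 h5 h6 h7 h8 h9 h10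
    exact ⟨⟨h1, h2, h3, h4, h5, h6⟩, h7, h8, h10, h9⟩
  obtain ⟨η, hη, hηs⟩ := Metric.eventually_nhds_iff_ball.1 hall
  obtain ⟨z2, hz2b, hz2⟩ : ∃ z2 ∈ ball z1 η, z2 ∉ (B \ U) ∪ {z1} := by
    obtain ⟨z2, h2, h3⟩ := ((hA.union (countable_singleton z1)).dense_compl ℝ).inter_open_nonempty
      (ball z1 η) isOpen_ball ⟨z1, mem_ball_self hη⟩
    exact ⟨z2, h2, h3⟩
  rw [mem_union, not_or, mem_singleton_iff] at hz2
  have hz2U : z2 ∈ U := by
    by_contra h1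
    exact hz2.1 ⟨(hηs z2 hz2b).2.1, h1⟩
  have hSw : Sw g =ᶠ[𝓝 z2] Sw g2 := by
    filter_upwards [isOpen_ball.mem_nhds hz2b, isOpen_ne.mem_nhds hz2.2, hU.mem_nhds hz2U]
      with w h1 h2 h3
    obtain ⟨⟨h4, h5, -, -, h6, h7⟩, -⟩ := hηs w h1
    rw [h6 h3 (h4 h2), h7 h3 (h5 h2)]
  have hga : AnalyticAt ℂ g z2 := by
    rw [analyticAt_iff_eventually_differentiableAt]
    filter_upwards [isOpen_ball.mem_nhds hz2b] with w hw
    exact (hηs w hw).1.2.2.1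
  have hg2a : AnalyticAt ℂ g2 z2 := by
    rw [analyticAt_iff_eventually_differentiableAt]
    filter_upwards [isOpen_ball.mem_nhds hz2b] with w hw
    exact (hηs w hw).1.2.2.2.1
  obtain ⟨a, b, c, d, hdet, hev⟩ := hMOB g g2 z2 hga hg2a ((hηs z2 hz2b).1.1 hz2.2)
    ((hηs z2 hz2b).1.2.1 hz2.2) hSw
  obtain ⟨-, -, hz2e, ht2L, hz2G⟩ := hηs z2 hz2b
  set t2 : ℂ := lm x τ0 z2 with ht2
  have hmon : ∀ τ : ℂ, τ.re < L → G (τ + per 1) * (c * G τ + d) = a * G τ + b := by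
    have hGs : DifferentiableOn ℂ (fun τ => G (τ + per 1)) (HP L) :=
      hGd.comp (differentiableOn_id.add_const _) fun τ hτ => hper τ hτ
    have h1 := eqOn_convex (HP_conv L) (HP_open L)
      (f := fun τ => G (τ + per 1) * (c * G τ + d)) (g := fun τ => a * G τ + b)
      (hGs.mul ((hGd.const_mul c).add_const d)) ((hGd.const_mul a).add_const b) ht2L (by
        have h2 : Tendsto (fun t => x + exp t) (𝓝 t2) (𝓝 z2) := by
          have := (hexpd t2).continuousAt.tendsto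
          rwa [hz2e] at this
        filter_upwards [hz2G, h2.eventually hev] with t h3 h4
        rw [h3.1, h3.2]
        exact h4.2)
    exact fun τ hτ => h1 hτ
  obtain ⟨E, hE, hGE⟩ := loc_mob hLIM hFAN hSTR hELL hP0 hlam hBU hNF hVG (fun w hw =>
    hB w (hδB (by rwa [hexpL] at hw))) hdet hmon
  rw [hexpL] at hE
  refine ⟨E, hE, hfin E hE ?_⟩
  filter_upwards [hlme, hlm.eventually hGg, hlm.eventually ((HP_open L).mem_nhds hτ0)]
    with w h1 h2 h3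
  rw [hGE _ h3, h1] at h2
  exact h2

/-- **The local theorem.** -/
theorem loc_sch (hISO : S_ISO) (hCONN : S_CONN) (hCNT : S_CNT) (hMOB : S_MOB) (hODE : S_ODE)
    (hLIM : S_LIM) (hFAN : S_FAN) (hSTR : S_STRIP) (hELL : S_ELL) (hD : D0 φ r) {lam : ℝ}
    (hlam : 0 < lam) (hBU : BranchesBlowUp φ r lam) (hNF : NoFiniteIsolatedSingularity φ r)
    (hVG : ∀ (z : ℂ) (f : ℂ → ℂ), Branch φ r z f → ∀ b,
      VG (lam / 4) φ b (1 / conj z) (Rf f)) {c : ℂ} {ρ : ℝ}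
    (hB : ∀ w ∈ ball c ρ, 1 < ‖w‖) (hU : IsOpen U) (hA : (ball c ρ \ U).Countable)
    (hQ : DifferentiableOn ℂ Q (ball c ρ ∩ U)) {z : ℂ} (hz : z ∈ ball c ρ) {g : ℂ → ℂ}
    (hg : Branch φ r z g) (hS : Sc U Q z g) :
    ∃ E : ℂ → ℂ, DifferentiableOn ℂ E (ball c ρ) ∧ E =ᶠ[𝓝 z] g := by
  have hprop : ∀ (y : ℂ) (ρ' : ℝ), ball y ρ' ⊆ ball c ρ → ∀ E g : ℂ → ℂ,
      DifferentiableOn ℂ E (ball y ρ') →
      ∀ z ∈ ball y ρ', E =ᶠ[𝓝 z] g → Sc U Q z g → ∀ z' ∈ ball y ρ', Sc U Q z' E := by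
    intro y ρ' hs E g hE z hz hEg hS z' hz'
    exact hS.prop hCONN hCNT hU (hA.mono (sdiff_subset_sdiff_left hs))
      (hQ.mono (inter_subset_inter_left _ hs)) hE hz hEg hz'
  -- all points are good
  have hall : ∀ y ∈ ball c ρ, Good φ r (ball c ρ) U Q y := by
    by_contra hcon
    push Not at hcon
    obtain ⟨y0, hy0, hy0g⟩ := hcon
    set A : Set ℂ := {y | y ∈ ball c ρ ∧ ¬ Good φ r (ball c ρ) U Q y} with hAdef
    have hAs : A ⊆ ball c ρ \ U := by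
      rintro y ⟨h1, h2⟩
      refine ⟨h1, fun h3 => h2 ?_⟩
      exact reg_pt hODE hMOB hD.hφ hNF isOpen_ball hB hU hQ h1 h3
    have hAo : IsOpen (ball c ρ \ A) := by
      rw [isOpen_iff_mem_nhds]
      rintro y ⟨h1, h2⟩
      have h3 : Good φ r (ball c ρ) U Q y := by
        by_contra h3
        exact h2 ⟨h1, h3⟩
      filter_upwards [isOpen_ball.mem_nhds h1, h3.open] with w h4 h5
      exact ⟨h4, fun h6 => h6.2 h5⟩
    obtain ⟨x, hxA, ε, hε, hiso⟩ := hISO (ball c ρ) A isOpen_ball (fun y hy => hy.1) hAo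
      (hA.mono hAs) ⟨y0, hy0, hy0g⟩
    refine hxA.2 (iso_pt hCONN hCNT hMOB hLIM hFAN hSTR hELL hD hlam hBU hNF hVG isOpen_ball hB
      hU hA hQ hxA.1 hε fun w hw hne hwB => ?_)
    by_contra h1
    exact hne (hiso w hw ⟨hwB, h1⟩)
  obtain ⟨G, hG, hGg, -⟩ := cont (convex_ball c ρ) isOpen_ball hz
    (fun y F => Branch φ r y F ∧ Sc U Q y F) (by
    rintro y F F' ⟨h1, h2⟩ hFF'
    exact ⟨branch_congr hD.hφ h1 hFF', h2.congr hFF'⟩) (by
    intro y hy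
    obtain ⟨δ, hδ, hs, h1⟩ := hall y hy
    refine ⟨δ, hδ, ?_⟩
    rintro t ht - F ⟨h2, h3⟩
    obtain ⟨E, hE, hEF⟩ := h1 t ht F h2 h3
    refine ⟨E, hE, hEF, fun u hu _ => ⟨?_, ?_⟩⟩
    · exact branch_ball (branch_congr hD.hφ h2 hEF.symm) (fun w hw => hB w (hs hw)) hE ht hu
    · exact hprop _ _ hs E F hE _ ht hEF h3 _ hu) (f := g) ⟨hg, hS⟩
  exact ⟨G, hG, hGg⟩

/-- **The global theorem.** -/
theorem glob_sch (hISO : S_ISO) (hCONN : S_CONN) (hCNT : S_CNT) (hMOB : S_MOB) (hODE : S_ODE)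
    (hLIM : S_LIM) (hFAN : S_FAN) (hSTR : S_STRIP) (hELL : S_ELL) (hD : D0 φ r) {lam : ℝ}
    (hlam : 0 < lam) (hBU : BranchesBlowUp φ r lam) (hNF : NoFiniteIsolatedSingularity φ r)
    (hVG : ∀ (z : ℂ) (f : ℂ → ℂ), Branch φ r z f → ∀ b,
      VG (lam / 4) φ b (1 / conj z) (Rf f)) (hU : IsOpen U) (hA : Uᶜ.Countable)
    (hQ : DifferentiableOn ℂ Q U) (hQφ : ∀ w ∈ ball (0 : ℂ) r, w ∈ U → Sw φ w = Q w) :
    ∃ Φ : ℂ → ℂ, Differentiable ℂ Φ ∧ EqOn Φ φ (ball 0 r) := by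
  have hr := hD.hr
  have hr0 : 0 < r := by linarith
  have hc : ∀ B : Set ℂ, (B \ U).Countable := fun B => hA.mono fun w hw => hw.2
  refine entire_of_ext hr0 hD.hφ fun ρ hρ h hh hhφ x hx => ?_
  have hρ1 : 1 < ρ := lt_of_lt_of_le hr hρ
  rw [mem_sphere_zero_iff_norm] at hx
  have hS0 : Sc U Q 0 φ := by
    refine ⟨?_, ?_, ?_⟩
    · filter_upwards [isOpen_ball.mem_nhds (mem_ball_self hr0)] with w hw
      exact hD.hφ.differentiableAt (isOpen_ball.mem_nhds hw)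
    · refine Eventually.frequently ?_
      filter_upwards [isOpen_ball.mem_nhds (mem_ball_self hr0)] with w hw
      exact dne hD hw
    · filter_upwards [isOpen_ball.mem_nhds (mem_ball_self hr0)] with w hw h1 _
      exact hQφ w hw h1
  have hSh : ∀ z ∈ ball (0 : ℂ) ρ, Sc U Q z h := fun z hz =>
    hS0.prop hCONN hCNT hU (hc _) (hQ.mono inter_subset_right) hh
      (mem_ball_self (by linarith)) (by
        filter_upwards [isOpen_ball.mem_nhds (mem_ball_self hr0)] with w hw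
        exact hhφ hw) hz
  have hB : ∀ w ∈ ball x (ρ - 1), 1 < ‖w‖ := by
    intro w hw
    rw [mem_ball, dist_eq_norm] at hw
    have h2 : ‖x‖ ≤ ‖w‖ + ‖w - x‖ := by
      have := norm_sub_le w (w - x)
      rwa [sub_sub_cancel] at this
    linarith
  -- the point `z`
  set s : ℝ := (ρ + 1) / (2 * ρ) with hs
  have hρ0 : 0 < ρ := by linarith
  have hs0 : 0 < s := by positivity
  have hsρ : s * ρ = (ρ + 1) / 2 := by rw [hs]; field_simp
  have hs1 : s < 1 := by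
    rw [hs, div_lt_one (by positivity)]; linarith
  have hzn : ‖(s : ℂ) * x‖ = (ρ + 1) / 2 := by
    rw [norm_mul, norm_real, Real.norm_of_nonneg hs0.le, hx, hsρ]
  have hzx : (s : ℂ) * x ∈ ball x (ρ - 1) := by
    have e : (s : ℂ) * x - x = ((s - 1 : ℝ) : ℂ) * x := by push_cast; ring
    rw [mem_ball, dist_eq_norm, e, norm_mul, norm_real, hx, Real.norm_eq_abs,
      abs_of_neg (by linarith)]
    have : -(s - 1) * ρ = ρ - (ρ + 1) / 2 := by rw [← hsρ]; ring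
    rw [this]
    linarith
  have hz0 : (s : ℂ) * x ∈ ball (0 : ℂ) ρ := by rw [mem_ball_zero_iff, hzn]; linarith
  obtain ⟨E, hE, hEh⟩ := loc_sch hISO hCONN hCNT hMOB hODE hLIM hFAN hSTR hELL hD hlam hBU hNF
    hVG hB hU (hc _) (hQ.mono inter_subset_right) hzx
    (branch_radial hD hρ hh hhφ hz0 (by rw [hzn]; linarith)) (hSh _ hz0)
  exact ⟨ρ - 1, E, _, by linarith, hE, ⟨hzx, hz0⟩, hEh⟩

end Pool.Agent.E8helper32.SQ
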