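import Pool.Agent.E8helper32.SQ.Cr

/-!
# The local and the global theorem for `ψ ∘ φ = χ`
-/

set_option autoImplicit false

open Complex MeasureTheory Metric Set Filter Topology ComplexConjugate

namespace Pool.Agent.E8helper32.SQ

open Pool.Agent.Results.MP_83fd13_an.BranchSingularities
open Pool.Agent.E8helper32.SA (eqOn_convex)
open Pool.Agent.E8helper32.SL
open Pool.Agent.Y245.UC (Rf VG)

variable {V : Set ℂ} {ψ χ : ℂ → ℂ} {φ : ℂ → ℂ} {r : ℝ}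

/-- **The local theorem.** -/
theorem loc_mero (hISO : S_ISO) (hCONN : S_CONN) (hCNT : S_CNT) (hGROW : S_GROW) (hPUNC : S_PUNC)
    (hCOORD : S_COORD) (hDICH : S_DICH) (hD : D0 φ r) {lam : ℝ} (hlam : 0 < lam)
    (hBU : BranchesBlowUp φ r lam) (hNF : NoFiniteIsolatedSingularity φ r)
    (hVG : ∀ (z : ℂ) (f : ℂ → ℂ), Branch φ r z f → ∀ b,
      VG (lam / 4) φ b (1 / conj z) (Rf f))
    (hV : IsOpen V) (hVc : Vᶜ.Countable) (hψ : DifferentiableOn ℂ ψ V)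
    (hunb : ∀ p, p ∉ V → ∀ ε : ℝ, 0 < ε → ∀ C : ℝ, ∃ z ∈ ball p ε, z ∈ V ∧ C < ‖ψ z‖)
    (hsing : {s | ¬ RegV V ψ s}.Countable) {c : ℂ} {ρ : ℝ}
    (hB : ∀ w ∈ ball c ρ, 1 < ‖w‖) (hχ : MeromorphicOn χ (ball c ρ)) {z : ℂ}
    (hz : z ∈ ball c ρ) (hχn : ¬ ∃ c, ∀ᶠ w in 𝓝[≠] z, χ w = c) {g : ℂ → ℂ}
    (hg : Branch φ r z g) (hS : Cr V ψ χ {w | AnalyticAt ℂ χ w} z g) :
    ∃ E : ℂ → ℂ, DifferentiableOn ℂ E (ball c ρ) ∧ E =ᶠ[𝓝 z] g := by
  have hUo : IsOpen {w | AnalyticAt ℂ χ w} := isOpen_analyticAt ℂ χ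
  have hA : (ball c ρ \ {w | AnalyticAt ℂ χ w}).Countable := by
    refine Countable.mono ?_ hχ.countable_compl_analyticAt_inter
    rintro w ⟨h1, h2⟩
    exact ⟨h2, h1⟩
  have hn := nonconst_mero (convex_ball c ρ).isPreconnected hχ hz hχn
  have hC : Cls (ball c ρ) (Cr V ψ χ {w | AnalyticAt ℂ χ w}) :=
    cls_cr hCONN hCNT hV hVc hψ hA fun w hw => hw
  refine ext_gen hISO hD hB hC (bad_countable hχ hn hsing) (fun y hy hyA => ?_) (fun x hx => ?_)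
    hz hg hS
  · have h1 : AnalyticAt ℂ χ y := by
      by_contra h
      exact hyA ⟨hy, Or.inl h⟩
    refine good_cr hC hunb hUo isOpen_ball (fun w hw => hw) hy h1 hn ?_
    by_contra h
    exact hyA ⟨hy, Or.inr h⟩
  · exact locp_cr hGROW hPUNC hCOORD hDICH hlam hBU hNF hVG hunb hV hψ hUo (fun w hw => hw)
      (hχ x hx) (hχ x hx).eventually_analyticAt (hn x hx)

/-- **The global theorem.** -/
theorem glob_mero (hISO : S_ISO) (hCONN : S_CONN) (hCNT : S_CNT) (hGROW : S_GROW) (hPUNC : S_PUNC)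
    (hCOORD : S_COORD) (hDICH : S_DICH) (hD : D0 φ r) {lam : ℝ} (hlam : 0 < lam)
    (hBU : BranchesBlowUp φ r lam) (hNF : NoFiniteIsolatedSingularity φ r)
    (hVG : ∀ (z : ℂ) (f : ℂ → ℂ), Branch φ r z f → ∀ b,
      VG (lam / 4) φ b (1 / conj z) (Rf f))
    (hV : IsOpen V) (hVc : Vᶜ.Countable) (hψ : DifferentiableOn ℂ ψ V)
    (hunb : ∀ p, p ∉ V → ∀ ε : ℝ, 0 < ε → ∀ C : ℝ, ∃ z ∈ ball p ε, z ∈ V ∧ C < ‖ψ z‖)
    (hsing : {s | ¬ RegV V ψ s}.Countable) (hχ : ∀ z, MeromorphicAt χ z) {z0 : ℂ}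
    (hz0 : z0 ∈ ball (0 : ℂ) r) (hχn : ¬ ∃ c, ∀ᶠ w in 𝓝[≠] z0, χ w = c)
    (hS : ∀ᶠ w in 𝓝 z0, φ w ∈ V → ψ (φ w) = χ w) :
    ∃ Φ : ℂ → ℂ, Differentiable ℂ Φ ∧ EqOn Φ φ (ball 0 r) := by
  have hχU : MeromorphicOn χ univ := fun z _ => hχ z
  have hn := nonconst_mero isPreconnected_univ hχU (mem_univ z0) hχn
  have hA : (univ \ {w | AnalyticAt ℂ χ w}).Countable := by
    refine Countable.mono ?_ hχU.countable_compl_analyticAt_inter
    rintro w ⟨h1, h2⟩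
    exact ⟨h2, h1⟩
  refine glob_gen hD (fun c ρ hB z hz g hg hg2 => loc_mero hISO hCONN hCNT hGROW hPUNC hCOORD
    hDICH hD hlam hBU hNF hVG hV hVc hψ hunb hsing hB (fun w _ => hχ w) hz (hn z (mem_univ z))
    hg hg2) (cls_cr hCONN hCNT hV hVc hψ hA fun w hw => hw) hz0 ?_
  refine ⟨?_, ?_, ?_⟩
  · filter_upwards [isOpen_ball.mem_nhds hz0] with w hw
    exact hD.hφ.differentiableAt (isOpen_ball.mem_nhds hw)
  · refine Eventually.frequently ?_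
    filter_upwards [isOpen_ball.mem_nhds hz0] with w hw
    exact dne hD hw
  · filter_upwards [hS] with w hw _ h
    exact hw h

end Pool.Agent.E8helper32.SQ
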