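import Pool.Agent.E8helper32.SQ.Loc
import Pool.Agent.E8helper32.SQ.Cont

/-!
# The induction over countable sets, for a general class of branches
-/

set_option autoImplicit false

open Complex MeasureTheory Metric Set Filter Topology ComplexConjugate

namespace Pool.Agent.E8helper32.SQ

open Pool.Agent.Results.MP_83fd13_an.BranchSingularities
open Pool.Agent.E8helper32.SA (per per_re exp_add_per eqOn_convex branch_ball branch_congr)
open Pool.Agent.E8helper32.SL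
open Pool.Agent.E8helper32.SP (entire_of_ext)

variable {φ : ℂ → ℂ} {r : ℝ} {B : Set ℂ} {P : ℂ → (ℂ → ℂ) → Prop}

/-- a property of germs that is preserved by continuation in `B` -/
structure Cls (B : Set ℂ) (P : ℂ → (ℂ → ℂ) → Prop) : Prop where
  cg : ∀ z f g, P z f → f =ᶠ[𝓝 z] g → P z g
  hd : ∀ z g, P z g → ∀ᶠ w in 𝓝 z, DifferentiableAt ℂ g w
  pr : ∀ (c : ℂ) (ρ : ℝ), ball c ρ ⊆ B → ∀ E g : ℂ → ℂ, DifferentiableOn ℂ E (ball c ρ) →
    ∀ z ∈ ball c ρ, E =ᶠ[𝓝 z] g → P z g → ∀ z' ∈ ball c ρ, P z' E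

/-- a point near which all branches with the property extend -/
def GoodP (φ : ℂ → ℂ) (r : ℝ) (B : Set ℂ) (P : ℂ → (ℂ → ℂ) → Prop) (y : ℂ) : Prop :=
  ∃ δ : ℝ, 0 < δ ∧ ball y δ ⊆ B ∧ ∀ z ∈ ball y δ, ∀ g : ℂ → ℂ, Branch φ r z g → P z g →
    ∃ E : ℂ → ℂ, DifferentiableOn ℂ E (ball y δ) ∧ E =ᶠ[𝓝 z] g

/-- the local theorem at `x` -/
def LocP (φ : ℂ → ℂ) (r : ℝ) (P : ℂ → (ℂ → ℂ) → Prop) (x : ℂ) : Prop :=
  ∃ L0 : ℝ, ∀ (L : ℝ) (G : ℂ → ℂ), L ≤ L0 → P0 φ r x L G →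
    (∀ w ∈ ball x (Real.exp L), 1 < ‖w‖) →
    (∀ τ ∈ HP L, ∃ g : ℂ → ℂ, P (x + exp τ) g ∧ G =ᶠ[𝓝 τ] fun t => g (x + exp t)) →
    ∃ E : ℂ → ℂ, DifferentiableOn ℂ E (ball x (Real.exp L)) ∧
      ∀ τ : ℂ, τ.re < L → G τ = E (x + exp τ)

theorem GoodP.open {y : ℂ} (h : GoodP φ r B P y) : ∀ᶠ w in 𝓝 y, GoodP φ r B P w := by
  obtain ⟨δ, hδ, hs, h1⟩ := h
  filter_upwards [isOpen_ball.mem_nhds (mem_ball_self hδ)] with w hw
  have hsub : ball w (δ - dist w y) ⊆ ball y δ := ball_subset_ball' (by linarith)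
  refine ⟨δ - dist w y, by rw [mem_ball] at hw; linarith, hsub.trans hs, fun z hz g hg hS => ?_⟩
  obtain ⟨E, hE, hEg⟩ := h1 z (hsub hz) g hg hS
  exact ⟨E, hE.mono hsub, hEg⟩

/-- isolated points -/
theorem iso_gen (hD : D0 φ r) (hC : Cls B P) (hBo : IsOpen B) (hB : ∀ w ∈ B, 1 < ‖w‖) {x : ℂ}
    (hx : x ∈ B) (hloc : LocP φ r P x) {ε0 : ℝ} (hε0 : 0 < ε0)
    (hgood : ∀ w ∈ ball x ε0, w ≠ x → w ∈ B → GoodP φ r B P w) : GoodP φ r B P x := by
  obtain ⟨L0, hloc⟩ := hloc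
  obtain ⟨δ2, hδ2, hs2⟩ := Metric.isOpen_iff.1 hBo x hx
  set δ : ℝ := min (min ε0 δ2) (Real.exp L0) with hδdef
  have hδ : 0 < δ := lt_min (lt_min hε0 hδ2) (Real.exp_pos _)
  have hδε : δ ≤ ε0 := (min_le_left _ _).trans (min_le_left _ _)
  have hδB : ball x δ ⊆ B :=
    (ball_subset_ball ((min_le_left _ _).trans (min_le_right _ _))).trans hs2
  have hx1 : 1 < ‖x‖ := hB x hx
  refine ⟨δ, hδ, hδB, fun z hz g hg hS => ?_⟩
  obtain ⟨ε, hε, hεs⟩ := Metric.eventually_nhds_iff_ball.1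
    ((hC.hd z g hS).and (isOpen_ball.mem_nhds hz))
  have hgd : DifferentiableOn ℂ g (ball z ε) := fun w hw => (hεs w hw).1.differentiableWithinAt
  have hεδ : ball z ε ⊆ ball x δ := fun w hw => (hεs w hw).2
  -- the point `z1`
  obtain ⟨z1, hz1, hz1x⟩ : ∃ z1 ∈ ball z ε, z1 ≠ x := by
    by_cases hzx : z = x
    · refine ⟨z + ((ε / 2 : ℝ) : ℂ), ?_, ?_⟩
      · rw [mem_ball, dist_eq_norm, add_sub_cancel_left, norm_real,
          Real.norm_of_nonneg (by positivity)]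
        linarith
      · rw [hzx, ne_eq, add_eq_left, ofReal_eq_zero]
        positivity
    · exact ⟨z, mem_ball_self hε, hzx⟩
  have hz1δ := hεδ hz1
  have hbr1 : Branch φ r z1 g := branch_ball hg (fun w hw => hB w (hδB (hεδ hw))) hgd
    (mem_ball_self hε) hz1
  have hS1 : P z1 g := hC.pr z ε (hεδ.trans hδB) g g hgd z (mem_ball_self hε)
    (EventuallyEq.refl _ _) hS z1 hz1
  have hfin : ∀ E : ℂ → ℂ, DifferentiableOn ℂ E (ball x δ) → E =ᶠ[𝓝 z1] g → E =ᶠ[𝓝 z] g := by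
    intro E hE hEg
    have h4 := eqOn_convex (convex_ball z ε) isOpen_ball (hE.mono hεδ) hgd hz1 hEg
    filter_upwards [isOpen_ball.mem_nhds (mem_ball_self (x := z) hε)] with w hw
    exact h4 hw
  -- the coordinate
  set L : ℝ := Real.log δ with hLdef
  have hexpL : Real.exp L = δ := Real.exp_log hδ
  have hLL0 : L ≤ L0 := by
    rw [hLdef, ← Real.log_exp L0]
    exact Real.log_le_log hδ (min_le_right _ _)
  have hzw : z1 - x ≠ 0 := sub_ne_zero.2 hz1x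
  set τ0 : ℂ := log (z1 - x) with hτ0def
  have hexp0 : exp τ0 = z1 - x := exp_log hzw
  have hz0 : x + exp τ0 = z1 := by rw [hexp0, add_sub_cancel]
  have hτ0 : τ0 ∈ HP L := by
    show τ0.re < L
    rw [hτ0def, log_re, hLdef]
    refine Real.log_lt_log (norm_pos_iff.2 hzw) ?_
    rwa [mem_ball, dist_eq_norm] at hz1δ
  have hmem : ∀ τ ∈ HP L, x + exp τ ∈ ball x δ ∧ x + exp τ ≠ x := by
    intro τ hτ
    constructor
    · rw [mem_ball, dist_eq_norm, add_sub_cancel_left, norm_exp, ← hexpL]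
      exact Real.exp_lt_exp.2 hτ
    · intro h
      exact exp_ne_zero τ (by simp at h)
  have hexpd : ∀ t : ℂ, DifferentiableAt ℂ (fun t => x + exp t) t := fun t =>
    (differentiableAt_const _).add differentiableAt_exp
  set PP : ℂ → (ℂ → ℂ) → Prop := fun τ F => ∃ g' : ℂ → ℂ, Branch φ r (x + exp τ) g' ∧
    P (x + exp τ) g' ∧ F =ᶠ[𝓝 τ] fun t => g' (x + exp t) with hPP
  obtain ⟨G, hGd, hGg, hGP⟩ := cont (HP_conv L) (HP_open L) hτ0 PP (by
    rintro τ F F' ⟨g', h1, h2, h3⟩ hFF'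
    exact ⟨g', h1, h2, hFF'.symm.trans h3⟩) (by
    intro y hy
    obtain ⟨hy1, hy2⟩ := hmem y hy
    obtain ⟨δ', hδ', hsub, hext⟩ := hgood (x + exp y) (ball_subset_ball hδε hy1)
      hy2 (hδB hy1)
    obtain ⟨s, hs, hss⟩ := Metric.eventually_nhds_iff_ball.1
      ((hexpd y).continuousAt.eventually (isOpen_ball.mem_nhds (mem_ball_self hδ')))
    refine ⟨s, hs, ?_⟩
    rintro t ht - F ⟨g', h1, h2, h3⟩
    obtain ⟨E0, hE0, hE0g⟩ := hext _ (hss t ht) g' h1 h2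
    refine ⟨fun u => E0 (x + exp u), fun u hu => ?_, ?_, fun u hu _ => ?_⟩
    · have h4 : DifferentiableAt ℂ E0 (x + exp u) :=
        hE0.differentiableAt (isOpen_ball.mem_nhds (hss u hu))
      exact (DifferentiableAt.comp (g := E0) (f := fun t => x + exp t) u h4
        (hexpd u)).differentiableWithinAt
    · have h4 : (fun u => E0 (x + exp u)) =ᶠ[𝓝 t] fun u => g' (x + exp u) :=
        (hexpd t).continuousAt.tendsto.eventually hE0g
      exact h4.trans h3.symm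
    · refine ⟨E0, ?_, ?_, EventuallyEq.refl _ _⟩
      · exact branch_ball (branch_congr hD.hφ h1 hE0g.symm) (fun w hw => hB w (hsub hw)) hE0
          (hss t ht) (hss u hu)
      · exact hC.pr _ _ hsub E0 g' hE0 _ (hss t ht) hE0g h2 _ (hss u hu))
    (f := fun t => g (x + exp t)) ⟨g, by rw [hz0]; exact hbr1, by rw [hz0]; exact hS1,
      EventuallyEq.refl _ _⟩
  have hP0 : P0 φ r x L G := by
    refine ⟨hD, hx1, hGd, fun τ hτ => ?_⟩
    obtain ⟨g', h1, -, h3⟩ := hGP τ hτ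
    exact ⟨g', h1, h3⟩
  have hlm : Tendsto (lm x τ0) (𝓝 z1) (𝓝 τ0) := by
    have h1 : DifferentiableAt ℂ (lm x τ0) (x + exp τ0) := lm_diff (κ := 1) le_rfl
      (mem_ball_self (by rw [one_mul]; exact norm_pos_iff.2 (exp_ne_zero _)))
    have h2 := h1.continuousAt.tendsto
    rwa [lm_self, hz0] at h2
  have hlme : ∀ᶠ w in 𝓝 z1, x + exp (lm x τ0 w) = w := by
    have h1 : ball (x + exp τ0) (1 * ‖exp τ0‖) ∈ 𝓝 z1 := by
      rw [hz0, one_mul]
      exact isOpen_ball.mem_nhds (mem_ball_self (norm_pos_iff.2 (exp_ne_zero _)))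
    filter_upwards [h1] with w hw
    rw [lm_exp le_rfl hw, add_sub_cancel]
  obtain ⟨E, hE, hGE⟩ := hloc L G hLL0 hP0 (fun w hw =>
    hB w (hδB (by rwa [hexpL] at hw))) (fun τ hτ => by
    obtain ⟨g', -, h2, h3⟩ := hGP τ hτ
    exact ⟨g', h2, h3⟩)
  rw [hexpL] at hE
  refine ⟨E, hE, hfin E hE ?_⟩
  filter_upwards [hlme, hlm.eventually hGg, hlm.eventually ((HP_open L).mem_nhds hτ0)]
    with w h1 h2 h3
  rw [hGE _ h3, h1] at h2
  exact h2

/-- **All branches with the property extend to the disc.** -/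
theorem ext_gen (hISO : S_ISO) (hD : D0 φ r) {c : ℂ} {ρ : ℝ}
    (hB : ∀ w ∈ ball c ρ, 1 < ‖w‖) (hC : Cls (ball c ρ) P) {A0 : Set ℂ} (hA0 : A0.Countable)
    (hreg : ∀ y ∈ ball c ρ, y ∉ A0 → GoodP φ r (ball c ρ) P y)
    (hloc : ∀ x ∈ ball c ρ, LocP φ r P x) {z : ℂ} (hz : z ∈ ball c ρ) {g : ℂ → ℂ}
    (hg : Branch φ r z g) (hS : P z g) :
    ∃ E : ℂ → ℂ, DifferentiableOn ℂ E (ball c ρ) ∧ E =ᶠ[𝓝 z] g := by
  -- all points are good
  have hall : ∀ y ∈ ball c ρ, GoodP φ r (ball c ρ) P y := by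
    by_contra hcon
    push Not at hcon
    obtain ⟨y0, hy0, hy0g⟩ := hcon
    set A : Set ℂ := {y | y ∈ ball c ρ ∧ ¬ GoodP φ r (ball c ρ) P y} with hAdef
    have hAs : A ⊆ A0 := by
      rintro y ⟨h1, h2⟩
      by_contra h3
      exact h2 (hreg y h1 h3)
    have hAo : IsOpen (ball c ρ \ A) := by
      rw [isOpen_iff_mem_nhds]
      rintro y ⟨h1, h2⟩
      have h3 : GoodP φ r (ball c ρ) P y := by
        by_contra h3
        exact h2 ⟨h1, h3⟩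
      filter_upwards [isOpen_ball.mem_nhds h1, h3.open] with w h4 h5
      exact ⟨h4, fun h6 => h6.2 h5⟩
    obtain ⟨x, hxA, ε, hε, hiso⟩ := hISO (ball c ρ) A isOpen_ball (fun y hy => hy.1) hAo
      (hA0.mono hAs) ⟨y0, hy0, hy0g⟩
    refine hxA.2 (iso_gen hD hC isOpen_ball hB hxA.1 (hloc x hxA.1) hε fun w hw hne hwB => ?_)
    by_contra h1
    exact hne (hiso w hw ⟨hwB, h1⟩)
  obtain ⟨G, hG, hGg, -⟩ := cont (convex_ball c ρ) isOpen_ball hz
    (fun y F => Branch φ r y F ∧ P y F) (by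
    rintro y F F' ⟨h1, h2⟩ hFF'
    exact ⟨branch_congr hD.hφ h1 hFF', hC.cg _ _ _ h2 hFF'⟩) (by
    intro y hy
    obtain ⟨δ, hδ, hs, h1⟩ := hall y hy
    refine ⟨δ, hδ, ?_⟩
    rintro t ht - F ⟨h2, h3⟩
    obtain ⟨E, hE, hEF⟩ := h1 t ht F h2 h3
    refine ⟨E, hE, hEF, fun u hu _ => ⟨?_, ?_⟩⟩
    · exact branch_ball (branch_congr hD.hφ h2 hEF.symm) (fun w hw => hB w (hs hw)) hE ht hu
    · exact hC.pr _ _ hs E F hE _ ht hEF h3 _ hu) (f := g) ⟨hg, hS⟩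
  exact ⟨G, hG, hGg⟩

/-- **The global theorem.** -/
theorem glob_gen (hD : D0 φ r)
    (hext : ∀ (c : ℂ) (ρ : ℝ), (∀ w ∈ ball c ρ, 1 < ‖w‖) → ∀ z ∈ ball c ρ, ∀ g : ℂ → ℂ,
      Branch φ r z g → P z g → ∃ E : ℂ → ℂ, DifferentiableOn ℂ E (ball c ρ) ∧ E =ᶠ[𝓝 z] g)
    (hC : Cls univ P) {z0 : ℂ} (hz0 : z0 ∈ ball (0 : ℂ) r) (hP : P z0 φ) :
    ∃ Φ : ℂ → ℂ, Differentiable ℂ Φ ∧ EqOn Φ φ (ball 0 r) := by
  have hr := hD.hr
  have hr0 : 0 < r := by linarith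
  refine entire_of_ext hr0 hD.hφ fun ρ hρ h hh hhφ x hx => ?_
  have hρ1 : 1 < ρ := lt_of_lt_of_le hr hρ
  rw [mem_sphere_zero_iff_norm] at hx
  have hSh : ∀ z ∈ ball (0 : ℂ) ρ, P z h := fun z hz =>
    hC.pr 0 ρ (subset_univ _) h φ hh z0 (ball_subset_ball hρ hz0) (by
        filter_upwards [isOpen_ball.mem_nhds hz0] with w hw
        exact hhφ hw) hP z hz
  have hB : ∀ w ∈ ball x (ρ - 1), 1 < ‖w‖ := by
    intro w hw
    rw [mem_ball, dist_eq_norm] at hw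
    have h2 : ‖x‖ ≤ ‖w‖ + ‖w - x‖ := by
      have := norm_sub_le w (w - x)
      rwa [sub_sub_cancel] at this
    linarith
  -- the point `z`
  set s : ℝ := (ρ + 1) / (2 * ρ) with hs
  have hρ0 : 0 < ρ := by linarith
  have hs0 : 0 < s := by positivity
  have hsρ : s * ρ = (ρ + 1) / 2 := by rw [hs]; field_simp
  have hs1 : s < 1 := by
    rw [hs, div_lt_one (by positivity)]; linarith
  have hzn : ‖(s : ℂ) * x‖ = (ρ + 1) / 2 := by
    rw [norm_mul, norm_real, Real.norm_of_nonneg hs0.le, hx, hsρ]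
  have hzx : (s : ℂ) * x ∈ ball x (ρ - 1) := by
    have e : (s : ℂ) * x - x = ((s - 1 : ℝ) : ℂ) * x := by push_cast; ring
    rw [mem_ball, dist_eq_norm, e, norm_mul, norm_real, hx, Real.norm_eq_abs,
      abs_of_neg (by linarith)]
    have : -(s - 1) * ρ = ρ - (ρ + 1) / 2 := by rw [← hsρ]; ring
    rw [this]
    linarith
  have hz0' : (s : ℂ) * x ∈ ball (0 : ℂ) ρ := by rw [mem_ball_zero_iff, hzn]; linarith
  obtain ⟨E, hE, hEh⟩ := hext x (ρ - 1) hB _ hzx h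
    (branch_radial hD hρ hh hhφ hz0' (by rw [hzn]; linarith)) (hSh _ hz0')
  exact ⟨ρ - 1, E, _, by linarith, hE, ⟨hzx, hz0'⟩, hEh⟩

end Pool.Agent.E8helper32.SQ
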