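import Pool.Agent.E8helper32.SQ.Prim

/-!
# Moebius monodromy of infinite order is impossible
-/

set_option autoImplicit false

open Complex MeasureTheory Metric Set Filter Topology ComplexConjugate

namespace Pool.Agent.E8helper32.SQ

open Pool.Agent.E8helper32.SA (eqOn_convex)
open Pool.Agent.E8helper32.SP (OP turns exp_turns two_pi_re)

variable {a Λ : ℝ} {T : ℂ → ℂ} {b0 b1 b2 κ c0 : ℂ}

theorem HP_open (L : ℝ) : IsOpen (HP L) := isOpen_Iio.preimage continuous_re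

theorem HP_conv (L : ℝ) : Convex ℝ (HP L) := convex_halfSpace_re_lt L

theorem HP_turn {L : ℝ} {σ : ℂ} (hσ : σ ∈ HP L) (m : ℤ) : σ + m * (2 * Real.pi * I) ∈ HP L := by
  show (σ + m * (2 * Real.pi * I)).re < L
  rw [two_pi_re]
  exact hσ

theorem HP_turnN {L : ℝ} {σ : ℂ} (hσ : σ ∈ HP L) (m : ℕ) : σ + m * (2 * Real.pi * I) ∈ HP L := by
  have := HP_turn hσ (m : ℤ)
  push_cast at this
  exact this

theorem HP_one {L : ℝ} {σ : ℂ} (hσ : σ ∈ HP L) : σ + 2 * Real.pi * I ∈ HP L := by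
  have := HP_turnN hσ 1
  rwa [Nat.cast_one, one_mul] at this

/-- the monodromy in terms of two fixed points -/
def FL (Λ : ℝ) (T : ℂ → ℂ) (b1 b2 κ : ℂ) : Prop := ∀ σ ∈ HP Λ,
  (T (σ + 2 * Real.pi * I) - b1) * (T σ - b2) =
    κ * ((T σ - b1) * (T (σ + 2 * Real.pi * I) - b2))

theorem FL.two (h : FL Λ T b1 b2 κ) (hb : b1 ≠ b2) (hκ : κ ≠ 0) {σ : ℂ} (hσ : σ ∈ HP Λ) :
    T (σ + 2 * Real.pi * I) = b2 ↔ T σ = b2 := by
  have h1 := h σ hσ
  constructor
  · intro h2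
    rw [h2, sub_self, mul_zero, mul_zero] at h1
    exact sub_eq_zero.1 ((mul_eq_zero.1 h1).resolve_left (sub_ne_zero.2 hb.symm))
  · intro h2
    rw [h2, sub_self, mul_zero] at h1
    have h3 := (mul_eq_zero.1 h1.symm).resolve_left hκ
    exact sub_eq_zero.1 ((mul_eq_zero.1 h3).resolve_left (sub_ne_zero.2 hb.symm))

theorem FL.iter (h : FL Λ T b1 b2 κ) (hb : b1 ≠ b2) (hκ : κ ≠ 0) (m : ℕ) {σ : ℂ}
    (hσ : σ ∈ HP Λ) (h2 : T σ ≠ b2) : T (σ + m * (2 * Real.pi * I)) ≠ b2 ∧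
      T (σ + m * (2 * Real.pi * I)) - b1 =
        κ ^ m * ((T σ - b1) / (T σ - b2)) * (T (σ + m * (2 * Real.pi * I)) - b2) := by
  induction m with
  | zero =>
    rw [Nat.cast_zero, zero_mul, add_zero]
    refine ⟨h2, ?_⟩
    rw [pow_zero, one_mul, div_mul_cancel₀ _ (sub_ne_zero.2 h2)]
  | succ m ih =>
    obtain ⟨i1, i2⟩ := ih
    have e : σ + ((m + 1 : ℕ) : ℂ) * (2 * Real.pi * I) =
        σ + m * (2 * Real.pi * I) + 2 * Real.pi * I := by push_cast; ring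
    have hm := HP_turnN hσ m
    have h3 : T (σ + m * (2 * Real.pi * I) + 2 * Real.pi * I) ≠ b2 := fun h4 =>
      i1 ((h.two hb hκ hm).1 h4)
    rw [e]
    refine ⟨h3, ?_⟩
    have h4 := h _ hm
    rw [i2] at h4
    have h5 : T (σ + m * (2 * Real.pi * I)) - b2 ≠ 0 := sub_ne_zero.2 i1
    refine mul_right_cancel₀ h5 ?_
    rw [h4]
    ring

theorem FL.val (h : FL Λ T b1 b2 κ) (hb : b1 ≠ b2) (hκ : κ ≠ 0) (m : ℕ) {σ : ℂ}
    (hσ : σ ∈ HP Λ) (h2 : T σ ≠ b2) : 1 - κ ^ m * ((T σ - b1) / (T σ - b2)) ≠ 0 ∧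
      T (σ + m * (2 * Real.pi * I)) - b1 =
        (b1 - b2) * (κ ^ m * ((T σ - b1) / (T σ - b2))) /
          (1 - κ ^ m * ((T σ - b1) / (T σ - b2))) := by
  obtain ⟨-, i2⟩ := h.iter hb hκ m hσ h2
  have h3 : (T (σ + m * (2 * Real.pi * I)) - b1) * (1 - κ ^ m * ((T σ - b1) / (T σ - b2))) =
      (b1 - b2) * (κ ^ m * ((T σ - b1) / (T σ - b2))) := by
    linear_combination i2
  have h4 : 1 - κ ^ m * ((T σ - b1) / (T σ - b2)) ≠ 0 := by
    intro h5
    rw [h5, mul_zero] at h3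
    have h6 := (mul_eq_zero.1 h3.symm).resolve_left (sub_ne_zero.2 hb)
    rw [h6, sub_zero] at h5
    exact one_ne_zero h5
  exact ⟨h4, by rw [eq_div_iff h4]; exact h3⟩

theorem fin_strip (hTd : DifferentiableOn ℂ T (HP Λ)) {x1 x2 : ℝ} (hx : x1 < x2)
    (hx2 : x2 ≤ Λ) {b : ℂ} (h : ∀ σ : ℂ, x1 < σ.re → σ.re < x2 → T σ = b) :
    ∀ σ ∈ HP Λ, T σ = b := by
  have hUo : IsOpen {σ : ℂ | x1 < σ.re ∧ σ.re < x2} :=
    (isOpen_lt continuous_const continuous_re).inter (isOpen_lt continuous_re continuous_const)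
  have hm : (((x1 + x2) / 2 : ℝ) : ℂ) ∈ {σ : ℂ | x1 < σ.re ∧ σ.re < x2} := by
    constructor
    · rw [ofReal_re]; linarith
    · rw [ofReal_re]; linarith
  have h1 := eqOn_convex (HP_conv Λ) (HP_open Λ) (f := T) (g := fun _ => b) hTd
    (differentiableOn_const b) (x := (((x1 + x2) / 2 : ℝ) : ℂ)) (lt_of_lt_of_le hm.2 hx2) (by
      filter_upwards [hUo.mem_nhds hm] with σ hσ
      exact h σ hσ.1 hσ.2)
  exact fun σ hσ => h1 hσ

theorem intW (σ : ℂ) : ∫ t in (0 : ℝ)..1,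
    exp (σ + t * (2 * Real.pi * I)) * (2 * Real.pi * I) = 0 := by
  have h1 : ∀ t ∈ uIcc (0 : ℝ) 1, HasDerivAt (fun t : ℝ => exp (σ + t * (2 * Real.pi * I)))
      (exp (σ + t * (2 * Real.pi * I)) * (2 * Real.pi * I)) t := by
    intro t _
    have h2 : HasDerivAt (fun t : ℝ => σ + t * (2 * Real.pi * I)) (2 * Real.pi * I) t := by
      have h3 := ((hasDerivAt_id t).ofReal_comp.mul_const (2 * Real.pi * I)).const_add σ
      simpa using h3
    exact h2.cexp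
  rw [intervalIntegral.integral_eq_sub_of_hasDerivAt h1]
  · have e1 : σ + ((1 : ℝ) : ℂ) * (2 * Real.pi * I) = σ + 2 * Real.pi * I := by push_cast; ring
    have e2 : σ + ((0 : ℝ) : ℂ) * (2 * Real.pi * I) = σ := by push_cast; ring
    rw [e1, e2, exp_periodic σ, sub_self]
  · refine Continuous.intervalIntegrable ?_ _ _
    exact ((continuous_const.add (continuous_ofReal.mul continuous_const)).cexp).mul
      continuous_const

theorem line_mem {σ1 : ℂ} (hσ1 : σ1 ∈ HP Λ) (t : ℝ) : σ1 + t * (2 * Real.pi * I) ∈ HP Λ := by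
  show (σ1 + t * (2 * Real.pi * I)).re < Λ
  have : (σ1 + t * (2 * Real.pi * I)).re = σ1.re := by simp
  rw [this]
  exact hσ1

theorem line_re (σ1 : ℂ) (t : ℝ) : (σ1 + t * (2 * Real.pi * I)).re = σ1.re := by simp

/-- the first moment vanishes, from the limits -/
theorem mom_lim (hLIM : S_LIM) (ha : 0 < a) (hOP : OP a Λ T)
    (hTd : DifferentiableOn ℂ T (HP Λ)) {σ1 : ℂ} (hσ1 : σ1 ∈ HP Λ) {Yf : ℂ → ℂ}
    (hY : Continuous fun t : ℝ => Yf (σ1 + t * (2 * Real.pi * I))) (z : ℕ → ℂ) (ε β : ℕ → ℂ)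
    (m : ℕ → ℕ) (hz : Tendsto z atTop (𝓝 0)) (hε : Tendsto ε atTop (𝓝 0))
    (hε0 : ∀ k, ε k ≠ 0)
    (hX : ∀ (k : ℕ) (t : ℝ), T (σ1 + t * (2 * Real.pi * I) + m k * (2 * Real.pi * I)) - β k =
      ε k * (Yf (σ1 + t * (2 * Real.pi * I)) / (1 - z k * Yf (σ1 + t * (2 * Real.pi * I))))) :
    ∫ t in (0 : ℝ)..1,
      (exp (σ1 + t * (2 * Real.pi * I)) - exp σ1) * Yf (σ1 + t * (2 * Real.pi * I)) *
        (exp (σ1 + t * (2 * Real.pi * I)) * (2 * Real.pi * I)) = 0 := by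
  have hs : Continuous fun t : ℝ => σ1 + t * (2 * Real.pi * I) :=
    continuous_const.add (continuous_ofReal.mul continuous_const)
  have hE : Continuous fun t : ℝ => exp (σ1 + t * (2 * Real.pi * I)) := hs.cexp
  refine hLIM a ha (fun t => exp (σ1 + t * (2 * Real.pi * I)) - exp σ1)
    (fun t => exp (σ1 + t * (2 * Real.pi * I)) * (2 * Real.pi * I))
    (fun t => Yf (σ1 + t * (2 * Real.pi * I)))
    (fun k t => T (σ1 + t * (2 * Real.pi * I) + m k * (2 * Real.pi * I)) - β k) ε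
    (hE.sub continuous_const) (hE.mul continuous_const) hY.continuousOn (fun k => ?_)
    (intW σ1) (fun k => ?_) hε0 hε ?_
  · refine Continuous.continuousOn ?_
    refine (hTd.continuousOn.comp_continuous (hs.add continuous_const) fun t => ?_).sub
      continuous_const
    exact HP_turnN (line_mem hσ1 t) _
  · have := kop ha hOP hTd hσ1 (m k : ℤ) (β k)
    push_cast at this
    exact this
  · refine (unif hY.continuousOn hz).congr (Eventually.of_forall fun k t _ => ?_)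
    simp only
    rw [hX k t, mul_div_cancel_left₀ _ (hε0 k)]

theorem lox (hLIM : S_LIM) (hSTR : S_STRIP) (ha : 0 < a) (hOP : OP a Λ T)
    (hTd : DifferentiableOn ℂ T (HP Λ)) (h : FL Λ T b1 b2 κ) (hb : b1 ≠ b2) (hκ0 : κ ≠ 0)
    (hκ : ‖κ‖ < 1) : ∃ b, ∀ σ ∈ HP Λ, T σ = b := by
  by_cases hc : ∀ σ ∈ HP Λ, T σ = b2
  · exact ⟨b2, hc⟩
  push Not at hc
  obtain ⟨x1, x2, hx, hx2, hne⟩ := hSTR Λ T b2 hTd (fun σ hσ => h.two hb hκ0 hσ) hc
  set Yf : ℂ → ℂ := fun σ => (T σ - b1) / (T σ - b2) with hYf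
  have hmem : ∀ σ : ℂ, σ.re < x2 → σ ∈ HP Λ := fun σ hσ => lt_of_lt_of_le hσ hx2
  have hYd : DifferentiableOn ℂ Yf {σ : ℂ | x1 < σ.re ∧ σ.re < x2} := by
    intro σ hσ
    have h1 : DifferentiableAt ℂ T σ := hTd.differentiableAt ((HP_open Λ).mem_nhds (hmem σ hσ.2))
    exact ((h1.sub_const b1).div (h1.sub_const b2)
      (sub_ne_zero.2 (hne σ hσ.1 hσ.2))).differentiableWithinAt
  have hpow : Tendsto (fun k : ℕ => κ ^ k) atTop (𝓝 0) :=
    tendsto_pow_atTop_nhds_zero_of_norm_lt_one hκ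
  have hper := prim_strip hYd (fun σ1 h1 h2 => by
    have hσ1 := hmem σ1 h2
    refine mom_lim hLIM ha hOP hTd hσ1 (Yf := Yf) ?_ (fun k => κ ^ k)
      (fun k => (b1 - b2) * κ ^ k) (fun _ => b1) id hpow ?_ (fun k =>
        mul_ne_zero (sub_ne_zero.2 hb) (pow_ne_zero _ hκ0)) fun k t => ?_
    · refine hYd.continuousOn.comp_continuous
        (continuous_const.add (continuous_ofReal.mul continuous_const)) fun t => ?_
      show x1 < (σ1 + t * (2 * Real.pi * I)).re ∧ (σ1 + t * (2 * Real.pi * I)).re < x2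
      rw [line_re]
      exact ⟨h1, h2⟩
    · have := hpow.const_mul (b1 - b2)
      rwa [mul_zero] at this
    · have h3 := (h.val hb hκ0 k (line_mem hσ1 t) (hne _ (by rw [line_re]; exact h1)
        (by rw [line_re]; exact h2))).2
      simp only [id]
      rw [h3, hYf]
      simp only
      ring)
  refine ⟨b1, fin_strip hTd hx hx2 fun σ h1 h2 => ?_⟩
  have h3 := hper σ h1 h2
  have h4 := h σ (hmem σ h2)
  have h5 : T σ - b2 ≠ 0 := sub_ne_zero.2 (hne σ h1 h2)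
  have h6 : T (σ + 2 * Real.pi * I) - b2 ≠ 0 := sub_ne_zero.2 fun h7 =>
    hne σ h1 h2 ((h.two hb hκ0 (hmem σ h2)).1 h7)
  simp only [hYf] at h3
  rw [div_eq_div_iff h6 h5, h4] at h3
  have h8 : (κ - 1) * ((T σ - b1) * (T (σ + 2 * Real.pi * I) - b2)) = 0 := by
    linear_combination h3
  have hκ1 : κ - 1 ≠ 0 := by
    intro h9
    rw [sub_eq_zero.1 h9, norm_one] at hκ
    exact lt_irrefl _ hκ
  have h9 := (mul_eq_zero.1 h8).resolve_left hκ1
  exact sub_eq_zero.1 ((mul_eq_zero.1 h9).resolve_right h6)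

theorem FL.swap (h : FL Λ T b1 b2 κ) (hκ : κ ≠ 0) : FL Λ T b2 b1 κ⁻¹ := by
  intro σ hσ
  have h1 := h σ hσ
  have h2 : κ⁻¹ * κ = 1 := inv_mul_cancel₀ hκ
  linear_combination (-κ⁻¹) * h1 + (T σ - b1) * (T (σ + 2 * Real.pi * I) - b2) * (-h2)

/-- the elliptic case, `|T - b1| < |T - b2|` -/
theorem ell1 (hFAN : S_FAN) (ha : 0 < a) (hOP : OP a Λ T)
    (hTd : DifferentiableOn ℂ T (HP Λ)) (h : FL Λ T b1 b2 κ) (hb : b1 ≠ b2)
    (hκ : ‖κ‖ = 1) (hκn : ∀ n : ℕ, 0 < n → κ ^ n ≠ 1)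
    (hlt : ∀ σ ∈ HP Λ, ‖T σ - b1‖ < ‖T σ - b2‖) : ∃ b, ∀ σ ∈ HP Λ, T σ = b := by
  have hκ0 : κ ≠ 0 := by
    intro h0
    rw [h0, norm_zero] at hκ
    exact zero_ne_one hκ
  have hne : ∀ σ ∈ HP Λ, T σ ≠ b2 := by
    intro σ hσ h1
    have := hlt σ hσ
    rw [h1, sub_self, norm_zero] at this
    exact absurd this (not_lt.2 (norm_nonneg _))
  set Yf : ℂ → ℂ := fun σ => (T σ - b1) / (T σ - b2) with hYf
  have hYd : DifferentiableOn ℂ Yf (HP Λ) := by
    intro σ hσ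
    have h1 : DifferentiableAt ℂ T σ := hTd.differentiableAt ((HP_open Λ).mem_nhds hσ)
    exact ((h1.sub_const b1).div (h1.sub_const b2)
      (sub_ne_zero.2 (hne σ hσ))).differentiableWithinAt
  have hY1 : ∀ σ ∈ HP Λ, ‖Yf σ‖ < 1 := by
    intro σ hσ
    rw [hYf]
    simp only
    rw [norm_div, div_lt_one (norm_pos_iff.2 (sub_ne_zero.2 (hne σ hσ)))]
    exact hlt σ hσ
  have hper := prim_strip (x1 := Λ - 1) (x2 := Λ) (hYd.mono fun σ hσ => hσ.2)
    (fun σ1 h1 h2 => by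
      have hσ1 : σ1 ∈ HP Λ := h2
      have hs : Continuous fun t : ℝ => σ1 + t * (2 * Real.pi * I) :=
        continuous_const.add (continuous_ofReal.mul continuous_const)
      have hYc : Continuous fun t : ℝ => Yf (σ1 + t * (2 * Real.pi * I)) :=
        hYd.continuousOn.comp_continuous hs fun t => line_mem hσ1 t
      have hE : Continuous fun t : ℝ => exp (σ1 + t * (2 * Real.pi * I)) := hs.cexp
      obtain ⟨t0, -, ht0⟩ := isCompact_Icc.exists_isMaxOn (s := Icc (0 : ℝ) 1) ⟨0, by simp⟩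
        hYc.norm.continuousOn
      refine hFAN a ha (fun t => exp (σ1 + t * (2 * Real.pi * I)) - exp σ1)
        (fun t => exp (σ1 + t * (2 * Real.pi * I)) * (2 * Real.pi * I))
        (fun t => Yf (σ1 + t * (2 * Real.pi * I))) ‖Yf (σ1 + t0 * (2 * Real.pi * I))‖
        (b1 - b2) κ (hE.sub continuous_const) (hE.mul continuous_const) hYc.continuousOn
        (hY1 _ (line_mem hσ1 t0)) (fun s hs => ht0 hs) (intW σ1) (sub_ne_zero.2 hb) hκ hκn
        fun k => ?_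
      have h3 := kop ha hOP hTd hσ1 (k : ℤ) b1
      push_cast at h3
      rw [← h3]
      refine intervalIntegral.integral_congr fun t _ => ?_
      rw [(h.val hb hκ0 k (line_mem hσ1 t) (hne _ (line_mem hσ1 t))).2])
  refine ⟨b1, fin_strip hTd (x1 := Λ - 1) (by linarith) le_rfl fun σ h1 h2 => ?_⟩
  have h3 := hper σ h1 h2
  have hσ : σ ∈ HP Λ := h2
  have h4 := h σ hσ
  have h5 : T σ - b2 ≠ 0 := sub_ne_zero.2 (hne σ hσ)
  have h6 : T (σ + 2 * Real.pi * I) - b2 ≠ 0 := sub_ne_zero.2 (hne _ (HP_one hσ))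
  simp only [hYf] at h3
  rw [div_eq_div_iff h6 h5, h4] at h3
  have h8 : (κ - 1) * ((T σ - b1) * (T (σ + 2 * Real.pi * I) - b2)) = 0 := by
    linear_combination h3
  have hκ1 : κ - 1 ≠ 0 := by
    intro h9
    have := hκn 1 one_pos
    rw [pow_one] at this
    exact this (sub_eq_zero.1 h9)
  have h9 := (mul_eq_zero.1 h8).resolve_left hκ1
  exact sub_eq_zero.1 ((mul_eq_zero.1 h9).resolve_right h6)

/-- **Two fixed points, infinite order.** -/
theorem inf_two (hLIM : S_LIM) (hFAN : S_FAN) (hSTR : S_STRIP) (hELL : S_ELL) (ha : 0 < a)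
    (hOP : OP a Λ T) (hTd : DifferentiableOn ℂ T (HP Λ)) (h : FL Λ T b1 b2 κ) (hb : b1 ≠ b2)
    (hκ0 : κ ≠ 0) (hκn : ∀ n : ℕ, 0 < n → κ ^ n ≠ 1) : ∃ b, ∀ σ ∈ HP Λ, T σ = b := by
  rcases lt_trichotomy ‖κ‖ 1 with hκ | hκ | hκ
  · exact lox hLIM hSTR ha hOP hTd h hb hκ0 hκ
  · rcases hELL Λ T b1 b2 κ hb hκ hκn hTd h with h1 | h1 | h1
    · exact h1
    · exact ell1 hFAN ha hOP hTd h hb hκ hκn h1
    · refine ell1 hFAN ha hOP hTd (h.swap hκ0) hb.symm (by rw [norm_inv, hκ, inv_one])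
        (fun n hn h2 => hκn n hn ?_) h1
      rw [inv_pow, inv_eq_one] at h2
      exact h2
  · refine lox hLIM hSTR ha hOP hTd (h.swap hκ0) hb.symm (inv_ne_zero hκ0) ?_
    rw [norm_inv]
    exact inv_lt_one_of_one_lt₀ hκ

/-- the monodromy in terms of one fixed point -/
def FP (Λ : ℝ) (T : ℂ → ℂ) (b0 c0 : ℂ) : Prop := ∀ σ ∈ HP Λ,
  (T (σ + 2 * Real.pi * I) - b0) * (1 + c0 * (T σ - b0)) = T σ - b0

theorem FP.one (h : FP Λ T b0 c0) {σ : ℂ} (hσ : σ ∈ HP Λ) :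
    T (σ + 2 * Real.pi * I) = b0 ↔ T σ = b0 := by
  have h1 := h σ hσ
  constructor
  · intro h2
    rw [h2, sub_self, zero_mul] at h1
    exact sub_eq_zero.1 h1.symm
  · intro h2
    rw [h2, sub_self, mul_zero, add_zero, mul_one] at h1
    exact sub_eq_zero.1 h1

theorem FP.iter (h : FP Λ T b0 c0) (m : ℕ) {σ : ℂ} (hσ : σ ∈ HP Λ) (h2 : T σ ≠ b0) :
    T (σ + m * (2 * Real.pi * I)) ≠ b0 ∧
      1 / (T (σ + m * (2 * Real.pi * I)) - b0) = 1 / (T σ - b0) + m * c0 := by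
  induction m with
  | zero =>
    rw [Nat.cast_zero, zero_mul, add_zero, zero_mul, add_zero]
    exact ⟨h2, rfl⟩
  | succ m ih =>
    obtain ⟨i1, i2⟩ := ih
    have e : σ + ((m + 1 : ℕ) : ℂ) * (2 * Real.pi * I) =
        σ + m * (2 * Real.pi * I) + 2 * Real.pi * I := by push_cast; ring
    have hm := HP_turnN hσ m
    have h3 : T (σ + m * (2 * Real.pi * I) + 2 * Real.pi * I) ≠ b0 := fun h4 =>
      i1 ((h.one hm).1 h4)
    rw [e]
    refine ⟨h3, ?_⟩
    have h4 := h _ hm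
    have h5 : T (σ + m * (2 * Real.pi * I)) - b0 ≠ 0 := sub_ne_zero.2 i1
    have h6 : T (σ + m * (2 * Real.pi * I) + 2 * Real.pi * I) - b0 ≠ 0 := sub_ne_zero.2 h3
    have h7 : 1 / (T (σ + m * (2 * Real.pi * I) + 2 * Real.pi * I) - b0) =
        1 / (T (σ + m * (2 * Real.pi * I)) - b0) + c0 := by
      rw [div_add' _ _ _ h5, div_eq_div_iff h6 h5]
      linear_combination -h4
    rw [h7, i2]
    push_cast
    ring

/-- **One fixed point.** -/
theorem inf_one (hLIM : S_LIM) (hSTR : S_STRIP) (ha : 0 < a) (hOP : OP a Λ T)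
    (hTd : DifferentiableOn ℂ T (HP Λ)) (h : FP Λ T b0 c0) (hc0 : c0 ≠ 0) :
    ∃ b, ∀ σ ∈ HP Λ, T σ = b := by
  by_cases hc : ∀ σ ∈ HP Λ, T σ = b0
  · exact ⟨b0, hc⟩
  push Not at hc
  exfalso
  obtain ⟨x1, x2, hx, hx2, hne⟩ := hSTR Λ T b0 hTd (fun σ hσ => h.one hσ) hc
  set Yf : ℂ → ℂ := fun σ => 1 / (T σ - b0) with hYf
  have hmem : ∀ σ : ℂ, σ.re < x2 → σ ∈ HP Λ := fun σ hσ => lt_of_lt_of_le hσ hx2
  have hYd : DifferentiableOn ℂ Yf {σ : ℂ | x1 < σ.re ∧ σ.re < x2} := by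
    intro σ hσ
    have h1 : DifferentiableAt ℂ T σ := hTd.differentiableAt ((HP_open Λ).mem_nhds (hmem σ hσ.2))
    exact ((differentiableAt_const _).div (h1.sub_const b0)
      (sub_ne_zero.2 (hne σ hσ.1 hσ.2))).differentiableWithinAt
  have hk1 : ∀ k : ℕ, ((k : ℂ) + 1) * c0 ≠ 0 := fun k =>
    mul_ne_zero (by exact_mod_cast k.succ_ne_zero) hc0
  have hz : Tendsto (fun k : ℕ => -(1 / (((k : ℂ) + 1) * c0))) atTop (𝓝 0) := by
    have h1 : Tendsto (fun k : ℕ => 1 / ((k : ℂ) + 1)) atTop (𝓝 0) :=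
      tendsto_one_div_add_atTop_nhds_zero_nat
    have h2 := (h1.mul_const (c0⁻¹)).neg
    rw [zero_mul, neg_zero] at h2
    refine h2.congr fun k => ?_
    rw [one_div, one_div, mul_inv]
  have hε : Tendsto (fun k : ℕ => -(1 / (((k : ℂ) + 1) * c0)) ^ 2) atTop (𝓝 0) := by
    have h1 := (hz.pow 2).neg
    rw [zero_pow two_ne_zero, neg_zero] at h1
    refine h1.congr fun k => ?_
    rw [neg_sq]
  have hper := prim_strip hYd (fun σ1 h1 h2 => by
    have hσ1 := hmem σ1 h2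
    refine mom_lim hLIM ha hOP hTd hσ1 (Yf := Yf) ?_ (fun k => -(1 / (((k : ℂ) + 1) * c0)))
      (fun k => -(1 / (((k : ℂ) + 1) * c0)) ^ 2) (fun k => b0 + 1 / (((k : ℂ) + 1) * c0))
      (fun k => k + 1) hz hε (fun k => neg_ne_zero.2 (pow_ne_zero _ (one_div_ne_zero (hk1 k))))
      fun k t => ?_
    · refine hYd.continuousOn.comp_continuous
        (continuous_const.add (continuous_ofReal.mul continuous_const)) fun t => ?_
      show x1 < (σ1 + t * (2 * Real.pi * I)).re ∧ (σ1 + t * (2 * Real.pi * I)).re < x2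
      rw [line_re]
      exact ⟨h1, h2⟩
    · obtain ⟨h3, h4⟩ := h.iter (k + 1) (line_mem hσ1 t) (hne _ (by rw [line_re]; exact h1)
        (by rw [line_re]; exact h2))
      have h5 : T (σ1 + t * (2 * Real.pi * I) + ((k + 1 : ℕ) : ℂ) * (2 * Real.pi * I)) - b0 ≠ 0 :=
        sub_ne_zero.2 h3
      rw [hYf]
      simp only
      set A := T (σ1 + t * (2 * Real.pi * I) + ((k + 1 : ℕ) : ℂ) * (2 * Real.pi * I)) with hA
      set y := 1 / (T (σ1 + t * (2 * Real.pi * I)) - b0) with hy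
      set K := ((k : ℂ) + 1) * c0 with hK
      have hKy : 1 / (A - b0) = y + K := by rw [h4, hK]; push_cast; rfl
      have hK0 : K ≠ 0 := hk1 k
      have hyK : y + K ≠ 0 := by rw [← hKy]; exact one_div_ne_zero h5
      have hA0 : A - b0 = 1 / (y + K) := by rw [← hKy, one_div_one_div]
      have e1 : A - (b0 + 1 / K) = 1 / (y + K) - 1 / K := by rw [← hA0]; ring
      rw [e1]
      have e2 : 1 - -(1 / K) * y = (y + K) / K := by field_simp; ring
      rw [e2]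
      field_simp
      ring)
  set σ : ℂ := (((x1 + x2) / 2 : ℝ) : ℂ) with hσ
  have h1 : x1 < σ.re := by rw [hσ, ofReal_re]; linarith
  have h2 : σ.re < x2 := by rw [hσ, ofReal_re]; linarith
  have h3 := hper σ h1 h2
  have h4 := (h.iter 1 (hmem σ h2) (hne σ h1 h2)).2
  rw [Nat.cast_one, one_mul, one_mul] at h4
  simp only [hYf] at h3
  rw [h3] at h4
  exact hc0 (by linear_combination -h4)

end Pool.Agent.E8helper32.SQ
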