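import Mathlib

/-!
# Statements of the pieces: Schwarzian derivative with a closed countable set of singularities
-/

set_option autoImplicit false

open Complex MeasureTheory Metric Set Filter Topology

namespace Pool.Agent.E8helper32.SQ

/-- the Schwarzian derivative -/
noncomputable def Sw (f : ℂ → ℂ) (w : ℂ) : ℂ :=
  deriv (deriv (deriv f)) w / deriv f w - 3 / 2 * (deriv (deriv f) w / deriv f w) ^ 2

/-- the kernel `∑ (-a)^(l+1) y^l / (l!)^2` -/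
noncomputable def Kf (a : ℝ) (y : ℂ) : ℂ :=
  ∑' l : ℕ, (-(a : ℂ)) ^ (l + 1) * y ^ l / (l.factorial : ℂ) ^ 2

/-- an isolated point of a countable relatively closed set -/
def S_ISO : Prop := ∀ (U A : Set ℂ), IsOpen U → A ⊆ U → IsOpen (U \ A) → A.Countable →
  A.Nonempty → ∃ x ∈ A, ∃ ε : ℝ, 0 < ε ∧ ∀ y ∈ ball x ε, y ∈ A → y = x

/-- a disc without a countable set is connected -/
def S_CONN : Prop := ∀ (c : ℂ) (ρ : ℝ) (A : Set ℂ), A.Countable → IsPreconnected (ball c ρ \ A)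

/-- the zeros of a holomorphic function in a disc are countable -/
def S_CNT : Prop := ∀ (c : ℂ) (ρ : ℝ) (f : ℂ → ℂ), DifferentiableOn ℂ f (ball c ρ) →
  (∃ z ∈ ball c ρ, f z ≠ 0) → {z | z ∈ ball c ρ ∧ f z = 0}.Countable

/-- functions with the same Schwarzian derivative -/
def S_MOB : Prop := ∀ (f g : ℂ → ℂ) (z : ℂ), AnalyticAt ℂ f z → AnalyticAt ℂ g z →
  deriv f z ≠ 0 → deriv g z ≠ 0 → Sw f =ᶠ[𝓝 z] Sw g →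
  ∃ a b c d : ℂ, a * d - b * c ≠ 0 ∧
    ∀ᶠ w in 𝓝 z, c * f w + d ≠ 0 ∧ g w * (c * f w + d) = a * f w + b

/-- functions with a given Schwarzian derivative -/
def S_ODE : Prop := ∀ (Q : ℂ → ℂ) (y : ℂ), AnalyticAt ℂ Q y → ∃ (δ : ℝ) (f : ℂ → ℂ), 0 < δ ∧
  DifferentiableOn ℂ f (ball y δ) ∧ InjOn f (ball y δ) ∧
  ∀ w ∈ ball y δ, deriv f w ≠ 0 ∧ Sw f w = Q w

/-- the first order term of the identities -/
def S_LIM : Prop := ∀ (a : ℝ), 0 < a → ∀ (x W U : ℝ → ℂ) (X : ℕ → ℝ → ℂ) (ε : ℕ → ℂ),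
  Continuous x → Continuous W → ContinuousOn U (Icc 0 1) →
  (∀ k, ContinuousOn (X k) (Icc 0 1)) → (∫ s in (0 : ℝ)..1, W s = 0) →
  (∀ k, ∫ s in (0 : ℝ)..1, Kf a (x s * X k s) * W s = 0) →
  (∀ k, ε k ≠ 0) → Tendsto ε atTop (𝓝 0) →
  TendstoUniformlyOn (fun k s => X k s / ε k) U atTop (Icc 0 1) →
  ∫ s in (0 : ℝ)..1, x s * U s * W s = 0

/-- the elliptic case -/
def S_FAN : Prop := ∀ (a : ℝ), 0 < a → ∀ (x W Y : ℝ → ℂ) (ρ : ℝ) (c κ : ℂ),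
  Continuous x → Continuous W → ContinuousOn Y (Icc 0 1) → ρ < 1 →
  (∀ s ∈ Icc (0 : ℝ) 1, ‖Y s‖ ≤ ρ) → (∫ s in (0 : ℝ)..1, W s = 0) → c ≠ 0 → ‖κ‖ = 1 →
  (∀ n : ℕ, 0 < n → κ ^ n ≠ 1) →
  (∀ k : ℕ, ∫ s in (0 : ℝ)..1,
    Kf a (x s * (c * (κ ^ k * Y s) / (1 - κ ^ k * Y s))) * W s = 0) →
  ∫ s in (0 : ℝ)..1, x s * Y s * W s = 0

/-- the half-plane -/
def HP (L : ℝ) : Set ℂ := {σ | σ.re < L}

/-- a strip without the value `b` -/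
def S_STRIP : Prop := ∀ (L : ℝ) (T : ℂ → ℂ) (b : ℂ), DifferentiableOn ℂ T (HP L) →
  (∀ σ ∈ HP L, T (σ + 2 * Real.pi * I) = b ↔ T σ = b) → (∃ σ ∈ HP L, T σ ≠ b) →
  ∃ x1 x2 : ℝ, x1 < x2 ∧ x2 ≤ L ∧ ∀ σ : ℂ, x1 < σ.re → σ.re < x2 → T σ ≠ b

/-- elliptic monodromy of infinite order -/
def S_ELL : Prop := ∀ (L : ℝ) (T : ℂ → ℂ) (b1 b2 κ : ℂ), b1 ≠ b2 → ‖κ‖ = 1 →
  (∀ n : ℕ, 0 < n → κ ^ n ≠ 1) → DifferentiableOn ℂ T (HP L) →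
  (∀ σ ∈ HP L, (T (σ + 2 * Real.pi * I) - b1) * (T σ - b2) =
    κ * ((T σ - b1) * (T (σ + 2 * Real.pi * I) - b2))) →
  (∃ b : ℂ, ∀ σ ∈ HP L, T σ = b) ∨ (∀ σ ∈ HP L, ‖T σ - b1‖ < ‖T σ - b2‖) ∨
    ∀ σ ∈ HP L, ‖T σ - b2‖ < ‖T σ - b1‖

end Pool.Agent.E8helper32.SQ
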