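import Pool.Agent.E8helper32.SP.Irr
import Pool.Agent.E8helper32.SQ.Stm

/-!
# The identity with the kernel `Kf`
-/

set_option autoImplicit false

open Complex MeasureTheory Metric Set Filter Topology ComplexConjugate

namespace Pool.Agent.E8helper32.SQ

open Pool.Agent.Y245.SC
open Pool.Agent.Y953.SC (e1 norm_e1 sum1 coeff_zero)
open Pool.Agent.E8helper32.SA (kers hs_congr family)
open Pool.Agent.E8helper32.SP (OP turns exp_turns two_pi_re)

theorem kf_term_bd {a : ℝ} (ha : 0 < a) (y : ℂ) (l : ℕ) :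
    ‖(-(a : ℂ)) ^ (l + 1) * y ^ l / (l.factorial : ℂ) ^ 2‖ ≤
      a * ((a * ‖y‖) ^ l / (l.factorial : ℝ)) := by
  rw [norm_div, norm_mul, norm_pow, norm_pow, norm_pow, norm_neg, norm_real,
    Real.norm_of_nonneg ha.le, Complex.norm_natCast]
  have hf : (1 : ℝ) ≤ (l.factorial : ℝ) := by exact_mod_cast l.factorial_pos
  have hf0 : (0 : ℝ) < (l.factorial : ℝ) := by linarith
  have e : a ^ (l + 1) * ‖y‖ ^ l / (l.factorial : ℝ) ^ 2 =
      a * ((a * ‖y‖) ^ l / (l.factorial : ℝ)) * (1 / (l.factorial : ℝ)) := by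
    rw [mul_pow, pow_succ]
    field_simp
  rw [e]
  have h1 : 1 / (l.factorial : ℝ) ≤ 1 := (div_le_one hf0).2 hf
  calc a * ((a * ‖y‖) ^ l / (l.factorial : ℝ)) * (1 / (l.factorial : ℝ))
      ≤ a * ((a * ‖y‖) ^ l / (l.factorial : ℝ)) * 1 := by gcongr
    _ = _ := mul_one _

theorem kf_hasSum {a : ℝ} (ha : 0 < a) (y : ℂ) :
    HasSum (fun l : ℕ => (-(a : ℂ)) ^ (l + 1) * y ^ l / (l.factorial : ℂ) ^ 2) (Kf a y) := by
  refine (Summable.of_norm_bounded ?_ (kf_term_bd ha y)).hasSum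
  exact (Real.summable_pow_div_factorial (a * ‖y‖)).mul_left a

/-- the identities give `∫ Kf = 0` -/
theorem kid {a : ℝ} (ha : 0 < a) {x X W : ℝ → ℂ} (hx : Continuous x) (hX : Continuous X)
    (hW : Continuous W) {Δ : ℂ} (h : ∀ b : ℂ, ∫ s in (0 : ℝ)..1,
      (X s - b) ^ 2 * kap a ((X s - b) * x s) * W s = Δ) :
    ∫ s in (0 : ℝ)..1, Kf a (x s * X s) * W s = 0 := by
  have hk : S_KAP := Pool.Agent.Y769.SC.kap
  obtain ⟨B, hB, hXB, hxB, hWB⟩ : ∃ B : ℝ, 1 ≤ B ∧ (∀ ω ∈ Icc (0 : ℝ) 1, ‖X ω‖ ≤ B) ∧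
      (∀ ω ∈ Icc (0 : ℝ) 1, ‖x ω‖ ≤ B) ∧ ∀ ω ∈ Icc (0 : ℝ) 1, ‖W ω‖ ≤ B := by
    obtain ⟨B1, h1⟩ := isCompact_Icc.exists_bound_of_continuousOn (s := Icc (0 : ℝ) 1)
      hX.continuousOn
    obtain ⟨B2, h2⟩ := isCompact_Icc.exists_bound_of_continuousOn (s := Icc (0 : ℝ) 1)
      hx.continuousOn
    obtain ⟨B3, h3⟩ := isCompact_Icc.exists_bound_of_continuousOn (s := Icc (0 : ℝ) 1)
      hW.continuousOn
    refine ⟨max 1 (max B1 (max B2 B3)), le_max_left _ _, fun ω hω => ?_, fun ω hω => ?_,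
      fun ω hω => ?_⟩
    · exact (h1 ω hω).trans ((le_max_left _ _).trans (le_max_right _ _))
    · exact (h2 ω hω).trans ((le_max_left _ _).trans ((le_max_right _ _).trans
        (le_max_right _ _)))
    · exact (h3 ω hω).trans ((le_max_right _ _).trans ((le_max_right _ _).trans
        (le_max_right _ _)))
  have hB0 : 0 ≤ B := by linarith
  have ce1 : ∀ m, Continuous (fun ω => e1 a (x ω) m) := by
    intro m
    match m with
    | 0 => exact continuous_const
    | 1 => exact continuous_const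
    | k + 2 => exact (continuous_const.mul (hx.pow k)).div_const _
  have f1 := family (e := fun m ω => e1 a (x ω) m) (s := X) (W := W) (C := 1)
    (K := (a + 1) * B) (B := B) (D := B) zero_le_one (by positivity) (by positivity) ce1
    hX hW
    (fun m ω hω => norm_e1 ha hB (hxB ω hω) m) (fun ω hω => hXB ω hω) hWB
    (fun t ω _ => sum1 hk ha (x ω) (X ω) t)
    (Δ := Δ) (fun t => by
      rw [← h (-t)]
      simp only [sub_neg_eq_add, sub_zero]) 2 (by norm_num)
  set F : ℕ → ℝ → ℂ := fun l ω => (-(a : ℂ)) ^ (l + 1) * (x ω * X ω) ^ l /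
    (l.factorial : ℂ) ^ 2 * W ω with hF
  have h1 : HasSum (fun l => ∫ ω in (0 : ℝ)..1, F l ω) 0 := by
    refine hs_congr f1 fun l => ?_
    congr 1
    ext ω
    have e : e1 a (x ω) (l + 2) = (-(a : ℂ)) ^ (l + 1) * x ω ^ l / (l.factorial : ℂ) := rfl
    rw [e, hF]
    have hf : (l.factorial : ℂ) ≠ 0 := by exact_mod_cast l.factorial_ne_zero
    simp only
    rw [mul_pow]
    field_simp
  have h2 : HasSum (fun l => ∫ ω in (0 : ℝ)..1, F l ω)
      (∫ ω in (0 : ℝ)..1, Kf a (x ω * X ω) * W ω) := by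
    refine intervalIntegral.hasSum_integral_of_dominated_convergence
      (fun l _ => a * ((a * (B * B)) ^ l / (l.factorial : ℝ)) * B) (fun l => ?_) (fun l => ?_)
      (Eventually.of_forall fun t _ => ?_) ?_ (Eventually.of_forall fun t _ => ?_)
    · have : Continuous (F l) := by
        rw [hF]
        exact ((continuous_const.mul ((hx.mul hX).pow l)).div_const _).mul hW
      exact this.aestronglyMeasurable
    · refine Eventually.of_forall fun t ht => ?_
      rw [uIoc_of_le zero_le_one] at ht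
      have ht' : t ∈ Icc (0 : ℝ) 1 := ⟨ht.1.le, ht.2⟩
      rw [hF]
      simp only
      rw [norm_mul]
      have g1 := kf_term_bd ha (x t * X t) l
      have g2 := hWB t ht'
      have g3 : ‖x t * X t‖ ≤ B * B := by
        rw [norm_mul]
        have g4 := hxB t ht'
        have g5 := hXB t ht'
        gcongr
      calc ‖(-(a : ℂ)) ^ (l + 1) * (x t * X t) ^ l / (l.factorial : ℂ) ^ 2‖ * ‖W t‖
          ≤ (a * ((a * ‖x t * X t‖) ^ l / (l.factorial : ℝ))) * B := by gcongr
        _ ≤ (a * ((a * (B * B)) ^ l / (l.factorial : ℝ))) * B := by gcongr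
    · exact ((Real.summable_pow_div_factorial (a * (B * B))).mul_left a).mul_right B
    · exact intervalIntegrable_const
    · exact (kf_hasSum ha _).mul_right _
  exact h2.unique h1

/-- the open path identities for all branches -/
theorem kop {a Λ : ℝ} {T : ℂ → ℂ} (ha : 0 < a) (hOP : OP a Λ T)
    (hTd : DifferentiableOn ℂ T (re ⁻¹' Iio Λ)) {σ1 : ℂ} (hσ1 : σ1.re < Λ) (m : ℤ) (b : ℂ) :
    ∫ t in (0 : ℝ)..1, Kf a ((exp (σ1 + t * (2 * Real.pi * I)) - exp σ1) *
      (T (σ1 + t * (2 * Real.pi * I) + m * (2 * Real.pi * I)) - b)) *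
      (exp (σ1 + t * (2 * Real.pi * I)) * (2 * Real.pi * I)) = 0 := by
  have hline : ∀ t : ℝ, σ1 + t * (2 * Real.pi * I) + m * (2 * Real.pi * I) ∈
      (re ⁻¹' Iio Λ : Set ℂ) := by
    intro t
    rw [mem_preimage, two_pi_re]
    have : (σ1 + t * (2 * Real.pi * I)).re = σ1.re := by simp
    rw [this]
    exact hσ1
  have hs : Continuous fun t : ℝ => σ1 + t * (2 * Real.pi * I) :=
    continuous_const.add (continuous_ofReal.mul continuous_const)
  have hTc : Continuous fun t : ℝ =>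
      T (σ1 + t * (2 * Real.pi * I) + m * (2 * Real.pi * I)) - b :=
    (hTd.continuousOn.comp_continuous (hs.add continuous_const) hline).sub continuous_const
  have hE : Continuous fun t : ℝ => exp (σ1 + t * (2 * Real.pi * I)) := hs.cexp
  have hσm : (σ1 + m * (2 * Real.pi * I)).re < Λ := by rw [two_pi_re]; exact hσ1
  refine kid ha (x := fun t => exp (σ1 + t * (2 * Real.pi * I)) - exp σ1)
    (X := fun t => T (σ1 + t * (2 * Real.pi * I) + m * (2 * Real.pi * I)) - b)
    (W := fun t => exp (σ1 + t * (2 * Real.pi * I)) * (2 * Real.pi * I))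
    (hE.sub continuous_const) hTc (hE.mul continuous_const)
    (Δ := T (σ1 + m * (2 * Real.pi * I) + 2 * Real.pi * I) - T (σ1 + m * (2 * Real.pi * I)))
    fun b' => ?_
  rw [hOP _ hσm (b + b')]
  unfold seg kers
  refine intervalIntegral.integral_congr fun t _ => ?_
  have e2 : σ1 + m * (2 * Real.pi * I) + 2 * Real.pi * I - (σ1 + m * (2 * Real.pi * I)) =
      2 * Real.pi * I := by ring
  have e3 : σ1 + m * (2 * Real.pi * I) + t * (2 * Real.pi * I) =
      σ1 + t * (2 * Real.pi * I) + m * (2 * Real.pi * I) := by ring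
  simp only
  rw [e2, e3, exp_turns, exp_turns]
  have e4 : T (σ1 + t * (2 * Real.pi * I) + m * (2 * Real.pi * I)) - b - b' =
      T (σ1 + t * (2 * Real.pi * I) + m * (2 * Real.pi * I)) - (b + b') := by ring
  rw [e4]
  ring

end Pool.Agent.E8helper32.SQ
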