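import Pool.Agent.E8helper32.SQ.Inf
import Pool.Agent.E8helper32.SP.Id

/-!
# The local theorem for Moebius monodromy
-/

set_option autoImplicit false

open Complex MeasureTheory Metric Set Filter Topology ComplexConjugate

namespace Pool.Agent.E8helper32.SQ

open Pool.Agent.Results.MP_83fd13_an.BranchSingularities
open Pool.Agent.Y245.SC (seg t_SEG Ess)
open Pool.Agent.Y245.UC (Rf VG)
open Pool.Agent.E8helper32.SA (per per_re exp_add_per log_lift log_eq eqOn_convex branch_norm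
  branch_diff branch_congr branch_ball ext_of_slow convex_cont exp_sub_lt Fz_mem Ji JB)
open Pool.Agent.E8helper32.SL
open Pool.Agent.E8helper32.SP

variable {φ : ℂ → ℂ} {r : ℝ} {w1 : ℂ} {L : ℝ} {G : ℂ → ℂ} {Λ : ℝ} {ℓ : ℂ → ℂ}
  {T : ℂ → ℂ} {a b c d b1 b2 κ : ℂ}

/-- the monodromy relation -/
def MR (Λ : ℝ) (T : ℂ → ℂ) (a b c d : ℂ) : Prop := ∀ σ ∈ HP Λ,
  T (σ + 2 * Real.pi * I) * (c * T σ + d) = a * T σ + b

/-- fixed points -/
theorem MR.forms (h : MR Λ T a b c d) (hc : c ≠ 0) (hdet : a * d - b * c ≠ 0) :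
    (∃ b0 c0, c0 ≠ 0 ∧ FP Λ T b0 c0) ∨
      ∃ b1 b2 κ, b1 ≠ b2 ∧ κ ≠ 0 ∧ κ ≠ 1 ∧ FL Λ T b1 b2 κ := by
  obtain ⟨s, hs⟩ := IsAlgClosed.exists_pow_nat_eq ((d - a) ^ 2 + 4 * b * c) two_pos
  have h2 : (2 : ℂ) ≠ 0 := two_ne_zero
  by_cases hs0 : s = 0
  · left
    have h1 : (a + d) ^ 2 = 4 * (a * d - b * c) := by
      rw [hs0] at hs
      linear_combination -hs
    have had : a + d ≠ 0 := by
      intro h3
      rw [h3] at h1
      apply hdet
      linear_combination -h1 / 4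
    refine ⟨(a - d) / (2 * c), 2 * c / (a + d), div_ne_zero (mul_ne_zero h2 hc) had, ?_⟩
    intro σ hσ
    have h3 := h σ hσ
    have e1 : 1 + 2 * c / (a + d) * (T σ - (a - d) / (2 * c)) = (c * T σ + d) * (2 / (a + d)) := by
      field_simp
      ring
    rw [e1]
    have e2 : (T (σ + 2 * Real.pi * I) - (a - d) / (2 * c)) * ((c * T σ + d) * (2 / (a + d))) =
        (a * T σ + b - (a - d) / (2 * c) * (c * T σ + d)) * (2 / (a + d)) := by
      rw [← h3]; ring
    rw [e2]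
    rw [hs0] at hs
    have hb : b = -(a - d) ^ 2 / (4 * c) := by
      field_simp
      linear_combination -hs
    rw [hb]
    field_simp
    ring
  · right
    have hprod : ((a + d) - s) * ((a + d) + s) = 4 * (a * d - b * c) := by
      linear_combination -hs
    have hp1 : (a + d) - s ≠ 0 := by
      intro h3
      rw [h3, zero_mul] at hprod
      apply hdet
      linear_combination -hprod / 4
    have hp2 : (a + d) + s ≠ 0 := by
      intro h3
      rw [h3, mul_zero] at hprod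
      apply hdet
      linear_combination -hprod / 4
    refine ⟨((a - d) + s) / (2 * c), ((a - d) - s) / (2 * c), ((a + d) - s) / ((a + d) + s),
      ?_, div_ne_zero hp1 hp2, ?_, ?_⟩
    · intro h3
      rw [div_left_inj' (mul_ne_zero h2 hc)] at h3
      apply hs0
      linear_combination h3 / 2
    · intro h3
      rw [div_eq_one_iff_eq hp2] at h3
      apply hs0
      linear_combination -h3 / 2
    · intro σ hσ
      have h3 := h σ hσ
      have hN : c * T σ + d ≠ 0 := by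
        intro hN
        rw [hN, mul_zero] at h3
        apply hdet
        linear_combination a * hN + c * h3
      have hb : b = (s ^ 2 - (d - a) ^ 2) / (4 * c) := by
        field_simp
        linear_combination -hs
      have hT' : T (σ + 2 * Real.pi * I) = (a * T σ + b) / (c * T σ + d) := by
        rw [eq_div_iff hN]; exact h3
      have f1 : (T (σ + 2 * Real.pi * I) - ((a - d) + s) / (2 * c)) * (c * T σ + d) =
          ((a + d) - s) / 2 * (T σ - ((a - d) + s) / (2 * c)) := by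
        rw [sub_mul, h3, hb]
        field_simp
        ring
      have f2 : (T (σ + 2 * Real.pi * I) - ((a - d) - s) / (2 * c)) * (c * T σ + d) =
          ((a + d) + s) / 2 * (T σ - ((a - d) - s) / (2 * c)) := by
        rw [sub_mul, h3, hb]
        field_simp
        ring
      refine mul_right_cancel₀ hN ?_
      have e1 : (T (σ + 2 * Real.pi * I) - ((a - d) + s) / (2 * c)) *
          (T σ - ((a - d) - s) / (2 * c)) * (c * T σ + d) =
          ((a + d) - s) / 2 * (T σ - ((a - d) + s) / (2 * c)) *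
          (T σ - ((a - d) - s) / (2 * c)) := by
        rw [← f1]; ring
      have e2 : ((a + d) - s) / ((a + d) + s) * ((T σ - ((a - d) + s) / (2 * c)) *
          (T (σ + 2 * Real.pi * I) - ((a - d) - s) / (2 * c))) * (c * T σ + d) =
          ((a + d) - s) / ((a + d) + s) * (T σ - ((a - d) + s) / (2 * c)) *
          (((a + d) + s) / 2 * (T σ - ((a - d) - s) / (2 * c))) := by
        rw [← f2]; ring
      rw [e1, e2]
      field_simp

/-- the monodromy of `T` from the one of `G` -/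
theorem Ts_MR (hC : Co φ r w1 L Λ ℓ)
    (hG : ∀ τ : ℂ, τ.re < L → G (τ + per 1) * (c * G τ + d) = a * G τ + b) :
    MR Λ (Ts G ℓ) (-conj d) (conj b) (conj c) (-conj a) := by
  intro σ hσ
  have hσ' : σ.re < Λ := hσ
  unfold Ts
  have e0 : σ + 2 * Real.pi * I = σ + per 1 := by rw [per_one]
  rw [e0, exp_add_per]
  have h1 : conj (σ + per 1 + ℓ (exp σ)) = conj (σ + ℓ (exp σ)) - per 1 := by
    rw [map_add, map_add, conj_per, map_add]
    ring
  have h2 := hG (conj (σ + ℓ (exp σ)) - per 1) (by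
    rw [sub_re, per_re, sub_zero, conj_re]
    exact hC.re_lt hσ')
  rw [sub_add_cancel] at h2
  rw [h1]
  generalize conj (σ + ℓ (exp σ)) = u at h2 ⊢
  have h3 := congrArg conj h2
  rw [map_mul, map_add, map_mul, map_add, map_mul] at h3
  linear_combination h3

theorem FL.two_iter (h : FL Λ T b1 b2 κ) (hb : b1 ≠ b2) (hκ : κ ≠ 0) (m : ℕ) {σ : ℂ}
    (hσ : σ ∈ HP Λ) (h2 : T σ = b2) : T (σ + m * (2 * Real.pi * I)) = b2 := by
  induction m with
  | zero => rw [Nat.cast_zero, zero_mul, add_zero]; exact h2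
  | succ m ih =>
    have e : σ + ((m + 1 : ℕ) : ℂ) * (2 * Real.pi * I) =
        σ + m * (2 * Real.pi * I) + 2 * Real.pi * I := by push_cast; ring
    rw [e, h.two hb hκ (HP_turnN hσ m)]
    exact ih

theorem FL.periodic (h : FL Λ T b1 b2 κ) (hb : b1 ≠ b2) (hκ : κ ≠ 0) {m : ℕ} (hm : κ ^ m = 1)
    {σ : ℂ} (hσ : σ ∈ HP Λ) : T (σ + m * (2 * Real.pi * I)) = T σ := by
  by_cases h2 : T σ = b2
  · rw [h.two_iter hb hκ m hσ h2, h2]
  · obtain ⟨-, h3⟩ := h.iter hb hκ m hσ h2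
    rw [hm, one_mul] at h3
    have h4 : T σ - b2 ≠ 0 := sub_ne_zero.2 h2
    rw [div_mul_eq_mul_div, eq_div_iff h4] at h3
    have h5 : (b1 - b2) * (T (σ + m * (2 * Real.pi * I)) - T σ) = 0 := by
      linear_combination h3
    exact sub_eq_zero.1 ((mul_eq_zero.1 h5).resolve_left (sub_ne_zero.2 hb))

/-- the constant case -/
theorem loc_const (hG : P0 φ r w1 L G) {lam : ℝ} (hlam : 0 < lam)
    (hBU : BranchesBlowUp φ r lam) (hNF : NoFiniteIsolatedSingularity φ r)
    (hVG : ∀ (z : ℂ) (f : ℂ → ℂ), Branch φ r z f → ∀ b,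
      VG (lam / 4) φ b (1 / conj z) (Rf f))
    (hB : ∀ w ∈ ball w1 (Real.exp L), 1 < ‖w‖) (hC : Co φ r w1 L Λ ℓ)
    (hconst : ∃ b, ∀ σ ∈ HP Λ, Ts G ℓ σ = b) :
    ∃ E : ℂ → ℂ, DifferentiableOn ℂ E (ball w1 (Real.exp L)) ∧
      ∀ τ : ℂ, τ.re < L → G τ = E (w1 + exp τ) := by
  obtain ⟨b0, hconst⟩ := hconst
  obtain ⟨δ, B, hδ, hinv⟩ := inv_co' (G := G) hG.hD hG.hw1 hC
  refine loc_of_per hG hlam hBU hNF hVG hB (x0 := Real.log δ) fun τ hτ hτ2 => ?_
  have hGc : ∀ τ : ℂ, τ.re < Real.log δ → conj (G τ) = b0 := by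
    intro τ hτ
    obtain ⟨σ, h1, h2, -, -⟩ := hinv τ (by
      rw [norm_exp, ← Real.lt_log_iff_exp_lt hδ]; exact hτ)
    rw [← h2]
    exact hconst σ h1
  have h1 := hGc τ hτ2
  have h2 := hGc (τ + per 1) (by rw [add_re, per_re, add_zero]; exact hτ2)
  rw [← h1] at h2
  have := congrArg conj h2
  rwa [conj_conj, conj_conj] at this

/-- finite order -/
theorem loc_fin (hG : P0 φ r w1 L G) {lam : ℝ} (hlam : 0 < lam)
    (hBU : BranchesBlowUp φ r lam) (hNF : NoFiniteIsolatedSingularity φ r)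
    (hVG : ∀ (z : ℂ) (f : ℂ → ℂ), Branch φ r z f → ∀ b,
      VG (lam / 4) φ b (1 / conj z) (Rf f))
    (hB : ∀ w ∈ ball w1 (Real.exp L), 1 < ‖w‖) (hC : Co φ r w1 L Λ ℓ)
    (hb : b1 ≠ b2) (hκ0 : κ ≠ 0) (hκ1 : κ ≠ 1) (hFL : FL Λ (Ts G ℓ) b1 b2 κ) {q : ℕ}
    (hq2 : 2 ≤ q) (hq : κ ^ q = 1) :
    ∃ E : ℂ → ℂ, DifferentiableOn ℂ E (ball w1 (Real.exp L)) ∧
      ∀ τ : ℂ, τ.re < L → G τ = E (w1 + exp τ) := by
  have ha : 0 < lam / 4 := by positivity
  have hq0 : 0 < q := by omega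
  have hq' : (0 : ℝ) < q := by exact_mod_cast hq0
  have hqc : (q : ℂ) ≠ 0 := by exact_mod_cast hq0.ne'
  have hJU := jboundU hG hC ha hVG
  have hTd := Ts_diff hC hG.hG
  obtain ⟨δ, B, hδ, hinv⟩ := inv_co' (G := G) hG.hD hG.hw1 hC
  have hturn : ∀ σ : ℂ, σ.re < Λ → Ts G ℓ (σ + per q) = Ts G ℓ σ := by
    intro σ hσ
    have h1 := hFL.periodic hb hκ0 hq (σ := σ) hσ
    rw [← h1]
    unfold per
    rfl
  obtain ⟨V, hVd, hTV⟩ := repq hq0 hTd hturn
  have hmem : ∀ σ : ℂ, σ.re < Λ → exp (σ / q) ∈ ball (0 : ℂ) (Real.exp (Λ / q)) := by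
    intro σ hσ
    rw [mem_ball_zero_iff, norm_exp]
    refine Real.exp_lt_exp.2 ?_
    rw [← ofReal_natCast, div_ofReal_re, div_lt_div_iff_of_pos_right hq']
    exact hσ
  rcases Pool.Agent.Y953.ES.tri 0 (Real.exp (Λ / q)) V (Real.exp_pos _) hVd with
    hess | ⟨m, E, hE, hm, hVE⟩
  · exact (partEq (cc := 0) hq2 ha hJU hTd hess fun σ hσ => by
      rw [zero_mul, add_zero]; exact hTV σ hσ).elim
  have hTE : ∀ σ : ℂ, σ.re < Λ → Ts G ℓ σ = E (exp (σ / q)) / exp (σ / q) ^ m := by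
    intro σ hσ
    rw [hTV σ hσ, hVE _ (hmem σ hσ) (exp_ne_zero _), sub_zero]
  have hE0c : ContinuousAt E 0 := (hE.differentiableAt (isOpen_ball.mem_nhds
    (mem_ball_self (Real.exp_pos _)))).continuousAt
  have hm0 : m = 0 := by
    by_contra hm0
    have hE0 : E 0 ≠ 0 := hm.resolve_left hm0
    have ht : ∀ y : ℂ, Tendsto (fun x : ℝ => exp (((x : ℂ) + y) / q)) atBot (𝓝 0) := by
      intro y
      rw [tendsto_zero_iff_norm_tendsto_zero]
      have h1 : ∀ x : ℝ, ‖exp (((x : ℂ) + y) / q)‖ = Real.exp ((x + y.re) / q) := by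
        intro x
        rw [norm_exp, ← ofReal_natCast, div_ofReal_re, add_re, ofReal_re]
      simp only [h1]
      exact Real.tendsto_exp_atBot.comp
        ((tendsto_atBot_add_const_right _ _ tendsto_id).atBot_div_const hq')
    have hgc : ContinuousAt (fun e : ℂ => e ^ m / (E e - b2 * e ^ m)) 0 := by
      refine ContinuousAt.div (continuousAt_id.pow m) (hE0c.sub (continuousAt_const.mul
        (continuousAt_id.pow m))) ?_
      show E 0 - b2 * (0 : ℂ) ^ m ≠ 0
      rw [zero_pow hm0, mul_zero, sub_zero]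
      exact hE0
    have hg : Tendsto (fun e : ℂ => e ^ m / (E e - b2 * e ^ m)) (𝓝 0) (𝓝 0) := by
      have := hgc.tendsto
      simp only [zero_pow hm0, zero_div] at this
      exact this
    have hne : ∀ᶠ e in 𝓝 (0 : ℂ), E e - b2 * e ^ m ≠ 0 := by
      have h1 : ContinuousAt (fun e : ℂ => E e - b2 * e ^ m) 0 :=
        hE0c.sub (continuousAt_const.mul (continuousAt_id.pow m))
      refine h1.eventually_ne ?_
      rw [zero_pow hm0, mul_zero, sub_zero]
      exact hE0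
    have hval : ∀ σ : ℂ, σ.re < Λ → 1 / (Ts G ℓ σ - b2) =
        exp (σ / q) ^ m / (E (exp (σ / q)) - b2 * exp (σ / q) ^ m) := by
      intro σ hσ
      have h0 : exp (σ / q) ^ m ≠ 0 := pow_ne_zero _ (exp_ne_zero _)
      rw [hTE σ hσ, div_sub' h0, one_div_div]
      congr 1
      ring
    have hnz : ∀ σ : ℂ, σ.re < Λ → E (exp (σ / q)) - b2 * exp (σ / q) ^ m ≠ 0 →
        Ts G ℓ σ - b2 ≠ 0 := by
      intro σ hσ h1 h2
      have h0 : exp (σ / q) ^ m ≠ 0 := pow_ne_zero _ (exp_ne_zero _)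
      rw [hTE σ hσ, div_sub' h0, div_eq_zero_iff] at h2
      rcases h2 with h2 | h2
      · apply h1
        rw [← h2]
        ring
      · exact h0 h2
    have hre : ∀ x : ℝ, (((x : ℂ) + 2 * Real.pi * I) : ℂ).re = x := fun x => by simp
    have l1 := hg.comp (ht 0)
    have l2 := hg.comp (ht (2 * Real.pi * I))
    have l3 : Tendsto (fun x : ℝ => 1 + (b2 - b1) * (((fun e : ℂ => e ^ m /
        (E e - b2 * e ^ m)) ∘ fun x : ℝ => exp (((x : ℂ) + 2 * Real.pi * I) / q)) x)) atBot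
        (𝓝 1) := by
      have := (l2.const_mul (b2 - b1)).const_add 1
      rwa [mul_zero, add_zero] at this
    have l4 : Tendsto (fun x : ℝ => κ * (1 + (b2 - b1) * (((fun e : ℂ => e ^ m /
        (E e - b2 * e ^ m)) ∘ fun x : ℝ => exp (((x : ℂ) + 0) / q)) x))) atBot
        (𝓝 κ) := by
      have := ((l1.const_mul (b2 - b1)).const_add 1).const_mul κ
      rwa [mul_zero, add_zero, mul_one] at this
    have hev : ∀ᶠ x : ℝ in atBot, 1 + (b2 - b1) * (((fun e : ℂ => e ^ m /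
        (E e - b2 * e ^ m)) ∘ fun x : ℝ => exp (((x : ℂ) + 2 * Real.pi * I) / q)) x) =
        κ * (1 + (b2 - b1) * (((fun e : ℂ => e ^ m /
        (E e - b2 * e ^ m)) ∘ fun x : ℝ => exp (((x : ℂ) + 0) / q)) x)) := by
      filter_upwards [eventually_lt_atBot Λ, (ht 0).eventually hne,
        (ht (2 * Real.pi * I)).eventually hne] with x hx hx1 hx2
      simp only [Function.comp_apply]
      rw [add_zero] at hx1 ⊢
      have hxΛ : (x : ℂ).re < Λ := by rw [ofReal_re]; exact hx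
      have hxΛ2 : ((x : ℂ) + 2 * Real.pi * I).re < Λ := by rw [hre]; exact hx
      rw [← hval _ hxΛ, ← hval _ hxΛ2]
      have n1 := hnz _ hxΛ hx1
      have n2 := hnz _ hxΛ2 hx2
      have h1 := hFL (x : ℂ) hxΛ
      field_simp
      linear_combination h1
    exact hκ1 (tendsto_nhds_unique l4 (l3.congr' hev))
  subst hm0
  -- bounded
  set R2 : ℝ := Real.exp ((Λ - Real.log 2) / q) with hR2
  have hl2 : 0 < Real.log 2 := Real.log_pos (by norm_num)
  have hR2' : R2 < Real.exp (Λ / q) := by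
    rw [hR2]
    refine Real.exp_lt_exp.2 ?_
    rw [div_lt_div_iff_of_pos_right hq']
    linarith
  obtain ⟨Mx, hMx⟩ := (isCompact_closedBall (0 : ℂ) R2).exists_bound_of_continuousOn
    (hE.continuousOn.mono (closedBall_subset_ball hR2'))
  have hMx0 : 0 ≤ Mx := (norm_nonneg _).trans (hMx 0 (mem_closedBall_self (Real.exp_pos _).le))
  have hgr : ∀ τ : ℂ, ‖exp τ‖ < δ → ‖G τ‖ ≤ Mx := by
    intro τ hτ
    obtain ⟨σ, h1, h2, h3, h4⟩ := hinv τ hτ
    have h5 : σ.re ≤ Λ - Real.log 2 := by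
      rw [norm_exp] at h3
      have h6 := Real.log_le_log (Real.exp_pos _) h3
      rwa [Real.log_exp, Real.log_div (Real.exp_pos _).ne' (by norm_num), Real.log_exp] at h6
    have h6 : ‖G τ‖ = ‖Ts G ℓ σ‖ := by rw [h2, norm_conj]
    rw [h6, hTE σ h1, pow_zero, div_one]
    refine hMx _ ?_
    have h8 : (σ / q : ℂ).re = σ.re / q := by rw [← ofReal_natCast, div_ofReal_re]
    rw [mem_closedBall_zero_iff, norm_exp, h8, hR2]
    exact Real.exp_le_exp.2 (by gcongr)
  obtain ⟨ε, E', hε, -, hGE⟩ := slow_ext hG hlam hBU (by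
    intro η hη
    refine ⟨min δ (η / (Mx + 1)), lt_min hδ (by positivity), fun τ hτ _ _ => ?_⟩
    have h2 := hgr τ (hτ.trans_le (min_le_left _ _))
    have h3 := (hτ.trans_le (min_le_right _ _)).le
    calc ‖exp τ‖ * ‖G τ‖ ≤ (η / (Mx + 1)) * (Mx + 1) := by
          have : ‖G τ‖ ≤ Mx + 1 := by linarith
          gcongr
      _ = η := by
          have : Mx + 1 ≠ 0 := by positivity
          field_simp)
  refine loc_of_per hG hlam hBU hNF hVG hB (x0 := Real.log ε) fun τ hτ hτ2 => ?_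
  rw [hGE τ hτ hτ2, hGE (τ + per 1) (by rw [add_re, per_re, add_zero]; exact hτ)
    (by rw [add_re, per_re, add_zero]; exact hτ2), exp_add_per]

/-- **The local theorem for Moebius monodromy.** -/
theorem loc_mob (hLIM : S_LIM) (hFAN : S_FAN) (hSTR : S_STRIP) (hELL : S_ELL)
    (hG : P0 φ r w1 L G) {lam : ℝ} (hlam : 0 < lam)
    (hBU : BranchesBlowUp φ r lam) (hNF : NoFiniteIsolatedSingularity φ r)
    (hVG : ∀ (z : ℂ) (f : ℂ → ℂ), Branch φ r z f → ∀ b,
      VG (lam / 4) φ b (1 / conj z) (Rf f))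
    (hB : ∀ w ∈ ball w1 (Real.exp L), 1 < ‖w‖) (hdet : a * d - b * c ≠ 0)
    (hM : ∀ τ : ℂ, τ.re < L → G (τ + per 1) * (c * G τ + d) = a * G τ + b) :
    ∃ E : ℂ → ℂ, DifferentiableOn ℂ E (ball w1 (Real.exp L)) ∧
      ∀ τ : ℂ, τ.re < L → G τ = E (w1 + exp τ) := by
  by_cases hc : c = 0
  · have hd : d ≠ 0 := by
      rintro rfl
      rw [hc] at hdet
      exact hdet (by ring)
    have ha0 : a ≠ 0 := by
      rintro rfl
      rw [hc] at hdet
      exact hdet (by ring)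
    refine loc_aff (κ := a / d) (Δ := b / d) hG hlam hBU hNF hVG hB (div_ne_zero ha0 hd)
      fun τ hτ => ?_
    have h1 := hM τ hτ
    rw [hc, zero_mul, zero_add] at h1
    field_simp
    linear_combination h1
  have ha : 0 < lam / 4 := by positivity
  obtain ⟨Λ, ℓ, hC⟩ := exists_co hG.hD hG.hw1 L
  have hMR := Ts_MR hC hM
  have hTd : DifferentiableOn ℂ (Ts G ℓ) (HP Λ) := Ts_diff hC hG.hG
  have hOP : OP (lam / 4) Λ (Ts G ℓ) := fun σ1 hσ1 b => opi hG hC ha hVG hσ1 b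
  have hc' : conj c ≠ 0 := by rwa [ne_eq, _root_.map_eq_zero]
  have hdet' : -conj d * -conj a - conj b * conj c ≠ 0 := by
    intro h1
    apply hdet
    have h2 := congrArg conj h1
    simp only [map_sub, map_mul, map_neg, conj_conj, map_zero] at h2
    linear_combination h2
  rcases hMR.forms hc' hdet' with ⟨b0, c0, hc0, hFP⟩ | ⟨b1, b2, κ, hb, hκ0, hκ1, hFL⟩
  · exact loc_const hG hlam hBU hNF hVG hB hC (inf_one hLIM hSTR ha hOP hTd hFP hc0)
  · by_cases hκn : ∀ n : ℕ, 0 < n → κ ^ n ≠ 1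
    · exact loc_const hG hlam hBU hNF hVG hB hC
        (inf_two hLIM hFAN hSTR hELL ha hOP hTd hFL hb hκ0 hκn)
    · push Not at hκn
      obtain ⟨n, hn, hκn⟩ := hκn
      refine loc_fin hG hlam hBU hNF hVG hB hC hb hκ0 hκ1 hFL (q := 2 * n) (by omega) ?_
      rw [mul_comm, pow_mul, hκn, one_pow]

end Pool.Agent.E8helper32.SQ
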