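import Pool.Agent.E8helper32.SQ.Kid

/-!
# The primitives in a strip; uniform limits
-/

set_option autoImplicit false

open Complex MeasureTheory Metric Set Filter Topology ComplexConjugate

namespace Pool.Agent.E8helper32.SQ

open Pool.Agent.Y245.SC
open Pool.Agent.E8helper32.SP (OP turns exp_turns two_pi_re)

/-- vanishing first moments give periodicity -/
theorem prim_strip {x1 x2 : ℝ} {Y : ℂ → ℂ}
    (hY : DifferentiableOn ℂ Y {σ : ℂ | x1 < σ.re ∧ σ.re < x2})
    (h : ∀ σ : ℂ, x1 < σ.re → σ.re < x2 → ∫ t in (0 : ℝ)..1,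
      (exp (σ + t * (2 * Real.pi * I)) - exp σ) * Y (σ + t * (2 * Real.pi * I)) *
        (exp (σ + t * (2 * Real.pi * I)) * (2 * Real.pi * I)) = 0) :
    ∀ σ : ℂ, x1 < σ.re → σ.re < x2 → Y (σ + 2 * Real.pi * I) = Y σ := by
  have hUo : IsOpen {σ : ℂ | x1 < σ.re ∧ σ.re < x2} :=
    (isOpen_lt continuous_const continuous_re).inter (isOpen_lt continuous_re continuous_const)
  have hUc : Convex ℝ {σ : ℂ | x1 < σ.re ∧ σ.re < x2} :=
    (convex_halfSpace_re_gt x1).inter (convex_halfSpace_re_lt x2)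
  have hAd : DifferentiableOn ℂ (fun s => Y s * exp s) {σ : ℂ | x1 < σ.re ∧ σ.re < x2} :=
    hY.mul differentiable_exp.differentiableOn
  have hBd : DifferentiableOn ℂ (fun s => Y s * exp s * exp s)
      {σ : ℂ | x1 < σ.re ∧ σ.re < x2} := hAd.mul differentiable_exp.differentiableOn
  obtain ⟨A1, A2⟩ := t_SEG _ _ hUo hUc hAd
  obtain ⟨B1, B2⟩ := t_SEG _ _ hUo hUc hBd
  intro p0 hp1 hp2
  have hp0' : p0 ∈ {σ : ℂ | x1 < σ.re ∧ σ.re < x2} := ⟨hp1, hp2⟩
  have hre : ∀ σ : ℂ, (σ + 2 * Real.pi * I).re = σ.re := fun σ => by simp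
  have hsh : ∀ σ : ℂ, σ ∈ {σ : ℂ | x1 < σ.re ∧ σ.re < x2} →
      σ + 2 * Real.pi * I ∈ {σ : ℂ | x1 < σ.re ∧ σ.re < x2} := by
    intro σ hσ
    rw [mem_ofPred_eq, hre]
    exact hσ
  set A : ℂ → ℂ := fun σ => seg (fun s => Y s * exp s) p0 σ with hA
  set B : ℂ → ℂ := fun σ => seg (fun s => Y s * exp s * exp s) p0 σ with hB
  have hAsh : ∀ σ : ℂ, σ ∈ {σ : ℂ | x1 < σ.re ∧ σ.re < x2} →
      HasDerivAt (fun σ => A (σ + 2 * Real.pi * I) - A σ)
      (Y (σ + 2 * Real.pi * I) * exp σ - Y σ * exp σ) σ := by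
    intro σ hσ
    have h1 : HasDerivAt A _ (σ + 2 * Real.pi * I) := A2 p0 hp0' _ (hsh σ hσ)
    have h2 := h1.comp_add_const σ (2 * Real.pi * I)
    have h3 : HasDerivAt A _ σ := A2 p0 hp0' σ hσ
    have h4 := h2.sub h3
    rw [exp_periodic σ] at h4
    exact h4
  have hBsh : ∀ σ : ℂ, σ ∈ {σ : ℂ | x1 < σ.re ∧ σ.re < x2} →
      HasDerivAt (fun σ => B (σ + 2 * Real.pi * I) - B σ)
      (Y (σ + 2 * Real.pi * I) * exp σ * exp σ - Y σ * exp σ * exp σ) σ := by
    intro σ hσ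
    have h1 : HasDerivAt B _ (σ + 2 * Real.pi * I) := B2 p0 hp0' _ (hsh σ hσ)
    have h2 := h1.comp_add_const σ (2 * Real.pi * I)
    have h3 : HasDerivAt B _ σ := B2 p0 hp0' σ hσ
    have h4 := h2.sub h3
    rw [exp_periodic σ] at h4
    exact h4
  have hrel : ∀ σ : ℂ, σ ∈ {σ : ℂ | x1 < σ.re ∧ σ.re < x2} → (B (σ + 2 * Real.pi * I) - B σ) -
      exp σ * (A (σ + 2 * Real.pi * I) - A σ) = 0 := by
    intro σ hσ
    have h1 := A1 p0 hp0' σ hσ _ (hsh σ hσ)
    have h2 := B1 p0 hp0' σ hσ _ (hsh σ hσ)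
    have h3 := h σ hσ.1 hσ.2
    have hline : ∀ t : ℝ, σ + t * (2 * Real.pi * I) ∈ {σ : ℂ | x1 < σ.re ∧ σ.re < x2} := by
      intro t
      rw [mem_ofPred_eq]
      have : (σ + t * (2 * Real.pi * I)).re = σ.re := by simp
      rw [this]
      exact hσ
    have hs : Continuous fun t : ℝ => σ + t * (2 * Real.pi * I) :=
      continuous_const.add (continuous_ofReal.mul continuous_const)
    have cA : Continuous fun t : ℝ => Y (σ + t * (2 * Real.pi * I)) *
        exp (σ + t * (2 * Real.pi * I)) := hAd.continuousOn.comp_continuous hs hline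
    have cB : Continuous fun t : ℝ => Y (σ + t * (2 * Real.pi * I)) *
        exp (σ + t * (2 * Real.pi * I)) * exp (σ + t * (2 * Real.pi * I)) :=
      hBd.continuousOn.comp_continuous hs hline
    have iA : IntervalIntegrable (fun t : ℝ => exp σ * (Y (σ + t * (2 * Real.pi * I)) *
        exp (σ + t * (2 * Real.pi * I)) * (2 * Real.pi * I))) volume 0 1 :=
      (continuous_const.mul (cA.mul continuous_const)).intervalIntegrable _ _
    have iB : IntervalIntegrable (fun t : ℝ => Y (σ + t * (2 * Real.pi * I)) *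
        exp (σ + t * (2 * Real.pi * I)) * exp (σ + t * (2 * Real.pi * I)) * (2 * Real.pi * I))
        volume 0 1 := (cB.mul continuous_const).intervalIntegrable _ _
    have hsub : σ + 2 * Real.pi * I - σ = 2 * Real.pi * I := by ring
    have h4 : (∫ t in (0 : ℝ)..1,
        (exp (σ + t * (2 * Real.pi * I)) - exp σ) * Y (σ + t * (2 * Real.pi * I)) *
        (exp (σ + t * (2 * Real.pi * I)) * (2 * Real.pi * I))) =
        seg (fun s => Y s * exp s * exp s) σ (σ + 2 * Real.pi * I) -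
          exp σ * seg (fun s => Y s * exp s) σ (σ + 2 * Real.pi * I) := by
      unfold seg
      rw [hsub, ← intervalIntegral.integral_const_mul]
      refine Eq.trans ?_ (intervalIntegral.integral_sub iB iA)
      refine intervalIntegral.integral_congr fun t _ => ?_
      simp only
      ring
    rw [h4] at h3
    simp only [hA, hB]
    rw [← h1, ← h2]
    linear_combination h3
  have hA0 : ∀ σ : ℂ, σ ∈ {σ : ℂ | x1 < σ.re ∧ σ.re < x2} →
      A (σ + 2 * Real.pi * I) - A σ = 0 := by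
    intro σ hσ
    have h1 := (hBsh σ hσ).sub ((Complex.hasDerivAt_exp σ).mul (hAsh σ hσ))
    have h2 : HasDerivAt (fun σ => (B (σ + 2 * Real.pi * I) - B σ) -
        exp σ * (A (σ + 2 * Real.pi * I) - A σ)) 0 σ := by
      refine (hasDerivAt_const σ (0 : ℂ)).congr_of_eventuallyEq ?_
      filter_upwards [hUo.mem_nhds (x := σ) hσ] with s hs
      exact hrel s hs
    have h3 := h1.unique h2
    have h4 : exp σ * (A (σ + 2 * Real.pi * I) - A σ) = 0 := by linear_combination -h3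
    exact (mul_eq_zero.1 h4).resolve_left (exp_ne_zero _)
  have h1 := hAsh p0 hp0'
  have h2 : HasDerivAt (fun σ => A (σ + 2 * Real.pi * I) - A σ) 0 p0 := by
    refine (hasDerivAt_const p0 (0 : ℂ)).congr_of_eventuallyEq ?_
    filter_upwards [hUo.mem_nhds (x := p0) hp0'] with s hs
    exact hA0 s hs
  have h3 := h1.unique h2
  have h4 : (Y (p0 + 2 * Real.pi * I) - Y p0) * exp p0 = 0 := by linear_combination h3
  exact sub_eq_zero.1 ((mul_eq_zero.1 h4).resolve_right (exp_ne_zero _))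

/-- `Y / (1 - z Y) → Y` uniformly as `z → 0` -/
theorem unif {Y : ℝ → ℂ} (hY : ContinuousOn Y (Icc 0 1)) {z : ℕ → ℂ}
    (hz : Tendsto z atTop (𝓝 0)) :
    TendstoUniformlyOn (fun k s => Y s / (1 - z k * Y s)) Y atTop (Icc 0 1) := by
  obtain ⟨B0, hB0⟩ := isCompact_Icc.exists_bound_of_continuousOn hY
  obtain ⟨B, hB, hYB⟩ : ∃ B : ℝ, 1 ≤ B ∧ ∀ s ∈ Icc (0 : ℝ) 1, ‖Y s‖ ≤ B :=
    ⟨max 1 B0, le_max_left _ _, fun s hs => (hB0 s hs).trans (le_max_right _ _)⟩
  rw [Metric.tendstoUniformlyOn_iff]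
  intro ε hε
  have hη : 0 < min (1 / (2 * B)) (ε / (4 * B ^ 2)) := by positivity
  filter_upwards [(Metric.tendsto_nhds.1 hz) _ hη] with k hk s hs
  rw [dist_zero_right] at hk
  have h1 := hk.trans_le (min_le_left _ _)
  have h2 := hk.trans_le (min_le_right _ _)
  have hy := hYB s hs
  have h3 : ‖z k * Y s‖ ≤ 1 / 2 := by
    rw [norm_mul]
    calc ‖z k‖ * ‖Y s‖ ≤ (1 / (2 * B)) * B := by gcongr
      _ = 1 / 2 := by field_simp
  have h4 : 1 / 2 ≤ ‖1 - z k * Y s‖ := by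
    have := norm_sub_norm_le (1 : ℂ) (z k * Y s)
    rw [norm_one] at this
    linarith
  have h0 : 1 - z k * Y s ≠ 0 := by
    intro h
    rw [h, norm_zero] at h4
    linarith
  rw [dist_eq_norm]
  have e : Y s - Y s / (1 - z k * Y s) = -(z k * Y s * Y s) / (1 - z k * Y s) := by
    rw [eq_div_iff h0, sub_mul, div_mul_cancel₀ _ h0]
    ring
  rw [e, norm_div, norm_neg, div_lt_iff₀ (by linarith)]
  calc ‖z k * Y s * Y s‖ ≤ ‖z k‖ * (B * B) := by
        rw [norm_mul, norm_mul, mul_assoc]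
        gcongr
    _ < (ε / (4 * B ^ 2)) * (B * B) := by
        have : 0 < B * B := by positivity
        gcongr
    _ = ε * (1 / 4) := by field_simp
    _ ≤ ε * ‖1 - z k * Y s‖ := by
        have : (1 : ℝ) / 4 ≤ ‖1 - z k * Y s‖ := by linarith
        gcongr

end Pool.Agent.E8helper32.SQ
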