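import Pool.Agent.E8helper32.SQ.Loc
import Pool.Agent.E8helper32.SQ.Cont

/-!
# Branches with a given Schwarzian derivative
-/

set_option autoImplicit false

open Complex MeasureTheory Metric Set Filter Topology ComplexConjugate

namespace Pool.Agent.E8helper32.SQ

open Pool.Agent.Results.MP_83fd13_an.BranchSingularities
open Pool.Agent.E8helper32.SA (eqOn_convex)

theorem deriv_congr {f g : ℂ → ℂ} {z : ℂ} (h : f =ᶠ[𝓝 z] g) : deriv f =ᶠ[𝓝 z] deriv g :=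
  h.deriv

theorem Sw_congr {f g : ℂ → ℂ} {z : ℂ} (h : f =ᶠ[𝓝 z] g) : Sw f z = Sw g z := by
  have h1 := h.deriv
  have h2 := h1.deriv
  have h3 := h2.deriv
  unfold Sw
  rw [h1.self_of_nhds, h2.self_of_nhds, h3.self_of_nhds]

theorem Sw_congr' {f g : ℂ → ℂ} {z : ℂ} (h : f =ᶠ[𝓝 z] g) : Sw f =ᶠ[𝓝 z] Sw g := by
  filter_upwards [eventually_eventually_nhds.2 h] with w hw
  exact Sw_congr hw

theorem Sw_an {f : ℂ → ℂ} {z : ℂ} (hf : AnalyticAt ℂ f z) (h : deriv f z ≠ 0) :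
    AnalyticAt ℂ (Sw f) z := by
  have h1 := hf.deriv
  have h2 := h1.deriv
  have h3 := h2.deriv
  exact (h3.div h1 h).sub (analyticAt_const.mul ((h2.div h1 h).pow 2))

/-- the Schwarzian derivative of `g` near `z` is `Q`, off the complement of `U` -/
structure Sc (U : Set ℂ) (Q : ℂ → ℂ) (z : ℂ) (g : ℂ → ℂ) : Prop where
  hd : ∀ᶠ w in 𝓝 z, DifferentiableAt ℂ g w
  hn : ∃ᶠ w in 𝓝 z, deriv g w ≠ 0
  hs : ∀ᶠ w in 𝓝 z, w ∈ U → deriv g w ≠ 0 → Sw g w = Q w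

variable {U : Set ℂ} {Q : ℂ → ℂ}

theorem Sc.congr {z : ℂ} {f g : ℂ → ℂ} (h : Sc U Q z f) (hfg : f =ᶠ[𝓝 z] g) : Sc U Q z g := by
  have h1 : ∀ᶠ y in 𝓝 z, f =ᶠ[𝓝 y] g := eventually_eventually_nhds.2 hfg
  refine ⟨?_, ?_, ?_⟩
  · filter_upwards [h.hd, h1] with w h2 h3
    exact h2.congr_of_eventuallyEq h3.symm
  · exact (h.hn.and_eventually h1).mono fun w hw => by rw [← hw.2.deriv_eq]; exact hw.1
  · filter_upwards [h.hs, h1] with w h2 h3 h4 h5
    rw [← Sw_congr h3]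
    exact h2 h4 (by rw [h3.deriv_eq]; exact h5)

/-- analyticity from differentiability nearby -/
theorem Sc.an {z : ℂ} {g : ℂ → ℂ} (h : Sc U Q z g) : AnalyticAt ℂ g z := by
  rw [analyticAt_iff_eventually_differentiableAt]
  exact h.hd

/-- propagation in discs -/
theorem Sc.prop (hCONN : S_CONN) (hCNT : S_CNT) (hU : IsOpen U) {c : ℂ} {ρ : ℝ}
    (hA : (ball c ρ \ U).Countable) (hQ : DifferentiableOn ℂ Q (ball c ρ ∩ U)) {E g : ℂ → ℂ}
    (hE : DifferentiableOn ℂ E (ball c ρ)) {z : ℂ} (hz : z ∈ ball c ρ) (hEg : E =ᶠ[𝓝 z] g)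
    (h : Sc U Q z g) {z' : ℂ} (hz' : z' ∈ ball c ρ) : Sc U Q z' E := by
  have h' := h.congr hEg.symm
  have hEa : AnalyticOnNhd ℂ E (ball c ρ) := hE.analyticOnNhd isOpen_ball
  have hdE : DifferentiableOn ℂ (deriv E) (ball c ρ) := hE.deriv isOpen_ball
  obtain ⟨w0, hw0, hw0b⟩ := (h'.hn.and_eventually (isOpen_ball.mem_nhds hz)).exists
  have hZ := hCNT c ρ (deriv E) hdE ⟨w0, hw0b, hw0⟩
  -- the good set
  set D : Set ℂ := ball c ρ \ ((ball c ρ \ U) ∪ {w | w ∈ ball c ρ ∧ deriv E w = 0}) with hD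
  have hDc : IsPreconnected D := hCONN c ρ _ (hA.union hZ)
  have hDm : ∀ w, w ∈ D ↔ w ∈ ball c ρ ∧ w ∈ U ∧ deriv E w ≠ 0 := by
    intro w
    rw [hD]
    constructor
    · rintro ⟨h1, h2⟩
      rw [mem_union, not_or] at h2
      refine ⟨h1, ?_, fun h3 => h2.2 ⟨h1, h3⟩⟩
      by_contra h3
      exact h2.1 ⟨h1, h3⟩
    · rintro ⟨h1, h2, h3⟩
      refine ⟨h1, ?_⟩
      rintro (h4 | h4)
      · exact h4.2 h2
      · exact h3 h4.2
  have hne : ∀ w ∈ ball c ρ, deriv E w ≠ 0 → ∀ᶠ v in 𝓝 w, deriv E v ≠ 0 := fun w hw h1 =>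
    (hdE.differentiableAt (isOpen_ball.mem_nhds hw)).continuousAt.eventually_ne h1
  have hSa : AnalyticOnNhd ℂ (Sw E) D := fun w hw =>
    Sw_an (hEa w ((hDm w).1 hw).1) ((hDm w).1 hw).2.2
  have hQa : AnalyticOnNhd ℂ Q D := fun w hw =>
    (hQ.analyticOnNhd (isOpen_ball.inter hU)) w ⟨((hDm w).1 hw).1, ((hDm w).1 hw).2.1⟩
  -- a point of agreement
  obtain ⟨ε, hε, h1⟩ := Metric.eventually_nhds_iff_ball.1 (h'.hs.and (isOpen_ball.mem_nhds hz))
  obtain ⟨z1, hz1, hz1D⟩ : ∃ z1 ∈ ball z ε, z1 ∈ D := by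
    obtain ⟨z1, h2, h3⟩ := ((hA.union hZ).dense_compl ℝ).inter_open_nonempty (ball z ε)
      isOpen_ball ⟨z, mem_ball_self hε⟩
    exact ⟨z1, h2, (h1 z1 h2).2, h3⟩
  have hev : Sw E =ᶠ[𝓝 z1] Q := by
    obtain ⟨-, h3, h4⟩ := (hDm z1).1 hz1D
    filter_upwards [isOpen_ball.mem_nhds hz1, hU.mem_nhds h3,
      hne z1 ((hDm z1).1 hz1D).1 h4] with v h5 h6 h7
    exact (h1 v h5).1 h6 h7
  have heq := hSa.eqOn_of_preconnected_of_eventuallyEq hQa hDc hz1D hev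
  refine ⟨?_, ?_, ?_⟩
  · filter_upwards [isOpen_ball.mem_nhds hz'] with w hw
    exact hE.differentiableAt (isOpen_ball.mem_nhds hw)
  · by_contra hcon
    rw [not_frequently] at hcon
    have h2 : deriv E =ᶠ[𝓝 z'] fun _ => (0 : ℂ) := hcon.mono fun w hw => not_not.1 hw
    have h3 := eqOn_convex (convex_ball c ρ) isOpen_ball hdE (differentiableOn_const (0 : ℂ)) hz' h2
    exact hw0 (h3 hw0b)
  · filter_upwards [isOpen_ball.mem_nhds hz'] with w hw h2 h3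
    exact heq ((hDm w).2 ⟨hw, h2, h3⟩)

variable {φ : ℂ → ℂ} {r : ℝ}

/-- a point near which all branches with Schwarzian derivative `Q` extend -/
def Good (φ : ℂ → ℂ) (r : ℝ) (B U : Set ℂ) (Q : ℂ → ℂ) (y : ℂ) : Prop :=
  ∃ δ : ℝ, 0 < δ ∧ ball y δ ⊆ B ∧ ∀ z ∈ ball y δ, ∀ g : ℂ → ℂ, Branch φ r z g → Sc U Q z g →
    ∃ E : ℂ → ℂ, DifferentiableOn ℂ E (ball y δ) ∧ E =ᶠ[𝓝 z] g

theorem Good.open {B : Set ℂ} {y : ℂ} (h : Good φ r B U Q y) : ∀ᶠ w in 𝓝 y, Good φ r B U Q w := by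
  obtain ⟨δ, hδ, hs, h1⟩ := h
  filter_upwards [isOpen_ball.mem_nhds (mem_ball_self hδ)] with w hw
  have hsub : ball w (δ - dist w y) ⊆ ball y δ := ball_subset_ball' (by linarith)
  refine ⟨δ - dist w y, by rw [mem_ball] at hw; linarith, hsub.trans hs, fun z hz g hg hS => ?_⟩
  obtain ⟨E, hE, hEg⟩ := h1 z (hsub hz) g hg hS
  exact ⟨E, hE.mono hsub, hEg⟩

/-- regular points -/
theorem reg_pt (hODE : S_ODE) (hMOB : S_MOB) (hφ : DifferentiableOn ℂ φ (ball 0 r))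
    (hNF : NoFiniteIsolatedSingularity φ r) {B : Set ℂ} (hBo : IsOpen B) (hB : ∀ w ∈ B, 1 < ‖w‖)
    (hU : IsOpen U) (hQ : DifferentiableOn ℂ Q (B ∩ U)) {y : ℂ} (hyB : y ∈ B) (hyU : y ∈ U) :
    Good φ r B U Q y := by
  have hQa : AnalyticAt ℂ Q y := hQ.analyticAt ((hBo.inter hU).mem_nhds ⟨hyB, hyU⟩)
  obtain ⟨δ1, f, hδ1, hfd, hfi, hf⟩ := hODE Q y hQa
  obtain ⟨δ2, hδ2, hs⟩ := Metric.isOpen_iff.1 (hBo.inter hU) y ⟨hyB, hyU⟩
  set δ : ℝ := min δ1 δ2 / 3 with hδdef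
  have hm : 0 < min δ1 δ2 := lt_min hδ1 hδ2
  have hδ : 0 < δ := by positivity
  have h3 : 3 * δ = min δ1 δ2 := by rw [hδdef]; ring
  have h31 : ball y (3 * δ) ⊆ ball y δ1 := ball_subset_ball (by rw [h3]; exact min_le_left _ _)
  have h32 : ball y (3 * δ) ⊆ B ∩ U :=
    (ball_subset_ball (by rw [h3]; exact min_le_right _ _)).trans hs
  have h13 : ball y δ ⊆ ball y (3 * δ) := ball_subset_ball (by linarith)
  refine ⟨δ, hδ, fun w hw => (h32 (h13 hw)).1, fun z hz g hg hS => ?_⟩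
  -- a small disc
  obtain ⟨ε, hε, hεs⟩ := Metric.eventually_nhds_iff_ball.1
    ((hS.hd.and hS.hs).and (isOpen_ball.mem_nhds hz))
  have hgd : DifferentiableOn ℂ g (ball z ε) := fun w hw =>
    (hεs w hw).1.1.differentiableWithinAt
  have hεδ : ball z ε ⊆ ball y δ := fun w hw => (hεs w hw).2
  obtain ⟨z1, hz1n, hz1⟩ := (hS.hn.and_eventually
    (isOpen_ball.mem_nhds (mem_ball_self hε))).exists
  have hz1δ := hεδ hz1
  have hga : AnalyticAt ℂ g z1 := hgd.analyticAt (isOpen_ball.mem_nhds hz1)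
  have hfa : AnalyticAt ℂ f z1 := hfd.analyticAt (isOpen_ball.mem_nhds (h31 (h13 hz1δ)))
  have hbr1 : Branch φ r z1 g := Pool.Agent.E8helper32.SA.branch_ball hg (fun w hw =>
    hB w (h32 (h13 (hεδ hw))).1) hgd (mem_ball_self hε) hz1
  have hSw : Sw f =ᶠ[𝓝 z1] Sw g := by
    filter_upwards [isOpen_ball.mem_nhds hz1, hga.deriv.continuousAt.eventually_ne hz1n]
      with w h4 h5
    have h6 := h13 (hεδ h4)
    rw [(hf w (h31 h6)).2, (hεs w h4).1.2 (h32 h6).2 h5]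
  obtain ⟨a, b, c, d, hdet, hev⟩ := hMOB f g z1 hfa hga (hf z1 (h31 (h13 hz1δ))).1 hz1n hSw
  -- finishing
  have hfin : ∀ E : ℂ → ℂ, DifferentiableOn ℂ E (ball y δ) → E =ᶠ[𝓝 z1] g → E =ᶠ[𝓝 z] g := by
    intro E hE hEg
    have h4 := eqOn_convex (convex_ball z ε) isOpen_ball (hE.mono hεδ) hgd hz1 hEg
    filter_upwards [isOpen_ball.mem_nhds (mem_ball_self (x := z) hε)] with w hw
    exact h4 hw
  by_cases hpole : ∃ p ∈ ball y δ, c * f p + d = 0
  · obtain ⟨p, hp, hp0⟩ := hpole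
    have hc : c ≠ 0 := by
      rintro rfl
      rw [zero_mul, zero_add] at hp0
      apply hdet
      rw [hp0]
      ring
    have hp3 : ball p (2 * δ) ⊆ ball y (3 * δ) := by
      refine ball_subset_ball' ?_
      rw [mem_ball] at hp
      linarith
    have hpne : ∀ w ∈ ball p (2 * δ), w ≠ p → c * f w + d ≠ 0 := by
      intro w hw hne h0
      apply hne
      refine hfi (h31 (hp3 hw)) (h31 (h13 hp)) ?_
      have h4 : c * f w = c * f p := by linear_combination h0 - hp0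
      exact mul_left_cancel₀ hc h4
    have hz1p : z1 ≠ p := by
      rintro rfl
      exact hev.self_of_nhds.1 hp0
    have hz1b : z1 ∈ ball p (2 * δ) := by
      rw [mem_ball] at hp hz1δ ⊢
      calc dist z1 p ≤ dist z1 y + dist y p := dist_triangle _ _ _
        _ < 2 * δ := by rw [dist_comm y p]; linarith
    obtain ⟨E, hE, hEf⟩ := hNF p (2 * δ) (fun w => (a * f w + b) / (c * f w + d)) (by linarith)
      (fun w hw => hB w (h32 (hp3 hw)).1) (by
        rintro w ⟨hw, hne⟩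
        have h4 : DifferentiableAt ℂ f w :=
          hfd.differentiableAt (isOpen_ball.mem_nhds (h31 (hp3 hw)))
        exact (((h4.const_mul a).add_const b).div ((h4.const_mul c).add_const d)
          (hpne w hw hne)).differentiableWithinAt) ⟨z1, ⟨hz1b, hz1p⟩, by
        refine Pool.Agent.E8helper32.SA.branch_congr hφ hbr1 ?_
        filter_upwards [hev] with w h4
        rw [eq_div_iff h4.1]
        exact h4.2⟩
    have hyp : ball y δ ⊆ ball p (2 * δ) := by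
      refine ball_subset_ball' ?_
      rw [mem_ball, dist_comm] at hp
      linarith
    refine ⟨E, hE.mono hyp, hfin E (hE.mono hyp) ?_⟩
    filter_upwards [hev, isOpen_ball.mem_nhds hz1b, isOpen_ne.mem_nhds hz1p] with w h4 h5 h6
    rw [hEf w h5 h6, div_eq_iff h4.1]
    exact h4.2.symm
  · push Not at hpole
    have hE : DifferentiableOn ℂ (fun w => (a * f w + b) / (c * f w + d)) (ball y δ) := by
      intro w hw
      have h4 : DifferentiableAt ℂ f w :=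
        hfd.differentiableAt (isOpen_ball.mem_nhds (h31 (h13 hw)))
      exact (((h4.const_mul a).add_const b).div ((h4.const_mul c).add_const d)
        (hpole w hw)).differentiableWithinAt
    refine ⟨_, hE, hfin _ hE ?_⟩
    filter_upwards [hev] with w h4
    rw [div_eq_iff h4.1]
    exact h4.2.symm

end Pool.Agent.E8helper32.SQ
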